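import Pool.Agent.MP_fc7299_nt.Mg.Lam

-- part MP_fc7299_nt.Main
section

/-!
Choice of the parameters and the almost sure statement.
-/

set_option autoImplicit false

namespace Pool.Agent.MP_fc7299_nt

open Finset Function Filter MeasureTheory Pool.Agent.MP_00acf4_nt
open scoped BigOperators

/-- The iterated binary logarithm. -/
def ll (n : ℕ) : ℕ := Nat.log 2 (Nat.log 2 n)

lemma log_tendsto : Tendsto (Nat.log 2) atTop atTop :=
  tendsto_atTop_atTop.mpr fun L => ⟨2 ^ L, fun _ h => Nat.le_log_of_pow_le one_lt_two h⟩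

lemma ev_pow (r : ℕ) {c : ℝ} (hc : 0 < c) : ∀ᶠ l : ℕ in atTop, (l : ℝ) ^ r ≤ c * 2 ^ l :=
  ((tendsto_pow_const_div_const_pow_of_one_lt r one_lt_two).eventually (ge_mem_nhds hc)).mono
    fun _ h => (div_le_iff₀ (by positivity)).mp h

theorem est {y θ δ : ℝ} (y0 : 0 ≤ y) (y1 : y ≤ 1) (θ1 : θ ≤ 1) (δ0 : 0 < δ) (hδ : δ < θ) :
    ∀ᶠ n : ℕ in atTop, n ≤ 2 ^ 2 ^ ll n ^ 3 ∧ 2 ≤ 2 ^ ll n ^ 3 ∧ Ex (PQ (2 ^ n)) (fun b =>
      ∏ i ∈ range (⌈(n : ℝ) ^ θ⌉₊ - (2 ^ ll n ^ 3 + 1)), (1 - y * sI (PQ (2 ^ n)) b (vv n (2 ^ ll n ^ 3) i))) 0 ≤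
      Real.exp (-((1 - δ) ^ 3 * (y / Real.log 2 * (θ - δ)) * Real.log n - 1)) := by
  obtain ⟨C, C0, hC⟩ := Th_le
  have T : Tendsto ll atTop atTop := log_tendsto.comp log_tendsto
  filter_upwards [T.eventually (ev_pow 3 (show 0 < δ / 4 by positivity)),
    T.eventually (ev_pow 0 (show 0 < δ / (10 ^ 4 * (C + 1) ^ 3) by positivity)),
    T.eventually_ge_atTop 49, ev_pow 8 one_pos, eventually_ge_atTop 2,
    (tendsto_natCast_atTop_atTop (R := ℝ)).eventually_ge_atTop (4 / δ)] with n a1 a2 a3 a4 a5 a6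
  have b1 : 2 ^ 2 ^ ll n ≤ n := (Nat.pow_le_pow_right two_pos (Nat.pow_log_le_self 2
    (Nat.log_pos one_lt_two a5).ne')).trans (Nat.pow_log_le_self 2 (by omega))
  have b2 : n ≤ 2 ^ 2 ^ (ll n + 1) := (Nat.lt_pow_succ_log_self one_lt_two n).le.trans
    (Nat.pow_le_pow_right two_pos (Nat.lt_pow_succ_log_self one_lt_two _))
  generalize ll n = l at *
  have l2 := Real.log_two_gt_d9
  have l3 := Real.log_two_lt_d9
  have e1 : 48 * l + 4 ≤ l ^ 2 := by nlinarith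
  have e2 : (2 : ℝ) ^ l ^ 3 = (2 ^ l) ^ l ^ 2 := by rw [← pow_mul, ← pow_succ']
  have c1 : n ≤ 2 ^ 2 ^ l ^ 3 := b2.trans (Nat.pow_le_pow_right two_pos
    (Nat.pow_le_pow_right two_pos (by nlinarith)))
  have c2 : 2 ≤ 2 ^ l ^ 3 := Nat.le_self_pow (by positivity) 2
  have n0 : (0 : ℝ) < n := by positivity
  have n2 : (2 : ℝ) ≤ n := by exact_mod_cast a5
  have g1 := Real.log_le_log (by positivity) ((Nat.cast_le (α := ℝ)).mpr b1)
  have g2 := Real.log_le_log n0 ((Nat.cast_le (α := ℝ)).mpr b2)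
  have g3 := Real.log_le_log (by positivity) ((Nat.cast_le (α := ℝ)).mpr
    (show 2 ^ l ^ 3 + 2 ≤ (2 ^ l ^ 3) ^ 2 by nlinarith))
  have g4 := hC (n ^ 8) (a5.trans (Nat.le_self_pow (by norm_num) n))
  have g5 := hC (((2 ^ l) ^ 4) ^ 2) (by
    rw [← pow_mul, ← pow_mul]; exact Nat.le_self_pow (by omega) 2)
  have g6 := Real.log_le_log (by positivity) (Nat.le_ceil ((n : ℝ) ^ θ))
  have g7 : (l : ℝ) ≤ 2 ^ l := by exact_mod_cast (Nat.lt_two_pow_self).le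
  rw [Real.log_rpow n0] at g6
  simp only [Nat.cast_pow, Real.log_pow, Nat.cast_ofNat] at g1 g2 g3 g4 g5
  rw [pow_zero, div_mul_eq_mul_div, le_div_iff₀ (by positivity), one_mul] at a2
  have ln := Real.log_pos (one_lt_two.trans_le n2)
  have k7 : ∀ r ≤ 48 * l + 4, ((2 : ℝ) ^ l) ^ r ≤ 2 ^ l ^ 3 := fun r h =>
    e2 ▸ pow_le_pow_right₀ (one_le_pow₀ one_le_two) (h.trans e1)
  have P0 : (1 : ℝ) ≤ 2 ^ l := one_le_pow₀ one_le_two
  replace g2 : Real.log n ≤ 2 * 2 ^ l := by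
    rw [pow_succ'] at g2
    exact g2.trans (mul_le_of_le_one_right (by positivity) (by linarith))
  have g8 : Real.log (2 ^ l ^ 3 + 2 : ℕ) ≤ δ * Real.log n := by
    nlinarith [mul_le_mul_of_nonneg_left g1 δ0.le, pow_nonneg (Nat.cast_nonneg (α := ℝ) l) 3,
      mul_nonneg δ0.le (zero_le_one.trans P0)]
  have g9 : Th (n ^ 8) ≤ 16 * C * 2 ^ l := by linarith [mul_le_mul_of_nonneg_left g2 C0.le]
  have g10 : Th (((2 ^ l) ^ 4) ^ 2) ≤ 8 * C * l := by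
    nlinarith [mul_nonneg C0.le (Nat.cast_nonneg (α := ℝ) l)]
  have C3 : C ^ 3 ≤ (C + 1) ^ 3 := by gcongr; linarith
  have C1 : C ≤ (C + 1) ^ 3 := by nlinarith [sq_nonneg C, pow_nonneg C0.le 3]
  have dP : δ * 2 ^ l ≤ 2 ^ l := mul_le_of_le_one_left (by positivity) (by linarith)
  refine ⟨c1, c2, (core (j := (2 ^ l) ^ 4) (m := 2 * l) (w := n ^ 8) (δ := δ) y0 y1 (by linarith)
    (by omega) ?_ (Nat.ceil_le.mpr ?_) c1 (by positivity) ?_ (a5.trans (Nat.le_self_pow (by norm_num) n))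
      (by exact_mod_cast a4.trans_eq (one_mul _)) ?_ (even_two_mul l) ?_ ?_ ?_ ?_).trans ?_⟩
  · refine (Nat.lt_add_of_pos_right two_pos).trans_le ((Nat.cast_le (α := ℝ)).mp
      ((Real.log_le_log_iff (by positivity) ?_).mp (by linarith [mul_le_mul_of_nonneg_right hδ.le ln.le])))
    exact (Real.rpow_pos_of_pos n0 θ).trans_le (Nat.le_ceil _)
  · exact (Real.rpow_le_rpow_of_exponent_le (by linarith) θ1).trans_eq (Real.rpow_one _)
  · rw [← pow_mul]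
    exact Nat.pow_le_pow_left (Nat.lt_two_pow_self.le.trans b1) _
  · push_cast
    linarith [mul_le_mul_of_nonneg_right (show 32 * C ≤ 2 ^ l by linarith) (zero_le_one.trans P0),
      mul_le_mul (k7 2 (by omega)) (show 1 / 2 ≤ Real.log 2 by linarith) (by norm_num) (by positivity)]
  · have d1 : (1 + Real.log n) / ((2 ^ l) ^ 4 : ℕ) ≤ 3 / (2 ^ l) ^ 3 := by
      rw [div_le_div_iff₀ (by positivity) (by positivity)]
      push_cast
      rw [pow_succ' _ 3, ← mul_assoc]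
      gcongr
      linarith
    have d2 : (((2 ^ l) ^ 4 : ℕ) : ℝ) / (2 ^ l ^ 3 : ℕ) ≤ 1 / (2 ^ l) ^ 3 := by
      rw [div_le_div_iff₀ (by positivity) (by positivity), one_mul]
      push_cast
      rw [← pow_add]
      exact k7 7 (by omega)
    have d3 : 1 + Real.log (n ^ 8 : ℕ) ≤ 17 * 2 ^ l := by
      rw [Nat.cast_pow, Real.log_pow]; push_cast; linarith
    refine (mul_le_mul (mul_le_mul (mul_le_mul_of_nonneg_left g9 (by norm_num)) (add_le_add d1 d2)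
      (by positivity) (by positivity)) d3 (by positivity) (by positivity)).trans ?_
    rw [← add_div, ← mul_div_assoc, div_mul_eq_mul_div, div_le_iff₀ (by positivity)]
    linarith [mul_le_mul_of_nonneg_right (show 8704 * C ≤ δ * 2 ^ l by linarith) (sq_nonneg ((2 : ℝ) ^ l))]
  · rw [div_le_iff₀ δ0] at a6
    push_cast
    have d1 := pow_le_pow_right₀ (show (1 : ℝ) ≤ n by linarith) (show 4 ≤ 8 by norm_num)
    linarith [mul_le_mul_of_nonneg_left d1 δ0.le, mul_le_mul_of_nonneg_right a6 (pow_nonneg n0.le 3),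
      mul_le_mul_of_nonneg_left (show (1 : ℝ) ≤ n by linarith) (sq_nonneg (n : ℝ))]
  · refine (mul_le_mul_of_nonneg_left (pow_le_pow_left₀ (Th_pos _).le g10 3) (by positivity)).trans ?_
    rw [one_div, inv_pow, inv_mul_le_iff₀ (by positivity), pow_mul', mul_pow]
    linarith [mul_le_mul (show (8 * C) ^ 3 ≤ δ * 2 ^ l by linarith [pow_pos C0 3])
      (show (l : ℝ) ^ 3 ≤ 2 ^ l by linarith) (by positivity) (by positivity)]
  · refine (mul_le_mul (mul_le_mul_of_nonneg_left g9 zero_le_two) (mul_le_mul_of_nonneg_left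
      (pow_le_pow_left₀ (Th_pos _).le (g10.trans (mul_le_mul_of_nonneg_left g7 (by positivity))) 2)
        (by positivity)) (mul_nonneg (by positivity) (sq_nonneg _)) (by positivity)).trans ?_
    push_cast
    refine le_trans ?_ (k7 _ le_rfl)
    rw [← pow_mul, ← pow_mul, show 4 * (2 * (3 * (2 * l))) = 48 * l by ring, pow_add]
    linarith [mul_le_mul_of_nonneg_right (show 2048 * C ^ 3 ≤ 2 ^ l by linarith [pow_pos C0 3])
      (show 0 ≤ ((2 : ℝ) ^ l) ^ (48 * l) * (2 ^ l) ^ 3 by positivity)]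
  · rw [mul_assoc, mul_assoc]
    have : 0 ≤ 1 - δ := by linarith
    gcongr
    linarith

lemma prod_ge {n M k : ℕ} {y : ℝ} (y0 : 0 ≤ y) (y1 : y ≤ 1) (h : n ≤ 2 ^ k) (hk : 2 ≤ k) (hM : M ≤ n)
    (a : Om) : (1 - y) ^ {x | 0 < x ∧ x < M ∧ Sifted a (2 ^ x + (n - x))}.ncard ≤
      ∏ i ∈ range (M - (k + 1)), (1 - y * sI (PQ (2 ^ n)) a (vv n k i)) := by
  classical
  refine le_trans ?_ (prod_le_prod (f := fun i => if Sifted a (vv n k i) then 1 - y else 1)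
    (fun i _ => by split_ifs <;> linarith) fun i hi => ?_)
  · rw [← prod_filter, prod_const]
    refine pow_le_pow_of_le_one (by linarith) (by linarith) ?_
    rw [← Set.ncard_coe_finset]
    refine Set.ncard_le_ncard_of_injOn (fun i => k + i + 1) (fun i hi => ?_) (fun _ _ _ _ h => ?_)
      ((Set.finite_Iio M).subset fun x hx => hx.2.1)
    · have := mem_filter.mp hi
      exact ⟨by omega, by have := mem_range.mp this.1; omega, this.2⟩
    · simp only at h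
      omega
  · split_ifs with hs
    · exact sub_le_sub_left (mul_le_of_le_one_right y0 (sI_mem _ _ _).2) _
    have h8 : 8 ≤ vv n k i :=
      (Nat.pow_le_pow_right two_pos (show 3 ≤ k + i + 1 by omega)).trans (vv_bd h i).1
    rw [sifted_iff h8 ((vv_bd h i).2.le.trans (Nat.pow_le_pow_right two_pos
      (show _ ≤ n by have := mem_range.mp hi; omega))), Surv] at hs
    push Not at hs
    obtain ⟨p, hp, h1⟩ := hs
    rw [sI, prod_eq_zero hp (by rw [kp, if_pos h1, sub_self]), mul_zero, sub_zero]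

theorem main {θ β y : ℝ} (θ1 : θ ≤ 1) (β0 : 0 ≤ β) (y0 : 0 < y) (y1 : y < 1)
    (h : 1 < θ * y / Real.log 2 + β * Real.log (1 - y)) : ∀ᵐ a ∂law, ∀ᶠ n : ℕ in atTop,
      β * Real.log n < {x : ℕ | 0 < x ∧ (x : ℝ) < (n : ℝ) ^ θ ∧ Sifted a (2 ^ x + (n - x))}.ncard := by
  have l0 : Real.log (1 - y) < 0 := Real.log_neg (by linarith) (by linarith)
  have θ0 : 0 < θ := by
    by_contra! h1
    have := div_nonpos_of_nonpos_of_nonneg (mul_nonpos_of_nonpos_of_nonneg h1 y0.le)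
      (Real.log_nonneg one_le_two)
    nlinarith
  have c : Continuous fun δ : ℝ => (1 - δ) ^ 3 * (y / Real.log 2 * (θ - δ)) + β * Real.log (1 - y) := by
    fun_prop
  obtain ⟨δ, ⟨h1, h2⟩, δ0⟩ := (((((c.tendsto 0).eventually (lt_mem_nhds (h.trans_eq (by ring)))).and
    (eventually_lt_nhds θ0)).filter_mono (nhdsWithin_le_nhds (s := Set.Ioi 0))).and
      self_mem_nhdsWithin).exists
  have E := est y0.le y1.le θ1 δ0 h2
  filter_upwards [bc (K := fun n => PQ (2 ^ n)) (f := fun n b => Real.exp (-(β * Real.log (1 - y) *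
    Real.log n)) * ∏ i ∈ range (⌈(n : ℝ) ^ θ⌉₊ - (2 ^ ll n ^ 3 + 1)),
      (1 - y * sI (PQ (2 ^ n)) b (vv n (2 ^ ll n ^ 3) i))) (fun n b => mul_nonneg (Real.exp_pos _).le
        (prod_mem fun i _ => ⟨mul_nonneg y0.le (sI_mem _ _ _).1, mul_le_one₀ y1.le (sI_mem _ _ _).1
          (sI_mem _ _ _).2⟩).1)
    ((Real.summable_nat_rpow.mpr (neg_lt_neg h1)).mul_left (Real.exp 1)) (by
      filter_upwards [E, eventually_gt_atTop 0] with n hn n0
      refine ⟨fun b b' hb => by simp only [sI_congr hb], ?_⟩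
      rw [Ex_mul]
      refine (mul_le_mul_of_nonneg_left hn.2.2 (Real.exp_pos _).le).trans_eq ?_
      rw [Real.rpow_def_of_pos (by positivity), ← Real.exp_add, ← Real.exp_add]
      congr 1
      ring)] with a ha
  filter_upwards [ha, E, eventually_ge_atTop 1] with n h3 h4 n1
  have h5 := (mul_le_mul_of_nonneg_left (prod_ge y0.le y1.le h4.1 h4.2.1 (Nat.ceil_le.mpr
    ((Real.rpow_le_rpow_of_exponent_le (by exact_mod_cast n1) θ1).trans_eq (Real.rpow_one _))) a)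
      (Real.exp_pos _).le).trans_lt h3
  simp only [Nat.lt_ceil] at h5
  rw [← Real.exp_log (pow_pos (sub_pos.mpr y1) _), ← Real.exp_add, Real.exp_lt_one_iff,
    Real.log_pow] at h5
  nlinarith

end Pool.Agent.MP_fc7299_nt

end

-- part MP_fc7299_nt.Par
section

/-!
Choice of the parameters for the second moment argument.
-/

set_option autoImplicit false

namespace Pool.Agent.MP_fc7299_nt

open Finset Function Filter Pool.Agent.MP_00acf4_nt
open scoped BigOperators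

lemma div_pow_le {p c d : ℝ} (hp : 1 ≤ p) (hc : 0 ≤ c) {a b : ℕ} (h : a + 1 ≤ b) (hd : p ^ b ≤ d) :
    c * p ^ a / d ≤ c / p := by
  have := (pow_pos (zero_lt_one.trans_le hp) b).trans_le hd
  rw [div_le_div_iff₀ this (by positivity), mul_assoc, ← pow_succ]
  exact mul_le_mul_of_nonneg_left ((pow_le_pow_right₀ hp h).trans hd) hc

lemma num {p X c A τ u : ℝ} (hp : 1 ≤ p) (hX : p ^ 2 ≤ X) (c0 : 0 ≤ c) (hc : c ≤ p ^ 4) (A0 : 0 ≤ A)
    (hA : A ≤ 4 * p ^ 5) (u0 : 0 ≤ u) (hu : u ≤ 9 * p) (τ0 : 0 ≤ τ) (hτ : τ ≤ 12 / p ^ 16) :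
    3 * (1 + c) ^ 2 * (c ^ 2 * ((2 * (p ^ 41 + 1)) ^ 2 * ((p ^ 41 + 1) / p ^ 140)) + 2 * (2 * τ) *
      (2 * A * u)) + 3 * (1 + p ^ 2) ^ 2 * ((p ^ 2) ^ 2 * ((2 * (2 * X)) ^ 2 * (2 * X / X ^ 8))) ≤
        10 ^ 5 / p ∧
    A ^ 2 / p ^ 140 * u + (1 + A) * ((p ^ 41 + 1) ^ 2 * ((p ^ 41 + 1) / p ^ 140)) + ((p ^ 2 * (2 * X)) ^ 2 /
      X ^ 8 * (1 + 2 * X) + (1 + p ^ 2 * (2 * X)) * ((2 * X) ^ 2 * (2 * X / X ^ 8))) ≤ 10 ^ 5 / p := by
  have o : ∀ n, 1 ≤ p ^ n := fun n => one_le_pow₀ hp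
  have X1 := (o 2).trans hX
  have X4 : p ^ 8 ≤ X ^ 4 := (by ring : _ = (p ^ 2) ^ 4).trans_le (pow_le_pow_left₀ (by positivity) hX 4)
  have X5 : p ^ 10 ≤ X ^ 5 := (by ring : _ = (p ^ 2) ^ 5).trans_le (pow_le_pow_left₀ (by positivity) hX 5)
  have a1 : 1 + c ≤ 2 * p ^ 4 := by linarith [o 4]
  have a2 : p ^ 41 + 1 ≤ 2 * p ^ 41 := by linarith [o 41]
  have a3 : 1 + p ^ 2 ≤ 2 * p ^ 2 := by linarith [o 2]
  have a4 : 1 + A ≤ 5 * p ^ 5 := by linarith [o 5]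
  have a5 : 1 + 2 * X ≤ 3 * X := by linarith
  have a6 : 1 + p ^ 2 * (2 * X) ≤ 3 * (p ^ 2 * X) := by nlinarith [o 2]
  constructor
  · calc _ ≤ 3 * (2 * p ^ 4) ^ 2 * ((p ^ 4) ^ 2 * ((2 * (2 * p ^ 41)) ^ 2 * ((2 * p ^ 41) / p ^ 140)) +
          2 * (2 * (12 / p ^ 16)) * (2 * (4 * p ^ 5) * (9 * p))) + 3 * (2 * p ^ 2) ^ 2 *
            ((p ^ 2) ^ 2 * ((2 * (2 * X)) ^ 2 * (2 * X / X ^ 8))) := by gcongr
      _ = 384 * p ^ 139 / p ^ 140 + 41472 * p ^ 14 / p ^ 16 + 384 * p ^ 8 / X ^ 5 := by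
        field_simp; ring
      _ ≤ 384 / p + 41472 / p + 384 / p := add_le_add (add_le_add (div_pow_le hp (by norm_num) le_rfl le_rfl)
        (div_pow_le hp (by norm_num) (by norm_num) le_rfl)) (div_pow_le hp (by norm_num) (by norm_num) X5)
      _ ≤ _ := by simp only [← add_div]; gcongr; norm_num
  · calc _ ≤ (4 * p ^ 5) ^ 2 / p ^ 140 * (9 * p) + 5 * p ^ 5 * ((2 * p ^ 41) ^ 2 * ((2 * p ^ 41) / p ^ 140)) +
          ((p ^ 2 * (2 * X)) ^ 2 / X ^ 8 * (3 * X) + 3 * (p ^ 2 * X) * ((2 * X) ^ 2 * (2 * X / X ^ 8))) :=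
          by gcongr
      _ = 144 * p ^ 11 / p ^ 140 + 40 * p ^ 128 / p ^ 140 + (12 * p ^ 4 / X ^ 5 + 24 * p ^ 2 / X ^ 4) := by
        field_simp; ring
      _ ≤ 144 / p + 40 / p + (12 / p + 24 / p) := add_le_add (add_le_add
        (div_pow_le hp (by norm_num) (by norm_num) le_rfl) (div_pow_le hp (by norm_num) (by norm_num) le_rfl))
          (add_le_add (div_pow_le hp (by norm_num) (by norm_num) X5)
            (div_pow_le hp (by norm_num) (by norm_num) X4))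
      _ ≤ _ := by simp only [← add_div]; gcongr; norm_num

/-- The scale is large. -/
structure Big (C δ : ℝ) (l P : ℕ) : Prop where
  hP : P = 2 ^ l
  C0 : 0 < C
  hC : ∀ z : ℕ, 2 ≤ z → Th z ≤ C * Real.log z
  δ0 : 0 < δ
  δ1 : δ ≤ 1 / 2
  a1 : (l : ℝ) ^ 4 * (10 ^ 4 * (C + 1)) ≤ δ * P
  a2 : 10 ^ 9 * (C + 1) ^ 3 ≤ δ * P
  a3 : 1000 ≤ l
  a4 : P ^ 140 ≤ 2 ^ P

namespace Big

variable {C δ θ : ℝ} {l P n : ℕ} (h : Big C δ l P)
include h

lemma lt : l < P := h.hP ▸ Nat.lt_two_pow_self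

lemma p1 : (1 : ℝ) ≤ P := by exact_mod_cast Nat.zero_lt_of_lt h.lt

lemma l1 : (1 : ℝ) ≤ l := by exact_mod_cast le_trans (by norm_num) h.a3

lemma pw {r s : ℕ} (hr : r ≤ s) : P ^ r ≤ P ^ s := Nat.pow_le_pow_right (Nat.zero_lt_of_lt h.lt) hr

lemma P2 : P + 1 ≤ P ^ 2 := by nlinarith [h.lt, h.a3]

lemma z2 : 2 ≤ P ^ 140 := le_trans (by have := h.lt; omega) (h.P2.trans (h.pw (by norm_num)))

lemma N0 {r : ℕ} (hr : 2 ≤ r) : 2 * 2 ^ P ≤ 2 ^ P ^ r := by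
  rw [← pow_succ']; exact Nat.pow_le_pow_right two_pos (h.P2.trans (h.pw hr))

lemma zw : P ^ 140 ≤ (2 ^ P) ^ 8 := h.a4.trans (Nat.le_self_pow (by norm_num) _)

lemma wR : (2 ^ P) ^ 8 ≤ 2 ^ (2 * 2 ^ P) := by
  rw [← pow_mul]
  exact Nat.pow_le_pow_right two_pos
    (by nlinarith [(h.pw (show 2 ≤ 140 by norm_num)).trans h.a4, h.lt, h.a3])

lemma dP : δ * P ≤ P := mul_le_of_le_one_left (by positivity) (by linarith [h.δ1])

lemma cb : 10 ^ 9 ≤ δ * P ∧ 10 ^ 9 * C ≤ δ * P ∧ 10 ^ 9 * C ^ 3 ≤ δ * P := by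
  have := h.C0
  have h1 : C ^ 3 ≤ (C + 1) ^ 3 := by gcongr; linarith
  have h2 : C + 1 ≤ (C + 1) ^ 3 := le_self_pow₀ (by linarith) (by norm_num)
  exact ⟨by linarith [h.a2], by linarith [h.a2], by linarith [h.a2]⟩

lemma lb {r : ℕ} (hr : r ≤ 4) : 10 ^ 4 * (l : ℝ) ^ r ≤ δ * P ∧ 10 ^ 4 * (C * (l : ℝ) ^ r) ≤ δ * P := by
  have h1 := pow_le_pow_right₀ h.l1 hr
  have h2 := mul_le_mul_of_nonneg_left h1 h.C0.le
  have h3 : 0 ≤ C * (l : ℝ) ^ r := by have := h.C0; positivity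
  have h4 : 0 ≤ (l : ℝ) ^ r := by positivity
  exact ⟨by linarith [h.a1], by linarith [h.a1]⟩

lemma g1 : Th (P ^ 140) ≤ 140 * C * l := by
  have := h.hC _ h.z2
  rw [Nat.cast_pow, Real.log_pow, h.hP, Nat.cast_pow, Real.log_pow, ← h.hP] at this
  push_cast at this
  linarith [mul_le_of_le_one_right (mul_nonneg h.C0.le (Nat.cast_nonneg (α := ℝ) l))
    (show Real.log 2 ≤ 1 by linarith [Real.log_two_lt_d9])]

omit h in
lemma lw : Real.log ((2 ^ P) ^ 8 : ℕ) ≤ 8 * P := by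
  rw [Nat.cast_pow, Real.log_pow, Nat.cast_pow, Real.log_pow]
  push_cast
  linarith [mul_le_of_le_one_right (Nat.cast_nonneg (α := ℝ) P)
    (show Real.log 2 ≤ 1 by linarith [Real.log_two_lt_d9])]

lemma g2 : Th ((2 ^ P) ^ 8) ≤ 8 * C * P := by
  linarith [h.hC _ (h.z2.trans h.zw), mul_le_mul_of_nonneg_left (lw (P := P)) h.C0.le]

lemma hf {c : ℝ} (hc : 0 ≤ c) : c * P ≤ 2 * (c * (P * Real.log 2)) := by
  linarith [mul_le_mul_of_nonneg_left (show 1 / 2 ≤ Real.log 2 by linarith [Real.log_two_gt_d9])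
    (mul_nonneg hc (Nat.cast_nonneg (α := ℝ) P))]

lemma g3 : 2 * Th (P ^ 140) ≤ δ * (P * Real.log 2) := by
  linarith [h.g1, (h.lb (r := 1) (by norm_num)).2, h.hf h.δ0.le, mul_pos h.δ0 (zero_lt_one.trans_le h.p1)]

lemma lR : 1 + Real.log (2 * 2 ^ P : ℕ) ≤ 2 * P := by
  rw [← pow_succ', Nat.cast_pow, Real.log_pow]
  push_cast
  nlinarith [show (1000 : ℝ) ≤ P by exact_mod_cast h.a3.trans h.lt.le, Real.log_two_lt_d9]

lemma mF (θ1 : θ ≤ 1) (hn : n ∈ Ico (2 ^ P) (2 * 2 ^ P)) : 3 ≤ n ∧ P * Real.log 2 ≤ Real.log n ∧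
    ⌈(n : ℝ) ^ θ⌉₊ ≤ n ∧ n ≤ 2 * 2 ^ P := by
  obtain ⟨h1, h2⟩ := mem_Ico.mp hn
  have := Nat.lt_two_pow_self (n := P)
  have := h.lt
  have := h.a3
  have h3 := Real.log_le_log (by positivity) ((Nat.cast_le (α := ℝ)).mpr h1)
  rw [Nat.cast_pow, Real.log_pow, Nat.cast_ofNat] at h3
  refine ⟨by omega, h3, Nat.ceil_le.mpr
    ((Real.rpow_le_rpow_of_exponent_le ?_ θ1).trans_eq (Real.rpow_one _)), h2.le⟩
  exact_mod_cast (show 1 ≤ n by omega)

theorem lamF (θ1 : θ ≤ 1) (hδ : δ < θ) (hn : n ∈ Ico (2 ^ P) (2 * 2 ^ P)) (a : Om) :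
    ((1 - δ) * (θ - δ) - δ) * P ≤ ∑ t ∈ SS n ⌈(n : ℝ) ^ θ⌉₊,
      sI (PQ (P ^ 140)) a t * pv (PQ (2 ^ (2 * 2 ^ P)) \ PQ (P ^ 140)) t ∧ ∑ t ∈ SS n ⌈(n : ℝ) ^ θ⌉₊,
      sI (PQ (P ^ 140)) a t * pv (PQ (2 ^ (2 * 2 ^ P)) \ PQ (P ^ 140)) t ≤ ((1 + δ) ^ 2 * θ + 2 * δ) * P := by
  obtain ⟨h1, h2, h3, h4⟩ := h.mF θ1 hn
  have l2 := Real.log_two_gt_d9
  have l3 := Real.log_two_lt_d9
  have δ0 := h.δ0
  have δ1 := h.δ1
  have C0 := h.C0
  have p1 := h.p1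
  have dP := h.dP
  obtain ⟨c1, -, c3⟩ := h.cb
  have e1 : 840 * l + 424 ≤ l ^ 2 := by nlinarith [h.a3]
  have e2 : 2 ^ l ^ 3 = P ^ l ^ 2 := by rw [h.hP, ← pow_mul, ← pow_succ']
  have lk : Real.log (2 ^ l ^ 3 : ℕ) ≤ l ^ 3 := by
    rw [Nat.cast_pow, Real.log_pow, Nat.cast_ofNat, Nat.cast_pow]
    exact mul_le_of_le_one_right (by positivity) (by linarith)
  have k2 : 2 ≤ 2 ^ l ^ 3 := Nat.le_self_pow (pow_ne_zero _ (by have := h.a3; omega)) 2
  generalize 2 ^ l ^ 3 = k at e2 lk k2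
  have n0 : (0 : ℝ) < n := by positivity
  have m0 := (Real.rpow_pos_of_pos n0 θ).trans_le (Nat.le_ceil _)
  have d1 := Real.log_le_log (Real.rpow_pos_of_pos n0 θ) (Nat.le_ceil _)
  have l4 := (h.lb (r := 3) (by norm_num)).1
  have d2 : Real.log (k + 2 : ℕ) ≤ δ * (P * Real.log 2) := by
    have := Real.log_le_log (by positivity) ((Nat.cast_le (α := ℝ)).mpr
      (show k + 2 ≤ k ^ 2 by nlinarith))
    rw [Nat.cast_pow, Real.log_pow, Nat.cast_ofNat] at this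
    linarith [h.hf δ0.le]
  have d3 : Real.log ⌈(n : ℝ) ^ θ⌉₊ ≤ Real.log 2 + θ * ((P + 1) * Real.log 2) := by
    have h5 := Real.one_le_rpow (show (1 : ℝ) ≤ n by exact_mod_cast (show 1 ≤ n by omega))
      (δ0.trans hδ).le
    have h6 := Real.log_le_log n0 ((Nat.cast_le (α := ℝ)).mpr h4)
    rw [← pow_succ', Nat.cast_pow, Real.log_pow, Nat.cast_ofNat, Nat.cast_succ] at h6
    refine (Real.log_le_log m0 (show _ ≤ 2 * (n : ℝ) ^ θ by
      linarith [Nat.ceil_lt_add_one (zero_le_one.trans h5)])).trans ?_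
    rw [Real.log_mul two_ne_zero (by positivity), Real.log_rpow n0]
    linarith [mul_le_mul_of_nonneg_left h6 (δ0.trans hδ).le]
  rw [Real.log_rpow n0] at d1
  have d4 := mul_le_mul_of_nonneg_left h2 (δ0.trans hδ).le
  have d5 := mul_le_mul_of_nonneg_right hδ.le (show 0 ≤ P * Real.log 2 by positivity)
  have T0 := Th_pos (P ^ 140)
  have d6 : 4 * Th (P ^ 140) * (((P ^ 140 : ℕ) : ℝ) ^ (3 * (2 * l + 1)) * Th (P ^ 140) ^ 2) ≤ k := by
    have h6 := h.g1.trans (mul_le_mul_of_nonneg_left ((Nat.cast_le (α := ℝ)).mpr h.lt.le) (by positivity))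
    calc _ ≤ 4 * (140 * C * P) * (((P ^ 140 : ℕ) : ℝ) ^ (3 * (2 * l + 1)) * (140 * C * P) ^ 2) := by
          gcongr
      _ = 10976000 * C ^ 3 * P ^ (840 * l + 423) := by push_cast; ring
      _ ≤ P * P ^ (840 * l + 423) := by gcongr; linarith
      _ ≤ _ := by rw [← pow_succ', e2, Nat.cast_pow]; exact pow_le_pow_right₀ p1 e1
  have d7 : (1 / 2) ^ (2 * l) * Th (P ^ 140) ^ 3 ≤ δ := by
    refine (mul_le_mul_of_nonneg_left (pow_le_pow_left₀ T0.le h.g1 3) (by positivity)).trans ?_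
    rw [one_div, inv_pow, inv_mul_le_iff₀ (by positivity), pow_mul', mul_pow,
      show (2 : ℝ) ^ l = P by simp [h.hP]]
    linarith [mul_le_mul (show (140 * C) ^ 3 ≤ δ * P by linarith)
      (show (l : ℝ) ^ 3 ≤ P by linarith) (by positivity) (by positivity)]
  have d8 : Th (P ^ 140) ≤ Real.log n := by
    linarith [h.g3, mul_le_of_le_one_left (show 0 ≤ P * Real.log 2 by positivity) (show δ ≤ 1 by linarith)]
  obtain ⟨f1, f2⟩ := lam (by linarith) h1 (by omega) (zero_lt_two.trans_le h.z2)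
    ((Nat.lt_add_of_pos_right two_pos).trans_le ((Nat.cast_le (α := ℝ)).mp
      ((Real.log_le_log_iff (by positivity) m0).mp (by linarith)))) h3 h4
        (h4.trans (e2 ▸ h.N0 (by omega))) (h.zw.trans h.wR) d8 (even_two_mul l) d7 d6 a
  refine ⟨le_trans ?_ f1, f2.trans ?_⟩
  · have : (θ - δ) * P ≤ (Real.log ⌈(n : ℝ) ^ θ⌉₊ - Real.log (k + 2 : ℕ)) / Real.log 2 := by
      rw [le_div_iff₀ (by linarith)]; linarith
    linarith [mul_le_mul_of_nonneg_left this (show 0 ≤ 1 - δ by linarith)]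
  · have f3 : 1 / ((P ^ 140 : ℕ) : ℝ) ≤ δ := by
      rw [Nat.cast_pow, div_le_iff₀ (by positivity)]
      linarith [mul_le_mul_of_nonneg_left (le_self_pow₀ p1 (show 140 ≠ 0 by norm_num)) δ0.le]
    have f4 : (1 + Real.log ⌈(n : ℝ) ^ θ⌉₊) / Real.log 2 ≤ θ * P + 4 := by
      rw [div_le_iff₀ (by linarith)]
      linarith [mul_le_mul_of_nonneg_right θ1 (Real.log_nonneg one_le_two)]
    have f5 := mul_le_mul_of_nonneg_left (mul_le_mul (add_le_add_right f3 1) f4 (by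
      have := Real.log_natCast_nonneg ⌈(n : ℝ) ^ θ⌉₊; positivity) (by positivity))
        (show 0 ≤ 1 + δ by linarith)
    have f6 := mul_le_mul h.g1 (show 1 + Real.log k ≤ 2 * l ^ 3 by linarith [one_le_pow₀ (n := 3) h.l1])
      (by have := Real.log_natCast_nonneg k; positivity) (by positivity)
    rw [mul_div_assoc]
    linarith [(h.lb le_rfl).2, mul_le_mul_of_nonneg_left δ1 δ0.le]

end Big

end Pool.Agent.MP_fc7299_nt

end

-- part MP_fc7299_nt.Conv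
section

/-!
Almost surely there are infinitely many `n` with few representations.
-/

set_option autoImplicit false

namespace Pool.Agent.MP_fc7299_nt

open Finset Function Filter MeasureTheory Pool.Agent.MP_00acf4_nt
open scoped BigOperators

open Classical in
/-- The indicator that all `n` in a dyadic block have at least `b` representations. -/
noncomputable def fI (θ : ℝ) (P b : ℕ) (a : Om) : ℝ := if ∀ n ∈ Ico (2 ^ P) (2 * 2 ^ P),
  b ≤ #(sur (PQ (2 ^ (2 * 2 ^ P))) a (SS n ⌈(n : ℝ) ^ θ⌉₊)) then 1 else 0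

theorem Big.est {C δ θ y y' y'' q1 q2 : ℝ} {l P b0 b1 : ℕ} (h : Big C δ l P) (θ1 : θ ≤ 1) (hδ : δ < θ)
    (y0 : 0 ≤ y') (y1 : y' ≤ y) (y2 : y ≤ y'') (y3 : y'' ≤ 1 - 1 / P ^ 2) (q0 : 0 ≤ q1) (q0' : 0 ≤ q2)
    (t1 : ∀ m, b1 ≤ m → (1 - y) ^ m ≤ q1 * (1 - y') ^ m) (t2 : ∀ m < b0, (1 - y) ^ m ≤ q2 * (1 - y'') ^ m)
    (t3 : q1 * Real.exp ((1 + 2 * δ) * (y - y') * (((1 + δ) ^ 2 * θ + 2 * δ) * P)) ≤ 10 ^ 5 / P)
    (t4 : q2 * Real.exp (-((y'' - y) * (((1 - δ) * (θ - δ) - δ) * P))) ≤ 10 ^ 5 / P)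
    (t5 : (P + 2) ^ 2 * (1 - y) ^ b0 ≤ 10 ^ 5 / P * (2 ^ P *
      Real.exp (-((1 + 2 * δ) * y * (((1 + δ) ^ 2 * θ + 2 * δ) * P))))) :
    Ex (PQ (2 ^ (2 * 2 ^ P))) (fI θ P b1) 0 ≤ 21 * (10 ^ 5 / P) := by
  have p1 := h.p1
  have P0 := Nat.zero_lt_of_lt h.lt
  have dP := h.dP
  obtain ⟨c2, c3, -⟩ := h.cb
  have sz : PQ (P ^ 140) ⊆ PQ ((2 ^ P) ^ 8) := fun p hp => mem_PQ.mpr ((mem_PQ.mp hp).trans h.zw)
  have sw : PQ ((2 ^ P) ^ 8) ⊆ PQ (2 ^ (2 * 2 ^ P)) :=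
    fun p hp => mem_PQ.mpr ((mem_PQ.mp hp).trans h.wR)
  have hBC : PQ ((2 ^ P) ^ 8) \ PQ (P ^ 140) ∪ PQ (2 ^ (2 * 2 ^ P)) \ PQ ((2 ^ P) ^ 8) =
      PQ (2 ^ (2 * 2 ^ P)) \ PQ (P ^ 140) := by rw [union_comm, sdiff_union_sdiff_cancel sw sz]
  have T0 := Th_pos ((2 ^ P) ^ 8)
  obtain ⟨c, hc⟩ : ∃ c, c = (P : ℝ) ^ 2 * (Th ((2 ^ P) ^ 8) * 2) := ⟨_, rfl⟩
  have c0 : 0 ≤ c := by rw [hc]; positivity
  have c1 : c ≤ P ^ 4 := by
    rw [hc, show (P : ℝ) ^ 4 = P ^ 2 * (P * P) by ring]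
    refine mul_le_mul_of_nonneg_left ?_ (sq_nonneg _)
    linarith [mul_le_mul_of_nonneg_right (show 16 * C ≤ P by linarith [h.C0]) (zero_le_one.trans p1), h.g2]
  have lR0 := Real.log_natCast_nonneg (2 * 2 ^ P)
  have A1 : 2 * c * (1 + Real.log (2 * 2 ^ P : ℕ)) ≤ 4 * P ^ 5 :=
    (mul_le_mul (mul_le_mul_of_nonneg_left c1 zero_le_two) h.lR (by positivity) (by positivity)).trans_eq
      (by ring)
  have τ1 : 2 / (P ^ 21 : ℕ) * (2 * c * (1 + Real.log (2 * 2 ^ P : ℕ))) + 2 * (P ^ 21 : ℕ) *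
      (2 * c * ((P ^ 41 + 0 + 1 : ℕ) : ℝ)⁻¹) ≤ 12 / P ^ 16 := by
    have : ((P ^ 41 + 0 + 1 : ℕ) : ℝ)⁻¹ ≤ ((P : ℝ) ^ 41)⁻¹ :=
      inv_anti₀ (by positivity) (by exact_mod_cast Nat.le_succ _)
    refine (add_le_add (mul_le_mul_of_nonneg_left A1 (by positivity)) (mul_le_mul_of_nonneg_left
      (mul_le_mul (mul_le_mul_of_nonneg_left c1 zero_le_two) this (by positivity) (by positivity))
        (by positivity))).trans_eq ?_
    push_cast
    field_simp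
    ring
  obtain ⟨n1, n2⟩ := num (X := (2 : ℝ) ^ P) p1 (by exact_mod_cast (h.pw (by norm_num)).trans h.a4) c0 c1
    (by positivity) A1 (add_nonneg zero_le_one (Real.log_natCast_nonneg ((2 ^ P) ^ 8)))
      (by linarith [Big.lw (P := P)]) (by positivity) τ1
  have ε1 : (10 : ℝ) ^ 5 / P ≤ 1 := by rw [div_le_one (by positivity)]; linarith
  have hf : ∀ b, fI θ P b1 b = 0 ∨ fI θ P b1 b = 1 ∧ ∀ n ∈ Ico (2 ^ P) (2 * 2 ^ P),
      b1 ≤ #(sur (PQ (2 ^ (2 * 2 ^ P))) b (SS n ⌈(n : ℝ) ^ θ⌉₊)) := fun b =>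
    (em _).elim (fun h => Or.inr ⟨if_pos h, h⟩) fun h => Or.inl (if_neg h)
  rw [← union_sdiff_of_subset (sz.trans sw), ← hBC] at hf
  rw [← union_sdiff_of_subset (sz.trans sw), Ex_union disjoint_sdiff, ← hBC]
  have hN := fun n hn => nice (j := P ^ 21) (z := P ^ 140) c0 (h.mF (n := n) θ1 hn).1
    (h.mF θ1 hn).2.2.1 (h.mF θ1 hn).2.2.2 ((h.mF θ1 hn).2.2.2.trans (h.N0 (r := 41) (by norm_num)))
      (Nat.pow_pos P0) (by rw [← pow_mul]; exact h.pw (by norm_num))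
  have hΛ := fun a n hn => h.lamF (n := n) θ1 hδ hn a
  have hd : Disjoint (PQ (P ^ 140)) (PQ (2 ^ (2 * 2 ^ P)) \ PQ (P ^ 140)) := disjoint_sdiff
  rw [← hBC] at hΛ hd
  refine Ex_le fun a _ => cond (L := P ^ 2) (η := δ) (D := (P + 2) * (P + 2)) (w := (2 ^ P) ^ 8) hd
    (nonempty_Ico.mpr (by have := Nat.two_pow_pos P; omega)) hN
    (fun t => div_nonneg c0 (Real.log_natCast_nonneg t)) h.z2 (h.z2.trans h.zw) (sq_nonneg _) c0
    (by positivity) (by positivity) ?_ (fun p hp => ?_) (fun p hp => ?_) (fun n hn t ht => ?_) h.δ0.le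
    h.δ1 y0 y1 y2 (y3.trans_lt (sub_lt_self _ (by positivity))) ?_ ?_ ?_ ε1
    (fun n hn => bad_pairs (fun n => ⌈(n : ℝ) ^ θ⌉₊) (fun n hn => (h.mF θ1 hn).2.2.1) hn)
    (hΛ a) q0 q0' t1 t2 t3 t4 ?_ hf
  · refine (mul_le_mul_of_nonneg_left τ1 zero_le_two).trans ?_
    rw [← mul_div_assoc, div_le_one (by positivity)]
    linarith [le_self_pow₀ p1 (show 16 ≠ 0 by norm_num)]
  · simpa only [Finset.mem_sdiff, mem_PQ, not_le, and_comm] using hp
  · simpa only [Finset.mem_sdiff, mem_PQ, not_le, and_comm] using hp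
  · obtain ⟨h1, h2, h3, h4⟩ := h.mF θ1 hn
    obtain ⟨h5, h6⟩ := mem_SS h3 ht
    have h7 := h6.trans (Nat.pow_le_pow_right two_pos h4)
    have h8 := h2.trans (Real.log_le_log (by positivity) ((Nat.cast_le (α := ℝ)).mpr h5))
    refine ⟨?_, ?_⟩
    · rw [hc, mul_div_assoc, mul_div_assoc]
      exact mul_le_mul_of_nonneg_left ((pv_le (h1.trans h5) h7 h.wR).trans
        (mul_le_mul_of_nonneg_left (V_le (h1.trans h5)) T0.le)) (by positivity)
    · rw [hBC]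
      refine (pv_le (h1.trans h5) h7 (h.zw.trans h.wR)).trans ((mul_le_mul_of_nonneg_left
        (V_le (h1.trans h5)) (Th_pos _).le).trans ?_)
      rw [← mul_div_assoc, div_le_iff₀ (zero_lt_one.trans_le (one_le_log (h1.trans h5)))]
      linarith [mul_le_mul_of_nonneg_left h8 h.δ0.le, h.g3]
  · have := mul_le_mul_of_nonneg_left (le_sub_comm.mp y3) (sq_nonneg (P : ℝ))
    rw [mul_one_div_cancel (by positivity)] at this
    linarith [y3.trans (sub_le_self _ (by positivity))]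
  · push_cast at n1 ⊢
    exact n1
  · push_cast at n2 ⊢
    exact n2
  · rw [Nat.card_Ico, show 2 * 2 ^ P - 2 ^ P = 2 ^ P by omega]
    push_cast
    rwa [← sq]

lemma ev_big {δ : ℝ} (δ0 : 0 < δ) (δ1 : δ ≤ 1 / 2) : ∃ C, ∀ᶠ l in atTop, Big C δ l (2 ^ l) := by
  obtain ⟨C, C0, hC⟩ := Th_le
  refine ⟨C, ?_⟩
  filter_upwards [ev_pow 4 (show 0 < δ / (10 ^ 4 * (C + 1)) by positivity),
    ev_pow 0 (show 0 < δ / (10 ^ 9 * (C + 1) ^ 3) by positivity), eventually_ge_atTop 1000,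
    two_pow_tendsto.eventually (ev_pow 140 one_pos)] with l a1 a2 a3 a4
  rw [pow_zero, div_mul_eq_mul_div, le_div_iff₀ (by positivity), one_mul] at a2
  rw [div_mul_eq_mul_div, le_div_iff₀ (by positivity)] at a1
  exact ⟨rfl, C0, hC, δ0, δ1, by exact_mod_cast a1, by exact_mod_cast a2, a3,
    by exact_mod_cast a4.trans_eq (one_mul _)⟩

lemma ev_exp {γ : ℝ} (h : 0 < γ) : ∀ᶠ P : ℕ in atTop, ((P : ℝ) + 2) ^ 2 * P ≤ Real.exp (γ * P) := by
  filter_upwards [(tendsto_pow_const_div_const_pow_of_one_lt 3 (Real.one_lt_exp_iff.mpr h)).eventually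
    (ge_mem_nhds (show (0 : ℝ) < 1 / 4 by norm_num)), eventually_ge_atTop 2] with P h1 h2
  rw [div_le_iff₀ (by positivity), ← Real.exp_nat_mul, mul_comm _ γ] at h1
  have : (2 : ℝ) ≤ P := by exact_mod_cast h2
  nlinarith [mul_le_mul_of_nonneg_right (pow_le_pow_left₀ (by positivity) (show (P : ℝ) + 2 ≤ 2 * P by
    linarith) 2) (zero_le_two.trans this)]

lemma fI_dep (θ : ℝ) (P b1 : ℕ) : DependsOn (fI θ P b1) (PQ (2 ^ (2 * 2 ^ P))) := fun b b' hb => by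
  classical
  have : ∀ S, sur (PQ (2 ^ (2 * 2 ^ P))) b S = sur (PQ (2 ^ (2 * 2 ^ P))) b' S := fun S =>
    filter_congr fun t _ => forall₂_congr fun p hp => by rw [hb p hp]
  simp only [fI, this]
  congr

theorem freq {θ β : ℝ} (θ1 : θ ≤ 1) (β0 : 0 ≤ β) (h : ∀ᶠ l : ℕ in atTop, Ex (PQ (2 ^ (2 * 2 ^ 2 ^ l)))
    (fI θ (2 ^ l) (⌊β * Real.log 2 * (2 ^ l : ℕ)⌋₊ + 1)) 0 ≤ 21 * (10 ^ 5 / (2 ^ l : ℕ))) :
    ∀ᵐ a ∂law, ∃ᶠ n : ℕ in atTop, ({x : ℕ | 0 < x ∧ (x : ℝ) < (n : ℝ) ^ θ ∧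
      Sifted a (2 ^ x + (n - x))}.ncard : ℝ) ≤ β * Real.log n := by
  classical
  filter_upwards [bc (fun l b => by unfold fI; split_ifs <;> norm_num) (ε := fun l : ℕ =>
    21 * (10 ^ 5 / (2 ^ l : ℕ))) (((summable_geometric_two.mul_left (10 ^ 5)).congr fun l => by
      simp [div_eq_mul_inv]).mul_left 21) (h.mono fun l hl => ⟨fI_dep _ _ _, hl⟩)] with a ha
  rw [frequently_atTop]
  intro n₀
  obtain ⟨l, h1, h2⟩ := (ha.and (eventually_ge_atTop n₀)).exists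
  rw [fI] at h1
  split_ifs at h1 with h3
  · exact absurd h1 (lt_irrefl _)
  push Not at h3
  obtain ⟨n, hn, h3⟩ := h3
  have h4 := (mem_Ico.mp hn).1
  refine ⟨n, h2.trans (Nat.lt_two_pow_self.le.trans (Nat.lt_two_pow_self.le.trans h4)), ?_⟩
  have h5 := Real.log_le_log (by positivity) ((Nat.cast_le (α := ℝ)).mpr h4)
  rw [Nat.cast_pow, Real.log_pow, Nat.cast_ofNat] at h5
  have l0 := Real.log_nonneg one_le_two
  refine le_trans ?_ (((Nat.le_floor_iff (by positivity)).mp (Nat.lt_succ_iff.mp h3)).trans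
    (by linarith [mul_le_mul_of_nonneg_left h5 β0]))
  rw [Nat.cast_le, ← Set.ncard_coe_finset]
  refine Set.ncard_le_ncard_of_injOn (fun x => vv n 0 (x - 1)) (fun x hx => ?_) fun x hx x' hx' h => ?_
  · refine mem_filter.mpr ⟨mem_image_of_mem _ (mem_range.mpr ?_), ?_⟩
    · have := Nat.lt_ceil.mpr hx.2.1
      have := hx.1
      omega
    · rw [vv, zero_add, Nat.sub_add_cancel hx.1]
      exact fun p _ => hx.2.2.2 p
  · have := (vv_mono n 0).injective h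
    have := hx.1
    have := hx'.1
    omega

theorem conv {θ β : ℝ} (θ0 : 0 < θ) (θ1 : θ ≤ 1) (β0 : 0 ≤ β) (h1 : β * Real.log 2 < θ)
    (h2 : θ - β * Real.log 2 + β * Real.log 2 * Real.log (β * Real.log 2 / θ) < Real.log 2) :
    ∀ᵐ a ∂law, ∃ᶠ n : ℕ in atTop, ({x : ℕ | 0 < x ∧ (x : ℝ) < (n : ℝ) ^ θ ∧
      Sifted a (2 ^ x + (n - x))}.ncard : ℝ) ≤ β * Real.log n := by
  refine freq θ1 β0 ?_
  have l0 := Real.log_pos one_lt_two
  have b0 := mul_nonneg β0 l0.le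
  generalize β * Real.log 2 = b at h1 h2 b0
  have ex : ∀ {p : ℝ → Prop}, (∀ᶠ x in nhds (0 : ℝ), p x) → ∃ x, 0 < x ∧ p x := fun h =>
    (eventually_mem_nhdsWithin.and (h.filter_mono (nhdsWithin_le_nhds (s := Set.Ioi 0)))).exists
  have ct : ∀ {f : ℝ → ℝ} {c : ℝ}, ContinuousAt f 0 → f 0 < c → ∀ᶠ x in nhds (0 : ℝ), f x < c :=
    fun h1 h2 => h1.eventually (gt_mem_nhds h2)
  have e2 : ∀ P : ℕ, (2 : ℝ) ^ P = Real.exp (Real.log 2 * P) := fun P => by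
    rw [mul_comm, Real.exp_nat_mul, Real.exp_log two_pos]
  have fin : ∀ {γ x P : ℝ}, 1 ≤ P → (P + 2) ^ 2 * P ≤ Real.exp (γ * P) → x ≤ -γ →
      (P + 2) ^ 2 * Real.exp (x * P) ≤ 10 ^ 5 / P := fun {γ x P} h1 h2 h3 => by
    have h4 := mul_le_mul h2 (Real.exp_le_exp.mpr (mul_le_mul_of_nonneg_right h3
      (zero_le_one.trans h1))) (Real.exp_pos _).le (Real.exp_pos _).le
    rw [← Real.exp_add, neg_mul, add_neg_cancel, Real.exp_zero] at h4
    rw [le_div_iff₀ (by linarith)]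
    linarith
  rcases b0.eq_or_lt with rfl | b0
  · obtain ⟨δ, δ0, ⟨δ1, δ2⟩, δ3⟩ := ex (((eventually_lt_nhds one_half_pos).and (eventually_lt_nhds θ0)).and
      (ct (f := fun δ => (1 + 2 * δ) * ((1 + δ) ^ 2 * θ + 2 * δ)) (by fun_prop) (h2.trans_eq' (by ring))))
    obtain ⟨C, hC⟩ := ev_big δ0 δ1.le
    filter_upwards [hC, two_pow_tendsto.eventually (ev_exp (sub_pos.mpr δ3))] with l h h3
    have p1 := h.p1
    generalize 2 ^ l = P at *
    have p2 : 1 / (P : ℝ) ^ 2 = 1 / P * (1 / P) := by ring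
    have p3 : 1 / (P : ℝ) ≤ 1 := (div_le_one (by positivity)).mpr p1
    have p4 : 0 < 1 / (P : ℝ) := by positivity
    have p5 : 1 / (P : ℝ) ^ 2 ≤ 1 / P := p2 ▸ mul_le_of_le_one_left p4.le p3
    refine h.est (b0 := 0) (y := 1 - 1 / P ^ 2) (y' := 1 - 1 / P) (q1 := 1 / P) (q2 := 0) θ1 δ2
      (by linarith) (by linarith) le_rfl le_rfl p4.le le_rfl (fun m hm => ?_) (by simp) ?_
        (by rw [zero_mul]; positivity) ?_
    · rw [sub_sub_cancel, sub_sub_cancel, p2, mul_pow]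
      exact mul_le_mul_of_nonneg_right (pow_le_of_le_one p4.le p3 (by omega)) (by positivity)
    · rw [one_div_mul_eq_div]
      refine div_le_div_of_nonneg_right ((Real.exp_le_exp.mpr (show _ ≤ 1 from ?_)).trans
        (by linarith [Real.exp_one_lt_three])) (by positivity)
      have p6 : 1 - 1 / (P : ℝ) ^ 2 - (1 - 1 / P) ≤ 1 / P := by linarith [mul_pos p4 p4]
      have := mul_le_mul (δ3.le.trans (by linarith [Real.log_two_lt_d9] : Real.log 2 ≤ 1))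
        (mul_le_mul_of_nonneg_right p6 (zero_le_one.trans p1))
          (mul_nonneg (by linarith) (by positivity)) zero_le_one
      rw [one_div_mul_cancel (by positivity)] at this
      linarith
    · have p6 : 0 ≤ (1 + 2 * δ) * (1 / (P : ℝ) ^ 2) * ((1 + δ) ^ 2 * θ + 2 * δ) := by positivity
      have := mul_le_mul_of_nonneg_right (fin p1 h3 (show (1 + 2 * δ) * (1 - 1 / P ^ 2) *
        ((1 + δ) ^ 2 * θ + 2 * δ) - Real.log 2 ≤ _ by linarith)) (Real.exp_pos (Real.log 2 * P +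
          -((1 + 2 * δ) * (1 - 1 / P ^ 2) * (((1 + δ) ^ 2 * θ + 2 * δ) * P)))).le
      rw [mul_assoc, ← Real.exp_add] at this
      rw [e2, ← Real.exp_add, pow_zero]
      exact le_trans (mul_le_mul_of_nonneg_left (Real.one_le_exp (by linarith)) (sq_nonneg _)) this
  have r0 : 0 < b / θ := by positivity
  have r1 : b / θ < 1 := (div_lt_one θ0).mpr h1
  obtain ⟨s, s0, s1, s2⟩ := ex ((ct (f := fun s => 4 * s) (by fun_prop) (r0.trans_eq' (by ring))).and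
    (ct (f := fun s => (b - 4 * θ * s) * Real.log (b / θ - 2 * s) + (1 - (b / θ - 2 * s)) * θ)
      (by fun_prop (disch := simpa using ⟨b0.ne', θ0.ne'⟩)) (h2.trans_eq' (by simp; field_simp; ring))))
  obtain ⟨r, hr⟩ : ∃ r, r = b / θ := ⟨_, rfl⟩
  rw [← hr] at r1 s1 s2
  have hb : b = r * θ := by rw [hr, div_mul_cancel₀ _ θ0.ne']
  have u1 : 0 < r - s := by linarith
  have u2 : 0 < r - 2 * s := by linarith
  have u3 : 0 < r - 3 * s := by linarith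
  have v0 := mul_pos θ0 s0
  have v1 : b * Real.log ((r - 2 * s) / (r - s)) + s * θ < 0 := by
    have := mul_le_mul_of_nonneg_left (Real.log_le_sub_one_of_pos (div_pos u2 u1)) b0.le
    refine (add_le_add_left this _).trans_lt ?_
    rw [div_sub_one u1.ne', ← mul_div_assoc, div_add' _ _ _ u1.ne', div_lt_iff₀ u1, hb]
    nlinarith
  have v2 : (b - 4 * θ * s) * Real.log ((r - 2 * s) / (r - 3 * s)) - s * θ < 0 := by
    have := mul_le_mul_of_nonneg_left (Real.log_le_sub_one_of_pos (div_pos u2 u3))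
      (show 0 ≤ b - 4 * θ * s by nlinarith)
    refine (sub_le_sub_right this _).trans_lt ?_
    rw [div_sub_one u3.ne', ← mul_div_assoc, sub_neg, div_lt_iff₀ u3, hb]
    nlinarith
  obtain ⟨δ, δ0, ⟨δ1, δ2⟩, ⟨δ3, δ4⟩, δ5⟩ := ex (((eventually_lt_nhds one_half_pos).and
    (eventually_lt_nhds θ0)).and (((ct (f := fun δ => δ + (b * Real.log ((r - 2 * s) / (r - s)) +
      (1 + 2 * δ) * s * ((1 + δ) ^ 2 * θ + 2 * δ))) (by fun_prop) (v1.trans_eq' (by ring))).and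
    (ct (f := fun δ => δ + ((b - 4 * θ * s) * Real.log ((r - 2 * s) / (r - 3 * s)) -
      s * ((1 - δ) * (θ - δ) - δ))) (by fun_prop) (v2.trans_eq' (by ring)))).and
    (ct (f := fun δ => δ + ((b - 4 * θ * s) * Real.log (r - 2 * s) + (1 + 2 * δ) * (1 - (r - 2 * s)) *
      ((1 + δ) ^ 2 * θ + 2 * δ))) (by fun_prop) (s2.trans_eq' (by ring)))))
  obtain ⟨C, hC⟩ := ev_big δ0 δ1.le
  filter_upwards [hC, two_pow_tendsto.eventually (ev_exp δ0), ev_pow 0 u3] with l h h3 h4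
  have p1 := h.p1
  rw [show (2 : ℝ) ^ l = (2 ^ l : ℕ) by simp, pow_zero] at h4
  generalize 2 ^ l = P at *
  have p0 := zero_le_one.trans p1
  have one : ∀ x : ℝ, Real.exp x ≤ (P + 2) ^ 2 * Real.exp x := fun x =>
    le_mul_of_one_le_left (Real.exp_pos _).le (one_le_pow₀ (by linarith))
  have tl : ∀ (v x : ℝ) (m : ℕ), 0 < v → m * Real.log ((r - 2 * s) / v) ≤ x →
      (1 - (1 - (r - 2 * s))) ^ m ≤ Real.exp x * (1 - (1 - v)) ^ m := fun v x m v0 h => by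
    rw [sub_sub_cancel, sub_sub_cancel, ← div_le_iff₀ (pow_pos v0 m), ← div_pow,
      ← Real.exp_log (div_pos u2 v0), ← Real.exp_nat_mul]
    exact Real.exp_le_exp.mpr h
  refine h.est (b0 := ⌈(b - 4 * θ * s) * P⌉₊) (y := 1 - (r - 2 * s)) (y' := 1 - (r - s))
    (y'' := 1 - (r - 3 * s)) (q1 := Real.exp (b * P * Real.log ((r - 2 * s) / (r - s))))
    (q2 := Real.exp ((b - 4 * θ * s) * P * Real.log ((r - 2 * s) / (r - 3 * s)))) θ1 δ2
    (by linarith) (by linarith) (by linarith) (sub_le_sub_left ?_ _) (Real.exp_pos _).le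
    (Real.exp_pos _).le (fun m hm => tl _ _ m u1 (mul_le_mul_of_nonpos_right ?_
      (Real.log_nonpos (by positivity) ((div_le_one u1).mpr (by linarith)))))
    (fun m hm => tl _ _ m u3 (mul_le_mul_of_nonneg_right (Nat.lt_ceil.mp hm).le
      (Real.log_nonneg ((one_le_div u3).mpr (by linarith))))) ?_ ?_ ?_
  · rw [div_le_iff₀ (by positivity)]
    nlinarith
  · exact (Nat.lt_floor_add_one _).le.trans (by exact_mod_cast hm)
  · rw [← Real.exp_add]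
    refine le_trans (le_of_eq ?_) ((one _).trans (fin p1 h3 (le_neg_iff_add_nonpos_left.mpr δ3.le)))
    congr 1
    ring
  · rw [← Real.exp_add]
    refine le_trans (le_of_eq ?_) ((one _).trans (fin p1 h3 (le_neg_iff_add_nonpos_left.mpr δ4.le)))
    congr 1
    ring
  · have := mul_le_mul_of_nonneg_right (fin p1 h3 (show (b - 4 * θ * s) * Real.log (r - 2 * s) +
      (1 + 2 * δ) * (1 - (r - 2 * s)) * ((1 + δ) ^ 2 * θ + 2 * δ) - Real.log 2 ≤ _ by linarith))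
        (Real.exp_pos (Real.log 2 * P + -((1 + 2 * δ) * (1 - (r - 2 * s)) *
          (((1 + δ) ^ 2 * θ + 2 * δ) * P)))).le
    rw [mul_assoc, ← Real.exp_add] at this
    rw [e2, ← Real.exp_add, sub_sub_cancel, ← Real.exp_log u2, ← Real.exp_nat_mul, Real.exp_log u2]
    refine le_trans (mul_le_mul_of_nonneg_left (Real.exp_le_exp.mpr ?_) (sq_nonneg _)) this
    linarith [mul_le_mul_of_nonpos_right (Nat.le_ceil ((b - 4 * θ * s) * P))
      (Real.log_nonpos u2.le (by linarith))]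

end Pool.Agent.MP_fc7299_nt

end
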