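import Pool.Agent.MP_00acf4_nt.Mg.AS

-- part MP_fc7299_nt.Gen
section

/-!
Lower tail estimates for the number of survivors of a sparse sequence in the random sieve.
-/

set_option autoImplicit false

namespace Pool.Agent.MP_fc7299_nt

open Finset Function Pool.Agent.MP_00acf4_nt
open scoped BigOperators

open Classical in
/-- The indicator that the class `c` modulo `p` removes `t`. -/
noncomputable def kp (p : Pr) (t : ℕ) (c : ZMod p) : ℝ :=
  if Th p ≤ Real.log t ∧ (t : ZMod p) = c then 1 else 0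

open Classical in
/-- The probability that `p` removes `t`. -/
noncomputable def gp (p : Pr) (t : ℕ) : ℝ := if Th p ≤ Real.log t then 1 / ((p : ℕ) : ℝ) else 0

/-- The indicator that `t` survives the primes of `K`. -/
noncomputable def sI (K : Finset Pr) (b : Om) (t : ℕ) : ℝ := ∏ p ∈ K, (1 - kp p t (b p))

lemma kp_mem (p : Pr) (t : ℕ) (c : ZMod p) : 0 ≤ kp p t c ∧ kp p t c ≤ 1 := by
  unfold kp; split_ifs <;> norm_num

lemma gp_mem (p : Pr) (t : ℕ) : 0 ≤ gp p t ∧ gp p t ≤ 1 / ((p : ℕ) : ℝ) := by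
  unfold gp; split_ifs <;> simp

lemma inv_le_half (p : Pr) : 1 / ((p : ℕ) : ℝ) ≤ 1 / 2 := one_div_le_one_div_of_le two_pos (two_le p)

lemma prod_mem {ι : Type*} {K : Finset ι} {g : ι → ℝ} (h : ∀ p ∈ K, 0 ≤ g p ∧ g p ≤ 1) :
    0 ≤ ∏ p ∈ K, (1 - g p) ∧ ∏ p ∈ K, (1 - g p) ≤ 1 :=
  ⟨prod_nonneg fun p hp => sub_nonneg.mpr (h p hp).2,
    prod_le_one (fun p hp => sub_nonneg.mpr (h p hp).2) fun p hp => sub_le_self _ (h p hp).1⟩

lemma sI_mem (K : Finset Pr) (b : Om) (t : ℕ) : 0 ≤ sI K b t ∧ sI K b t ≤ 1 :=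
  prod_mem fun p _ => kp_mem p t _

lemma expect_kp (p : Pr) (t : ℕ) : 𝔼 c, kp p t c = gp p t := by
  unfold kp gp
  split_ifs with h <;> simp [h]

lemma sI_insert {K : Finset Pr} {p : Pr} (hp : p ∉ K) {a b : Om} {c : ZMod p}
    (hb : ∀ q ∉ K, b q = update a p c q) (t : ℕ) :
    sI (insert p K) b t = (1 - kp p t c) * sI K b t := by
  rw [sI, prod_insert hp, hb p hp, update_self, sI]

theorem na (K : Finset Pr) (I : Finset ℕ) (v : ℕ → ℕ)
    (hv : ∀ p ∈ K, Set.InjOn (fun x => (v x : ZMod p)) I) (y : ℕ → ℝ)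
    (hy : ∀ x ∈ I, 0 ≤ y x ∧ y x ≤ 1) (a : Om) :
    Ex K (fun b => ∏ x ∈ I, (1 - y x * sI K b (v x))) a ≤
      ∏ x ∈ I, (1 - y x * ∏ p ∈ K, (1 - gp p (v x))) := by
  induction K using Finset.induction_on generalizing y a with
  | empty => simp [Ex_empty, sI]
  | insert p K hp ih =>
    have h0 : ∀ x ∈ I, 0 ≤ y x * ∏ p ∈ K, (1 - gp p (v x)) ∧ y x * ∏ p ∈ K, (1 - gp p (v x)) ≤ 1 :=
      fun x hx => by
        have := prod_mem (K := K) fun p _ => ⟨(gp_mem p (v x)).1,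
          (gp_mem p (v x)).2.trans ((inv_le_half p).trans (by norm_num))⟩
        exact ⟨mul_nonneg (hy x hx).1 this.1, mul_le_one₀ (hy x hx).2 this.1 this.2⟩
    rw [Ex_insert hp]
    refine (expect_le_expect fun c _ => (Ex_congr fun b hb => ?_).trans_le
      (ih (fun q hq => hv q (mem_insert_of_mem hq)) (fun x => y x * (1 - kp p (v x) c))
        (fun x hx => ?_) _)).trans ?_
    · simp only [sI_insert hp hb, mul_assoc]
    · have := kp_mem p (v x) c
      exact ⟨mul_nonneg (hy x hx).1 (by linarith), mul_le_one₀ (hy x hx).2 (by linarith) (by linarith)⟩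
    simp only [prod_insert hp]
    generalize (fun x => ∏ p ∈ K, (1 - gp p (v x))) = π at h0
    have e : ∀ x (z π : ℝ), 1 - y x * (1 - z) * π = y x * π * z + (1 - y x * π) := fun _ _ _ => by ring
    simp only [← mul_assoc, e, prod_add, expect_sum_comm]
    refine sum_le_sum fun S hS => ?_
    have hS' := mem_powerset.mp hS
    rw [← expect_mul]
    refine mul_le_mul_of_nonneg_right ?_ (prod_mem fun x hx => h0 x (mem_sdiff.mp hx).1).1
    simp only [prod_mul_distrib (f := fun x => y x * _)]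
    rw [← mul_expect]
    refine mul_le_mul_of_nonneg_left ?_ (prod_nonneg fun x hx => (h0 x (hS' hx)).1)
    rcases S.eq_empty_or_nonempty with rfl | ⟨x, hx⟩
    · simp
    by_cases h : S = {x}
    · simp [h, expect_kp]
    obtain ⟨x', h1, h2⟩ : ∃ x' ∈ S, x' ≠ x := by
      by_contra! h3
      exact h (eq_singleton_iff_unique_mem.mpr ⟨hx, h3⟩)
    refine (expect_eq_zero fun c _ => ?_).trans_le (prod_nonneg fun x _ => (gp_mem _ _).1)
    by_cases h3 : (v x : ZMod p) = c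
    · exact prod_eq_zero h1 (if_neg fun h4 => h2
        (hv p (mem_insert_self _ _) (hS' h1) (hS' hx) (h4.2.trans h3.symm)))
    · exact prod_eq_zero hx (if_neg fun h4 => h3 h4.2)

theorem sm (K : Finset Pr) (I : Finset ℕ) (v : ℕ → ℕ) {τ : ℝ} (τ0 : 0 ≤ τ) (τ1 : τ ≤ 1) (u : ℕ → ℝ)
    (hu : ∀ x, 0 ≤ u x) (h : ∀ p ∈ K, ∀ c, ∑ x ∈ I, u x * kp p (v x) c ≤ τ) (a : Om) :
    Ex K (fun b => Real.exp (-∑ x ∈ I, u x * sI K b (v x))) a ≤
      Real.exp (-((∑ x ∈ I, u x) * ∏ p ∈ K, (1 - (1 + τ) * (1 / ((p : ℕ) : ℝ))))) := by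
  induction K using Finset.induction_on generalizing u a with
  | empty => simp [Ex_empty, sI]
  | insert p K hp ih =>
    obtain ⟨r0, r1⟩ := prod_mem (K := K) (g := fun p => (1 + τ) * (1 / ((p : ℕ) : ℝ))) fun p _ =>
      ⟨by positivity, by nlinarith [inv_le_half p]⟩
    rw [Ex_insert hp, prod_insert hp]
    refine (expect_le_expect fun c _ => (Ex_congr fun b hb => ?_).trans_le
      (ih (fun x => u x * (1 - kp p (v x) c)) (fun x => mul_nonneg (hu x)
        (sub_nonneg.mpr (kp_mem _ _ _).2)) (fun q hq c' => (sum_le_sum fun x _ => ?_).trans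
          (h q (mem_insert_of_mem hq) c')) _)).trans ?_
    · simp only [sI_insert hp hb, mul_assoc]
    · exact mul_le_mul_of_nonneg_right (mul_le_of_le_one_right (hu x)
        (sub_le_self _ (kp_mem _ _ _).1)) (kp_mem _ _ _).1
    generalize ∏ p ∈ K, (1 - (1 + τ) * (1 / ((p : ℕ) : ℝ))) = ρ at r0 r1
    simp only [mul_sub, mul_one, sum_sub_distrib]
    have h1 : 𝔼 c, ∑ x ∈ I, u x * kp p (v x) c ≤ (∑ x ∈ I, u x) * (1 / ((p : ℕ) : ℝ)) := by
      rw [expect_sum_comm, sum_mul]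
      refine sum_le_sum fun x _ => ?_
      rw [← mul_expect, expect_kp]
      exact mul_le_mul_of_nonneg_left (gp_mem _ _).2 (hu x)
    refine (expect_le_expect (g := fun c => Real.exp (-((∑ x ∈ I, u x) * ρ)) *
      (1 + (1 + τ) * ρ * ∑ x ∈ I, u x * kp p (v x) c)) fun c _ => ?_).trans ?_
    · have a1 := h p (mem_insert_self _ _) c
      have a2 : 0 ≤ ∑ x ∈ I, u x * kp p (v x) c :=
        sum_nonneg fun x _ => mul_nonneg (hu x) (kp_mem _ _ _).1
      generalize ∑ x ∈ I, u x * kp p (v x) c = t at a1 a2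
      have a3 : t * ρ ≤ τ := (mul_le_of_le_one_right a2 r1).trans a1
      have a4 := mul_nonneg a2 r0
      rw [sub_mul, neg_sub, sub_eq_neg_add, Real.exp_add]
      gcongr
      nlinarith [(abs_le.mp (Real.abs_exp_sub_one_sub_id_le (x := t * ρ)
        (by rw [abs_of_nonneg a4]; linarith))).2]
    · rw [← mul_expect, expect_add_distrib, Fintype.expect_const, ← mul_expect]
      refine (mul_le_mul_of_nonneg_left ((add_comm _ _).trans_le ((add_le_add_left
        (mul_le_mul_of_nonneg_left h1 (by positivity)) 1).trans (Real.add_one_le_exp _)))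
        (Real.exp_pos _).le).trans_eq ?_
      rw [← Real.exp_add]
      congr 1
      ring

/-- Truncated inclusion-exclusion. -/
noncomputable def Tr (m : ℕ) (P : Finset Pr) (g : Pr → ℝ) : ℝ :=
  ∑ S ∈ P.powerset, if #S < m then (-1) ^ #S * ∏ p ∈ S, g p else 0

lemma bonf (P : Finset Pr) (g : Pr → ℝ) (hg : ∀ p ∈ P, 0 ≤ g p ∧ g p ≤ 1) (m : ℕ) :
    0 ≤ (-1) ^ m * (∏ p ∈ P, (1 - g p) - Tr m P g) ∧
      (-1) ^ m * (∏ p ∈ P, (1 - g p) - Tr m P g) ≤ (1 / 2) ^ m * ∏ p ∈ P, (1 + 2 * g p) := by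
  have base : ∀ P : Finset Pr, (∀ p ∈ P, 0 ≤ g p ∧ g p ≤ 1) →
      0 ≤ (-1) ^ 0 * (∏ p ∈ P, (1 - g p) - Tr 0 P g) ∧
      (-1) ^ 0 * (∏ p ∈ P, (1 - g p) - Tr 0 P g) ≤ (1 / 2) ^ 0 * ∏ p ∈ P, (1 + 2 * g p) :=
    fun P hg => by
      simpa [Tr] using ⟨(prod_mem hg).1, (prod_mem hg).2.trans
        (one_le_prod fun p hp => by linarith [(hg p hp).1])⟩
  induction P using Finset.induction_on generalizing m with
  | empty =>
    rcases m with _ | m
    · exact base _ hg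
    · simp [Tr]
  | insert p P hp ih =>
    rcases m with _ | m
    · exact base _ hg
    have h1 := ih (fun q hq => hg q (mem_insert_of_mem hq))
    have h2 : Tr (m + 1) (insert p P) g = Tr (m + 1) P g - g p * Tr m P g := by
      rw [Tr, sum_powerset_insert hp, Tr, Tr, sub_eq_add_neg, mul_sum, ← sum_neg_distrib]
      congr 1
      refine sum_congr rfl fun S hS => ?_
      have : p ∉ S := fun h => hp (mem_powerset.mp hS h)
      simp only [card_insert_of_notMem this, prod_insert this, add_lt_add_iff_right]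
      split_ifs <;> ring
    have h3 := (hg p (mem_insert_self _ _)).1
    have h4 := mul_le_mul_of_nonneg_left (h1 m).2 h3
    have h5 := mul_nonneg h3 (h1 m).1
    have h6 := h1 (m + 1)
    rw [prod_insert hp, prod_insert hp, h2]
    simp only [pow_succ] at h6 ⊢
    constructor <;> nlinarith [h6.1, h6.2]

theorem brun (A : Finset Pr) (v : ℕ → ℕ) (B : ℕ) {u : ℕ → ℝ} (u0 : ∀ x, 0 ≤ u x) (hu : Antitone u)
    {m : ℕ} (hm : Even m) (b : Om) (T : Finset Pr → ℝ) (hT : ∀ S ⊆ A, ∀ j ≤ B,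
      |∑ i ∈ range j, (∏ p ∈ S, kp p (v i) (b p) - ∏ p ∈ S, 1 / ((p : ℕ) : ℝ))| ≤ T S) :
    (∑ i ∈ range B, u i) * (∏ p ∈ A, (1 - 1 / ((p : ℕ) : ℝ)) -
      (1 / 2) ^ m * ∏ p ∈ A, (1 + 2 * (1 / ((p : ℕ) : ℝ)))) -
      u 0 * ∑ S ∈ A.powerset, (if #S < m then T S else 0) ≤ ∑ i ∈ range B, u i * sI A b (v i) := by
  have h1 := (bonf A (fun p => 1 / ((p : ℕ) : ℝ)) (fun p _ =>
    ⟨by positivity, (inv_le_half p).trans (by norm_num)⟩) m).2
  have h2 := fun i => (bonf A (fun p => kp p (v i) (b p)) (fun p _ => kp_mem _ _ _) m).1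
  simp only [hm.neg_one_pow, one_mul, sub_nonneg] at h1 h2
  refine le_trans ?_ (sum_le_sum fun i _ => mul_le_mul_of_nonneg_left (h2 i) (u0 i))
  refine (sub_le_sub_right (mul_le_mul_of_nonneg_left (sub_le_comm.mp h1)
    (sum_nonneg fun i _ => u0 i)) _).trans ?_
  simp only [Tr, mul_sum]
  rw [sum_comm, ← sum_sub_distrib]
  refine sum_le_sum fun S hS => ?_
  split_ifs
  · have a1 := fun k hk => hT S (mem_powerset.mp hS) k hk
    have a2 := abel' (f := fun i => -((-1) ^ #S * (∏ p ∈ S, kp p (v i) (b p) -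
      ∏ p ∈ S, 1 / ((p : ℕ) : ℝ)))) (u := u) (m := T S) B (fun i _ => hu i.le_succ) fun k hk => by
        rw [sum_neg_distrib, ← mul_sum]
        refine (neg_le_abs _).trans ?_
        rw [abs_mul, abs_neg_one_pow, one_mul]
        exact a1 k hk
    have a3 : (∑ i ∈ range B, -((-1) ^ #S * (∏ p ∈ S, kp p (v i) (b p) -
        ∏ p ∈ S, 1 / ((p : ℕ) : ℝ)))) * u B ≤ T S * u B := by
      refine mul_le_mul_of_nonneg_right ?_ (u0 B)
      rw [sum_neg_distrib, ← mul_sum]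
      refine (neg_le_abs _).trans ?_
      rw [abs_mul, abs_neg_one_pow, one_mul]
      exact a1 B le_rfl
    have a4 : ∑ i ∈ range B, -((-1) ^ #S * (∏ p ∈ S, kp p (v i) (b p) -
        ∏ p ∈ S, 1 / ((p : ℕ) : ℝ))) * u i = (∑ i ∈ range B, u i) * ((-1) ^ #S *
          ∏ p ∈ S, 1 / ((p : ℕ) : ℝ)) - ∑ i ∈ range B, u i * ((-1) ^ #S * ∏ p ∈ S, kp p (v i) (b p)) := by
      rw [sum_mul, ← sum_sub_distrib]
      exact sum_congr rfl fun i _ => by ring
    linarith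
  · simp

end Pool.Agent.MP_fc7299_nt

end

-- part MP_fc7299_nt.Arith
section

/-!
The sequence `2 ^ x - x` modulo primes: joint equidistribution and small multiplicities.
-/

set_option autoImplicit false

namespace Pool.Agent.MP_fc7299_nt

open Finset Function Pool.Agent.MP_00acf4_nt
open scoped BigOperators

/-- The indicator of `2 ^ (i + 1) * g - i = c` modulo `p`. -/
noncomputable def ph (g : ℕ) (p : Pr) (c : ZMod p) (i : ℕ) : ℝ :=
  if (2 : ZMod p) ^ (i + 1) * g - i = c then 1 else 0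

lemma sum_mul_range (f : ℕ → ℝ) (a b : ℕ) :
    ∑ i ∈ range (a * b), f i = ∑ s ∈ range b, ∑ i ∈ range a, f (a * s + i) := by
  induction b with
  | zero => simp
  | succ b ih => rw [mul_add_one, sum_range_add, sum_range_succ, ih]

lemma pow_per (p : Pr) {T : ℕ} (h : (p : ℕ) - 1 ∣ T) (i : ℕ) :
    (2 : ZMod p) ^ (T + i + 1) = 2 ^ (i + 1) := by
  have := Fact.mk p.2
  obtain ⟨t, rfl⟩ := h
  induction t with
  | zero => simp
  | succ t ih =>
    have := p.2.one_lt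
    rw [← ih, show ((p : ℕ) - 1) * (t + 1) + i + 1 = ((p : ℕ) - 1) * t + i + p by
      rw [mul_add_one]; omega, pow_add, ZMod.pow_card, pow_succ]

/-- The common period. -/
def TT (S : Finset Pr) : ℕ := ∏ p ∈ S, (p : ℕ) * (p - 1)

lemma ph_per (g : ℕ) (S : Finset Pr) (c : Om) (s i : ℕ) :
    ∏ p ∈ S, ph g p (c p) (TT S * s + i) = ∏ p ∈ S, ph g p (c p) i := by
  refine prod_congr rfl fun p hp => ?_
  have h : (p : ℕ) * (p - 1) ∣ TT S * s := (dvd_prod_of_mem _ hp).mul_right s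
  rw [ph, ph, pow_per p (Dvd.dvd.trans (Dvd.intro_left _ rfl) h), Nat.cast_add,
    (ZMod.natCast_eq_zero_iff _ _).mpr (Dvd.dvd.trans (Dvd.intro _ rfl) h), zero_add]

lemma one_sol (g : ℕ) (q : Pr) (c : ZMod q) {a : ℕ} (ha : ¬ (q : ℕ) ∣ a) (h : (q : ℕ) - 1 ∣ a) (i : ℕ) :
    ∑ s ∈ range q, ph g q c (a * s + i) = 1 := by
  have := Fact.mk q.2
  have a0 : (a : ZMod q) ≠ 0 := fun h => ha ((ZMod.natCast_eq_zero_iff _ _).mp h)
  have e : ∀ s : ℕ, ph g q c (a * s + i) =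
      if (s : ZMod q) = (2 ^ (i + 1) * g - i - c) / a then 1 else 0 := fun s => by
    rw [ph, pow_per q (h.mul_right s)]
    refine if_congr ?_ rfl rfl
    rw [eq_div_iff a0]
    push_cast
    constructor <;> intro h <;> linear_combination -h
  simp only [e]
  generalize (2 ^ (i + 1) * g - i - c : ZMod q) / a = d
  rw [sum_eq_single d.val (fun s hs h => if_neg fun h1 => h
    (by rw [← h1, ZMod.val_cast_of_lt (mem_range.mp hs)])) fun h => absurd (mem_range.mpr d.val_lt) h]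
  simp

lemma eqd (g : ℕ) (S : Finset Pr) (c : Om) :
    ∑ i ∈ range (TT S), ∏ p ∈ S, ph g p (c p) i = TT S * ∏ p ∈ S, 1 / ((p : ℕ) : ℝ) := by
  induction S using Finset.induction_on_max with
  | empty => simp [TT]
  | insert q S hq ih =>
    have h0 : q ∉ S := fun h => lt_irrefl _ (hq q h)
    have h1 : TT (insert q S) = TT S * (q - 1) * q := by rw [TT, prod_insert h0, TT]; ring
    have h2 : ∀ p : Pr, p ≤ q → ¬ (q : ℕ) ∣ (p : ℕ) - 1 := fun p hp =>
      Nat.not_dvd_of_pos_of_lt (Nat.sub_pos_of_lt p.2.one_lt)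
        ((Nat.sub_one_lt p.2.ne_zero).trans_le hp)
    have h3 : ¬ (q : ℕ) ∣ TT S * (q - 1) := by
      rw [q.2.dvd_mul, TT, q.2.prime.dvd_finsetProd_iff]
      rintro (⟨p, hp, h⟩ | h)
      · exact ((q.2.dvd_mul).mp h).elim (Nat.not_dvd_of_pos_of_lt p.2.pos (hq p hp)) (h2 p (hq p hp).le)
      · exact h2 q le_rfl h
    rw [h1, sum_mul_range, sum_comm]
    simp only [prod_insert h0, mul_assoc (TT S), ph_per, ← sum_mul]
    simp only [← mul_assoc (TT S), one_sol g q (c q) h3 (Dvd.intro_left _ rfl), one_mul]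
    rw [sum_mul_range]
    simp only [ph_per, ih, sum_const, card_range, nsmul_eq_mul]
    have := two_le q
    push_cast
    field_simp

lemma ph_mem (g : ℕ) (p : Pr) (c : ZMod p) (i : ℕ) : 0 ≤ ph g p c i ∧ ph g p c i ≤ 1 := by
  unfold ph; split_ifs <;> norm_num

lemma disc (g : ℕ) (S : Finset Pr) (c : Om) (j : ℕ) :
    |∑ i ∈ range j, (∏ p ∈ S, ph g p (c p) i - ∏ p ∈ S, 1 / ((p : ℕ) : ℝ))| ≤ TT S := by
  have T0 : 0 < TT S := prod_pos fun p _ => mul_pos p.2.pos (Nat.sub_pos_of_lt p.2.one_lt)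
  rw [← Nat.div_add_mod j (TT S), sum_range_add, sum_mul_range]
  simp only [ph_per, sum_sub_distrib, eqd, sum_const (s := range (TT S)), card_range, nsmul_eq_mul,
    sub_self, sum_const_zero, zero_add]
  rw [← sum_sub_distrib]
  refine (abs_sum_le_sum_abs _ _).trans ((sum_le_card_nsmul _ _ 1 fun i _ => ?_).trans ?_)
  · have h1 := prod_nonneg (s := S) fun p _ => (ph_mem g p (c p) i).1
    have h2 := prod_le_one (s := S) (fun p _ => (ph_mem g p (c p) i).1) fun p _ => (ph_mem g p (c p) i).2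
    have h3 : 0 ≤ ∏ p ∈ S, 1 / ((p : ℕ) : ℝ) := by positivity
    have h4 : ∏ p ∈ S, 1 / ((p : ℕ) : ℝ) ≤ 1 := prod_le_one (fun _ _ => by positivity)
      fun p _ => (inv_le_half p).trans (by norm_num)
    exact abs_le.mpr ⟨by linarith, by linarith⟩
  · simpa using (Nat.mod_lt j T0).le

lemma sidon (g : ℕ) (p : Pr) (c : ZMod p) {j : ℕ} (hj : j ^ 2 ≤ p) (s : ℕ) :
    ∑ i ∈ range (j ^ 2), ph g p c (s + i) ≤ 2 * j := by
  have := Fact.mk p.2
  simp only [ph, sum_boole]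
  set X := (range (j ^ 2)).filter fun i => (2 : ZMod p) ^ (s + i + 1) * g - (s + i : ℕ) = c with hX
  have inj : ∀ a ∈ X, ∀ b ∈ X, (a : ZMod p) - b = 0 → a = b := fun a ha b hb h => by
    have := congrArg ZMod.val (sub_eq_zero.mp h)
    rwa [ZMod.val_cast_of_lt ((mem_range.mp (mem_filter.mp ha).1).trans_le hj),
      ZMod.val_cast_of_lt ((mem_range.mp (mem_filter.mp hb).1).trans_le hj)] at this
  have lt : ∀ a ∈ X, a < j ^ 2 := fun a ha => mem_range.mp (mem_filter.mp ha).1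
  have h1 : #X.offDiag ≤ #(range (2 * j ^ 2)) := by
    refine card_le_card_of_injOn (fun x => x.1 + j ^ 2 - x.2) (fun x hx => ?_) fun x hx x' hx' h => ?_
    · have := lt _ (mem_offDiag.mp hx).1
      simp only [coe_range, Set.mem_Iio]
      omega
    obtain ⟨a1, a2, a3⟩ := mem_offDiag.mp hx
    obtain ⟨b1, b2, -⟩ := mem_offDiag.mp hx'
    have h2 : x.1 + x'.2 = x'.1 + x.2 := by
      have := lt _ a2
      have := lt _ b2
      simp only at h
      omega
    have h3 : (2 : ZMod p) ^ (s + x.1 + 1) * 2 ^ (s + x'.2 + 1) =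
        2 ^ (s + x'.1 + 1) * 2 ^ (s + x.2 + 1) := by
      rw [← pow_add, ← pow_add]; congr 1; omega
    have h4 := congrArg (Nat.cast : ℕ → ZMod p) h2
    have c1 := (mem_filter.mp a1).2
    have c2 := (mem_filter.mp a2).2
    have c3 := (mem_filter.mp b1).2
    have c4 := (mem_filter.mp b2).2
    push_cast at h4 c1 c2 c3 c4
    have h5 : ((x.1 : ZMod p) - x'.1) * (x.1 - x.2) = 0 := by
      rw [sub_eq_iff_eq_add] at c1 c2 c3 c4
      have h6 : (c + (s + x.1)) * (c + (s + x'.2)) = (c + (s + x'.1)) * (c + (s + x.2)) := by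
        rw [← c1, ← c2, ← c3, ← c4]; linear_combination (g : ZMod p) ^ 2 * h3
      linear_combination (x.1 + c + s) * h4 - h6
    have h6 := inj _ a1 _ b1 ((mul_eq_zero.mp h5).resolve_right fun h => a3 (inj _ a1 _ a2 h))
    exact Prod.ext h6 (by omega)
  rw [offDiag_card, card_range] at h1
  have : #X ≤ 2 * j := by
    by_contra! h
    obtain ⟨m, hm⟩ := Nat.exists_eq_add_of_lt h
    rw [hm, tsub_le_iff_right] at h1
    have := card_le_card (filter_subset _ _ : X ⊆ _)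
    rw [card_range, hm] at this
    nlinarith
  exact_mod_cast this

lemma class_wt (g : ℕ) (p : Pr) (c : ZMod p) {j : ℕ} (j0 : 0 < j) (hj : j ^ 2 ≤ p) {u : ℕ → ℝ}
    (u0 : ∀ x, 0 ≤ u x) (hu : Antitone u) (B : ℕ) :
    ∑ i ∈ range B, u i * ph g p c i ≤ 2 / j * ∑ i ∈ range B, u i + 2 * j * u 0 := by
  have h : ∀ k, ∑ i ∈ range k, (ph g p c i - 2 / j) ≤ 2 * j := fun k => by
    have j1 : (0 : ℝ) < j := by exact_mod_cast j0
    rw [← Nat.div_add_mod k (j ^ 2), sum_range_add, sum_mul_range]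
    have h1 := sidon g p c hj
    refine (add_comm _ _).trans_le ((add_le_of_nonpos_right (sum_nonpos fun s _ => ?_)).trans ?_)
    · rw [sum_sub_distrib, sub_nonpos, sum_const, card_range, nsmul_eq_mul]
      refine (h1 _).trans_eq ?_
      push_cast
      field_simp
    · refine le_trans ?_ (h1 (j ^ 2 * (k / j ^ 2)))
      refine (sum_le_sum fun i _ => sub_le_self _ (by positivity)).trans
        (sum_le_sum_of_subset_of_nonneg (range_subset_range.mpr (Nat.mod_lt _ (by positivity)).le)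
          fun i _ _ => (ph_mem _ _ _ _).1)
  have h1 := abel' (u := u) B (fun i _ => hu i.le_succ) fun k _ => h k
  have h2 := mul_le_mul_of_nonneg_right (h B) (u0 B)
  simp only [sub_mul, sum_sub_distrib, ← mul_sum, mul_comm (ph g p c _)] at h1 h2
  linarith

end Pool.Agent.MP_fc7299_nt

end

-- part MP_fc7299_nt.Core
section

/-!
The generating function of the number of survivors among the numbers `2 ^ x + (n - x)`.
-/

set_option autoImplicit false

namespace Pool.Agent.MP_fc7299_nt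

open Finset Function Pool.Agent.MP_00acf4_nt
open scoped BigOperators

lemma sI_congr {K : Finset Pr} {a b : Om} (h : ∀ p ∈ K, b p = a p) (t : ℕ) : sI K b t = sI K a t :=
  prod_congr rfl fun p hp => by rw [h p hp]

lemma gp_prod (K : Finset Pr) (t : ℕ) :
    0 ≤ ∏ p ∈ K, (1 - gp p t) ∧ ∏ p ∈ K, (1 - gp p t) ≤ 1 :=
  prod_mem fun p _ => ⟨(gp_mem p t).1, (gp_mem p t).2.trans ((inv_le_half p).trans (by norm_num))⟩

theorem comb {A E C : Finset Pr} (h1 : Disjoint A (E ∪ C)) (h2 : Disjoint E C) (I : Finset ℕ)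
    (v : ℕ → ℕ) (hv : ∀ p ∈ C, Set.InjOn (fun x => (v x : ZMod p)) I) {y τ L : ℝ} (y0 : 0 ≤ y)
    (y1 : y ≤ 1) (τ0 : 0 ≤ τ) (τ1 : τ ≤ 1) {u : ℕ → ℝ} (u0 : ∀ x, 0 ≤ u x)
    (hu : ∀ x ∈ I, u x ≤ y * ∏ p ∈ C, (1 - gp p (v x)))
    (h : ∀ p ∈ E, ∀ c, ∑ x ∈ I, u x * kp p (v x) c ≤ τ) (hL : ∀ b,
      L ≤ (∑ x ∈ I, u x * sI A b (v x)) * ∏ p ∈ E, (1 - (1 + τ) * (1 / ((p : ℕ) : ℝ)))) :
    Ex (A ∪ (E ∪ C)) (fun b => ∏ x ∈ I, (1 - y * sI (A ∪ (E ∪ C)) b (v x))) 0 ≤ Real.exp (-L) := by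
  rw [Ex_union h1]
  refine Ex_le fun a _ => ?_
  rw [Ex_union h2]
  refine (Ex_mono' fun b hb => ?_).trans ((sm E I v τ0 τ1 (fun x => u x * sI A a (v x))
    (fun x => mul_nonneg (u0 x) (sI_mem _ _ _).1) (fun p hp c => (sum_le_sum fun x _ =>
      mul_le_mul_of_nonneg_right (mul_le_of_le_one_right (u0 x) (sI_mem _ _ _).2)
        (kp_mem _ _ _).1).trans (h p hp c)) a).trans (Real.exp_le_exp.mpr (neg_le_neg (hL a))))
  have m := fun x => And.intro (mul_nonneg (sI_mem A a (v x)).1 (sI_mem E b (v x)).1)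
    (mul_le_one₀ (sI_mem A a (v x)).2 (sI_mem E b (v x)).1 (sI_mem E b (v x)).2)
  refine (Ex_congr fun c hc => ?_).trans_le ((na C I v hv (fun x => y * (sI A a (v x) * sI E b (v x)))
    (fun x _ => ⟨mul_nonneg y0 (m x).1, mul_le_one₀ y1 (m x).1 (m x).2⟩) b).trans
      ((prod_le_exp_neg _ _ fun x _ => mul_le_one₀ (mul_le_one₀ y1 (m x).1 (m x).2) (gp_prod _ _).1
        (gp_prod _ _).2).trans (Real.exp_le_exp.mpr (neg_le_neg (sum_le_sum fun x hx => ?_)))))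
  · refine prod_congr rfl fun x _ => ?_
    have d := disjoint_left.mp h1
    rw [← sI_congr (b := c) fun p hp => (hc p fun h => d hp (mem_union_right _ h)).trans
      (hb p fun h => d hp (mem_union_left _ h)), ← sI_congr fun p hp => hc p (disjoint_left.mp h2 hp),
      sI, prod_union h1, prod_union h2, sI, sI, sI]
    ring
  · nlinarith [mul_le_mul_of_nonneg_right (hu x hx) (m x).1]

lemma Th_inv (z : ℕ) : Th z * ∏ p ∈ PQ z, (1 - 1 / ((p : ℕ) : ℝ)) = 1 := by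
  rw [PQ, prod_subtype_eq_prod_filter fun n : ℕ => 1 - 1 / (n : ℝ), mul_comm,
    mul_eq_one_iff_eq_inv₀ (Th_pos z).ne', Th, prod_inv_distrib, inv_inv]
  refine prod_congr ?_ fun _ _ => by rw [one_div]
  ext q
  simp [Nat.mem_primesLE]

lemma Lam_le (z : ℕ) : ∏ p ∈ PQ z, (1 + 2 * (1 / ((p : ℕ) : ℝ))) ≤ Th z ^ 2 := by
  have h : (∏ p ∈ PQ z, (1 + 2 * (1 / ((p : ℕ) : ℝ)))) * (∏ p ∈ PQ z, (1 - 1 / ((p : ℕ) : ℝ))) ^ 2 ≤ 1 := by
    rw [← prod_pow, ← prod_mul_distrib]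
    refine prod_le_one (fun _ _ => by positivity) fun p _ => ?_
    have h1 := inv_le_half p
    have h2 : 0 ≤ 1 / ((p : ℕ) : ℝ) := by positivity
    nlinarith [mul_nonneg h2 h2]
  have := mul_le_mul_of_nonneg_left h (sq_nonneg (Th z))
  rwa [mul_left_comm, ← mul_pow, Th_inv, one_pow, mul_one, mul_one] at this

lemma TT_sum (z m : ℕ) (hz : 1 ≤ z) : ∑ S ∈ (PQ z).powerset, (if #S < m then (TT S : ℝ) else 0) ≤
    (z : ℝ) ^ (3 * m) * Th z ^ 2 := by
  have z1 : (1 : ℝ) ≤ z := by exact_mod_cast hz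
  refine le_trans ?_ (mul_le_mul_of_nonneg_left (Lam_le z) (by positivity))
  rw [prod_one_add, mul_sum]
  refine sum_le_sum fun S hS => ?_
  split_ifs with h
  · refine le_trans ?_ (mul_le_mul_of_nonneg_right (pow_le_pow_right₀ z1 (Nat.mul_le_mul_left 3 h.le))
      (by positivity))
    rw [pow_mul, ← prod_const, ← prod_mul_distrib, TT, Nat.cast_prod]
    refine prod_le_prod (fun _ _ => by positivity) fun p hp => ?_
    have h1 : ((p : ℕ) : ℝ) ≤ z := by exact_mod_cast mem_PQ.mp (mem_powerset.mp hS hp)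
    have h2 := two_le p
    rw [Nat.cast_mul, Nat.cast_pred p.2.pos, mul_one_div, ← mul_div_assoc, le_div_iff₀ (by linarith)]
    nlinarith [pow_le_pow_left₀ (by linarith) h1 3, sq_nonneg ((p : ℕ) : ℝ)]
  · positivity

lemma sum_inv_le (w : ℕ) : ∑ p ∈ PQ w, 1 / ((p : ℕ) : ℝ) ≤ 1 + Real.log w := by
  refine (sum_inj_le (fun p : Pr => (p : ℕ) - 1) (fun p _ q _ h => Subtype.ext ?_) (fun p hp => ?_)
    (fun p _ => ?_) fun _ => by positivity).trans (harm_le w)
  · have := p.2.pos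
    have := q.2.pos
    simp only at h
    omega
  · exact mem_range.mpr ((Nat.sub_one_lt p.2.ne_zero).trans_le (mem_PQ.mp hp))
  · rw [Nat.sub_add_cancel p.2.pos, one_div]

/-- The numbers `2 ^ x + (n - x)` for `x > k`. -/
def vv (n k i : ℕ) : ℕ := 2 ^ (k + i + 1) + (n - (k + i + 1))

lemma kp_eq {n k i : ℕ} (h : i < n - k) (p : Pr) (c : ZMod p) : kp p (vv n k i) c =
    if Th p ≤ Real.log (vv n k i) then ph (2 ^ k) p (c - n + k + 1) i else 0 := by
  rw [kp, ph, ite_and]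
  refine if_congr Iff.rfl (if_congr ?_ rfl rfl) rfl
  rw [vv, Nat.cast_add, Nat.cast_sub (by omega)]
  push_cast
  constructor <;> intro h <;> linear_combination h

lemma vv_bd {n k : ℕ} (h : n ≤ 2 ^ k) (i : ℕ) :
    2 ^ (k + i + 1) ≤ vv n k i ∧ vv n k i < 2 ^ (k + i + 2) := by
  have := Nat.pow_lt_pow_right one_lt_two (show k < k + i + 1 by omega)
  rw [vv, pow_succ _ (k + i + 1)]
  omega

lemma bad_card {n k w : ℕ} (h : n ≤ 2 ^ k) (hw : 2 ≤ w) (D : Finset Pr) (hD : ∀ p ∈ D, w < (p : ℕ) ∧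
    ¬ Set.InjOn (fun i => (vv n k i : ZMod p)) (range (n - k))) : #D ≤ n * n * (n + 1) := by
  classical
  have mono : StrictMono (vv n k) := strictMono_nat_of_lt_succ fun i =>
    (vv_bd h i).2.trans_le (vv_bd h (i + 1)).1
  have le : ∀ i ∈ range (n - k), vv n k i ≤ 2 ^ (n + 1) := fun i hi =>
    (vv_bd h i).2.le.trans (Nat.pow_le_pow_right two_pos (by have := mem_range.mp hi; omega))
  refine (card_le_card (t := (range (n - k)).offDiag.biUnion fun x => D.filter fun p : Pr =>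
    (vv n k x.1 : ZMod p) = vv n k x.2) fun p hp => ?_).trans
      ((card_biUnion_le_card_mul _ _ (n + 1) fun x hx => ?_).trans ?_)
  · obtain ⟨a, ha, b, hb, h1, h2⟩ : ∃ a ∈ range (n - k), ∃ b ∈ range (n - k),
        (vv n k a : ZMod p) = vv n k b ∧ a ≠ b := by
      by_contra! h3
      exact (hD p hp).2 fun a ha b hb h => h3 a ha b hb h
    exact mem_biUnion.mpr ⟨(a, b), mem_offDiag.mpr ⟨ha, hb, h2⟩, mem_filter.mpr ⟨hp, h1⟩⟩
  · obtain ⟨a1, a2, a3⟩ := mem_offDiag.mp hx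
    exact few_div le_rfl (mono.injective.ne a3) (le _ a1) (le _ a2) _ fun p hp =>
      ⟨hw.trans_lt (hD p (mem_filter.mp hp).1).1, (mem_filter.mp hp).2⟩
  · rw [offDiag_card, card_range]
    exact Nat.mul_le_mul_right _ (tsub_le_self.trans (Nat.mul_le_mul tsub_le_self tsub_le_self))

lemma rho_ge (Q : Finset Pr) {τ : ℝ} (τ0 : 0 ≤ τ) (τ1 : τ ≤ 1) :
    (∏ p ∈ Q, (1 - 1 / ((p : ℕ) : ℝ))) * (1 - 2 * τ * ∑ p ∈ Q, 1 / ((p : ℕ) : ℝ)) ≤
      ∏ p ∈ Q, (1 - (1 + τ) * (1 / ((p : ℕ) : ℝ))) := by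
  have h : ∀ p : Pr, 0 ≤ 1 / ((p : ℕ) : ℝ) := fun p => by positivity
  have h1 : ∀ p : Pr, 2 * τ * (1 / ((p : ℕ) : ℝ)) ≤ 1 := fun p => by nlinarith [inv_le_half p, h p]
  rw [mul_sum]
  refine (mul_le_mul_of_nonneg_left (one_sub_sum_le_prod _ _ fun p _ => ⟨by positivity, h1 p⟩)
    (prod_nonneg fun p _ => by linarith [inv_le_half p])).trans ?_
  rw [← prod_mul_distrib]
  refine prod_le_prod (fun p _ => mul_nonneg (by linarith [inv_le_half p]) (by linarith [h1 p]))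
    fun p _ => ?_
  nlinarith [mul_nonneg (mul_nonneg τ0 (h p)) (sub_nonneg.mpr (inv_le_half p))]

lemma good_ge {t N w : ℕ} (h3 : 3 ≤ t) (ht : t ≤ N) (hw : w ≤ N) (act : Th w ≤ Real.log t)
    {C : Finset Pr} (hC : C ⊆ PQ N \ PQ w) : Th w / Real.log t ≤ ∏ p ∈ C, (1 - gp p t) := by
  have h1 : V t = ∏ p ∈ PQ N, (1 - gp p t) := (V_eq ht).trans (prod_congr rfl fun p _ => by
    rw [gp]; simp only [act_iff h3]; split_ifs <;> simp)
  have h2 : ∏ p ∈ PQ N, (1 - gp p t) ≤ ∏ p ∈ PQ w ∪ C, (1 - gp p t) :=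
    prod_le_prod_of_subset_of_le_one (union_subset (fun p hp => mem_PQ.mpr ((mem_PQ.mp hp).trans hw))
      (hC.trans sdiff_subset)) (fun p _ => by linarith [(gp_mem p t).2, inv_le_half p])
        fun p _ _ => sub_le_self _ (gp_mem p t).1
  rw [prod_union (disjoint_of_subset_right hC disjoint_sdiff), prod_congr (s₁ := PQ w) rfl fun p hp => by
    rw [gp, if_pos ((Th_mono (mem_PQ.mp hp)).trans act)]] at h2
  have := mul_le_mul_of_nonneg_left ((le_V h3).trans (h1.trans_le h2)) (Th_pos w).le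
  rwa [← mul_assoc, Th_inv, one_mul] at this

theorem core {n M k j m w : ℕ} {y δ : ℝ} (y0 : 0 ≤ y) (y1 : y ≤ 1) (δ1 : δ ≤ 1) (hk : 1 ≤ k)
    (hkn : k < M) (hM : M ≤ n) (h2k : n ≤ 2 ^ k) (j0 : 0 < j) (hj : j ^ 2 ≤ w) (w2 : 2 ≤ w) (hw : w ≤ 2 ^ n)
    (act : Th w ≤ k * Real.log 2) (hm : Even m)
    (h1 : 8 * Th w * ((1 + Real.log n) / j + j / k) * (1 + Real.log w) ≤ δ)
    (h2 : 2 * (n * n * (n + 1) : ℕ) ≤ δ * w) (h3 : (1 / 2) ^ m * Th (j ^ 2) ^ 3 ≤ δ)
    (h4 : 2 * Th w * (((j ^ 2 : ℕ) : ℝ) ^ (3 * m) * Th (j ^ 2) ^ 2) ≤ k) :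
    Ex (PQ (2 ^ n)) (fun b => ∏ i ∈ range (M - (k + 1)), (1 - y * sI (PQ (2 ^ n)) b (vv n k i))) 0 ≤
      Real.exp (-((1 - δ) ^ 3 * (y / Real.log 2 * (Real.log M - Real.log (k + 2 : ℕ))) - 1)) := by
  classical
  have l2 := Real.log_two_gt_d9
  have κ0 := Th_pos w
  have k0 : (0 : ℝ) < k := by exact_mod_cast hk
  have w0 : (0 : ℝ) < w := by positivity
  have ln := Real.log_natCast_nonneg n
  have lw := Real.log_natCast_nonneg w
  obtain ⟨D, hD⟩ : ∃ D, D = (PQ (2 ^ n) \ PQ w).filter fun p : Pr =>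
    ¬ Set.InjOn (fun i => (vv n k i : ZMod p)) (range (n - k)) := ⟨_, rfl⟩
  have mD : ∀ p ∈ D, w < (p : ℕ) ∧ ¬ Set.InjOn (fun i => (vv n k i : ZMod p)) (range (n - k)) :=
    fun p hp => by
      rw [hD, mem_filter, mem_sdiff, mem_PQ, mem_PQ, not_le] at hp
      exact ⟨hp.1.2, hp.2⟩
  have sD : D ⊆ PQ (2 ^ n) \ PQ w := hD ▸ filter_subset _ _
  have sA : PQ (j ^ 2) ⊆ PQ w := fun p hp => mem_PQ.mpr ((mem_PQ.mp hp).trans hj)
  have dD : Disjoint (PQ w \ PQ (j ^ 2)) D :=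
    disjoint_of_subset_left sdiff_subset (disjoint_of_subset_right sD disjoint_sdiff)
  have hK : PQ (2 ^ n) = PQ (j ^ 2) ∪ (PQ w \ PQ (j ^ 2) ∪ D ∪ (PQ (2 ^ n) \ PQ w) \ D) := by
    rw [union_assoc, union_sdiff_of_subset sD, ← union_assoc, union_sdiff_of_subset sA,
      union_sdiff_of_subset fun p hp => mem_PQ.mpr ((mem_PQ.mp hp).trans hw)]
  have lg : ∀ i, Th w ≤ Real.log (vv n k i) ∧ Real.log (vv n k i) ≤ (k + i + 2 : ℕ) * Real.log 2 :=
    fun i => by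
      obtain ⟨a1, a2⟩ := vv_bd h2k i
      have a3 := Real.log_le_log (by positivity) ((Nat.cast_le (α := ℝ)).mpr a1)
      have a4 := Real.log_le_log (by exact_mod_cast (Nat.two_pow_pos _).trans_le a1)
        ((Nat.cast_le (α := ℝ)).mpr a2.le)
      rw [Nat.cast_pow, Real.log_pow, Nat.cast_ofNat] at a3 a4
      refine ⟨act.trans (le_trans ?_ a3), a4⟩
      gcongr
      omega
  obtain ⟨u, hu⟩ : ∃ u : ℕ → ℝ, u = fun i => y / Real.log 2 * Th w * ((k + i + 2 : ℕ) : ℝ)⁻¹ := ⟨_, rfl⟩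
  have yl : y / Real.log 2 ≤ 2 := by rw [div_le_iff₀ (by linarith)]; linarith
  have u0 : ∀ i, 0 ≤ u i := fun i => by rw [hu]; positivity
  have ua : Antitone u := fun a b h => by rw [hu]; dsimp only; gcongr
  have u1 : u 0 ≤ 2 * Th w / k := by
    rw [hu, div_eq_mul_inv (2 * _)]; dsimp only; gcongr; omega
  have U1 : ∑ i ∈ range (M - (k + 1)), u i ≤ 2 * Th w * (1 + Real.log n) := by
    refine le_trans ?_ (mul_le_mul_of_nonneg_left (harm_le n) (by positivity))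
    rw [mul_sum]
    refine (sum_le_sum fun i _ => ?_).trans (sum_le_sum_of_subset_of_nonneg
      (range_subset_range.mpr (tsub_le_self.trans hM)) fun _ _ _ => by positivity)
    rw [hu]; dsimp only; gcongr <;> omega
  have U2 : y / Real.log 2 * (Real.log M - Real.log (k + 2 : ℕ)) * Th w ≤
      ∑ i ∈ range (M - (k + 1)), u i := by
    have := log_le_sum (a := k + 2) (b := M + 1) (by omega) (by omega)
    rw [sum_Ico_eq_sum_range, show M + 1 - (k + 2) = M - (k + 1) by omega] at this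
    rw [hu, ← mul_sum, mul_right_comm]
    refine mul_le_mul_of_nonneg_left (le_trans ?_ (this.trans_eq (sum_congr rfl fun i _ => by
      rw [add_right_comm]))) (by positivity)
    gcongr
    · exact_mod_cast hk.trans hkn.le
    · omega
  obtain ⟨τ, hτ⟩ : ∃ τ, τ = 4 * Th w * ((1 + Real.log n) / j + j / k) := ⟨_, rfl⟩
  have τ0 : 0 ≤ τ := by rw [hτ]; positivity
  have τ2 : 2 * τ * (1 + Real.log w) ≤ δ := by rw [hτ]; linarith
  have τ1 : τ ≤ 1 := by nlinarith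
  rw [hK]
  refine comb ?_ ?_ _ _ (fun p hp => ?_) y0 y1 τ0 τ1 u0 (fun i hi => ?_) (fun p hp c => ?_) fun b => ?_
  · simp only [disjoint_union_right]
    exact ⟨⟨disjoint_sdiff, disjoint_of_subset_left sA (disjoint_of_subset_right sD disjoint_sdiff)⟩,
      disjoint_of_subset_left sA (disjoint_of_subset_right sdiff_subset disjoint_sdiff)⟩
  · exact disjoint_union_left.mpr ⟨disjoint_of_subset_left sdiff_subset
      (disjoint_of_subset_right sdiff_subset disjoint_sdiff), disjoint_sdiff⟩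
  · rw [mem_sdiff, hD, mem_filter, not_and, not_not] at hp
    exact (hp.2 hp.1).mono (coe_subset.mpr (range_subset_range.mpr (by omega)))
  · have i1 := mem_range.mp hi
    have a1 : 3 ≤ vv n k i := le_trans (le_trans (by norm_num)
      (Nat.pow_le_pow_right two_pos (show 2 ≤ k + i + 1 by omega))) (vv_bd h2k i).1
    refine le_trans ?_ (mul_le_mul_of_nonneg_left (good_ge a1 ((vv_bd h2k i).2.le.trans
      (Nat.pow_le_pow_right two_pos (by omega))) hw (lg i).1 sdiff_subset) y0)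
    have := div_le_div_of_nonneg_left κ0.le (κ0.trans_le (lg i).1) (lg i).2
    refine le_trans (le_of_eq ?_) (mul_le_mul_of_nonneg_left this y0)
    rw [hu]
    field_simp
  · have a1 : j ^ 2 ≤ p := (mem_union.mp hp).elim
      (fun h => (not_le.mp (mem_PQ.not.mp (mem_sdiff.mp h).2)).le) fun h => hj.trans (mD p h).1.le
    refine (sum_le_sum fun i hi => ?_).trans ((class_wt (2 ^ k) p (c - n + k + 1) j0 a1 u0 ua _).trans ?_)
    · rw [kp_eq (by have := mem_range.mp hi; omega)]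
      refine mul_le_mul_of_nonneg_left ?_ (u0 i)
      split_ifs
      exacts [le_rfl, (ph_mem _ _ _ _).1]
    · refine (add_le_add (mul_le_mul_of_nonneg_left U1 (by positivity))
        (mul_le_mul_of_nonneg_left u1 (by positivity))).trans_eq ?_
      rw [hτ]
      ring
  have b1 := brun (PQ (j ^ 2)) (vv n k) (M - (k + 1)) u0 ua hm b (fun S => TT S) fun S hS l hl => by
    rw [sum_congr rfl fun i hi => by rw [prod_congr rfl fun p hp => by
      rw [kp_eq (by have := mem_range.mp hi; omega), if_pos ((Th_mono (mem_PQ.mp (sA (hS hp)))).trans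
        (lg i).1)]]]
    exact disc (2 ^ k) S (fun p => b p - n + k + 1) l
  have b2 : u 0 * ∑ S ∈ (PQ (j ^ 2)).powerset, (if #S < m then (TT S : ℝ) else 0) ≤ 1 :=
    (mul_le_mul u1 (TT_sum _ m (Nat.pow_pos j0)) (sum_nonneg fun _ _ => by split_ifs <;> positivity)
      (by positivity)).trans (by
      rw [div_mul_eq_mul_div, div_le_one k0]; exact h4)
  have b3 := Th_inv (j ^ 2)
  have b4 := Th_inv w
  rw [← union_sdiff_of_subset sA, prod_union disjoint_sdiff] at b4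
  have b5 := rho_ge (PQ w \ PQ (j ^ 2)) τ0 τ1
  have b6 : 2 * τ * ∑ p ∈ PQ w \ PQ (j ^ 2), 1 / ((p : ℕ) : ℝ) ≤ δ := le_trans
    (mul_le_mul_of_nonneg_left ((sum_le_sum_of_subset_of_nonneg sdiff_subset
      fun _ _ _ => by positivity).trans (sum_inv_le w)) (by positivity)) τ2
  have b7 : 1 - δ ≤ ∏ p ∈ D, (1 - (1 + τ) * (1 / ((p : ℕ) : ℝ))) := by
    refine le_trans ?_
      (one_sub_sum_le_prod _ _ fun p _ => ⟨by positivity, by nlinarith [inv_le_half p]⟩)
    refine sub_le_sub_left ((sum_le_card_nsmul _ _ (2 / (w : ℝ)) fun p hp => ?_).trans ?_) _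
    · rw [mul_one_div]
      gcongr
      · linarith
      · exact (mD p hp).1.le
    · rw [nsmul_eq_mul, ← mul_div_assoc, div_le_iff₀ w0]
      have := (Nat.cast_le (α := ℝ)).mpr (bad_card h2k w2 D mD)
      linarith
  have b8 : (1 / 2) ^ m * ∏ p ∈ PQ (j ^ 2), (1 + 2 * (1 / ((p : ℕ) : ℝ))) ≤
      δ * ∏ p ∈ PQ (j ^ 2), (1 - 1 / ((p : ℕ) : ℝ)) := by
    refine le_of_mul_le_mul_left ?_ (Th_pos (j ^ 2))
    rw [mul_left_comm _ δ, b3, mul_one, mul_left_comm]
    refine le_trans (mul_le_mul_of_nonneg_left ?_ (by positivity)) h3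
    rw [pow_succ' _ 2]
    exact mul_le_mul_of_nonneg_left (Lam_le _) (Th_pos _).le
  have pm := fun Q : Finset Pr => prod_mem (K := Q) (g := fun p => 1 / ((p : ℕ) : ℝ)) fun p _ =>
    ⟨by positivity, (inv_le_half p).trans (by norm_num)⟩
  have S0 : 0 ≤ ∑ i ∈ range (M - (k + 1)), u i * sI (PQ (j ^ 2)) b (vv n k i) :=
    sum_nonneg fun i _ => mul_nonneg (u0 i) (sI_mem _ _ _).1
  have U0 : 0 ≤ ∑ i ∈ range (M - (k + 1)), u i := sum_nonneg fun i _ => u0 i
  obtain ⟨A0, -⟩ := pm (PQ (j ^ 2))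
  obtain ⟨B0, B1⟩ := pm (PQ w \ PQ (j ^ 2))
  rw [prod_union dD]
  generalize ∏ p ∈ PQ (j ^ 2), (1 - 1 / ((p : ℕ) : ℝ)) = VA at *
  generalize ∏ p ∈ PQ w \ PQ (j ^ 2), (1 - 1 / ((p : ℕ) : ℝ)) = VB at *
  generalize y / Real.log 2 * (Real.log M - Real.log (k + 2 : ℕ)) = H at *
  have d0 := sub_nonneg.mpr δ1
  have c1 := (mul_le_mul_of_nonneg_left (sub_le_sub_left b6 1) B0).trans b5
  have c2 := mul_le_mul c1 b7 d0 ((mul_nonneg B0 d0).trans c1)
  have c3 := mul_le_mul_of_nonneg_left (sub_le_sub_left b8 VA) U0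
  have c4 := mul_le_mul_of_nonneg_right U2 (mul_nonneg A0 d0)
  have c5 : VB * (1 - δ) * (1 - δ) ≤ 1 := mul_le_one₀ (mul_le_one₀ B1 d0 (by nlinarith)) d0 (by nlinarith)
  refine le_trans ?_ (mul_le_mul_of_nonneg_left c2 S0)
  refine le_trans ?_ (mul_le_mul_of_nonneg_right (show H * Th w * (VA * (1 - δ)) - 1 ≤ _ by linarith)
    (mul_nonneg (mul_nonneg B0 d0) d0))
  have : H * Th w * (VA * (1 - δ)) * (VB * (1 - δ) * (1 - δ)) = (1 - δ) ^ 3 * H := by
    linear_combination (1 - δ) ^ 3 * H * b4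
  linarith

end Pool.Agent.MP_fc7299_nt

end

-- part MP_fc7299_nt.Pot
section

/-!
Two-sided estimates for generating functions of the number of survivors, prime by prime.
-/

set_option autoImplicit false

namespace Pool.Agent.MP_fc7299_nt

open Finset Function Pool.Agent.MP_00acf4_nt
open scoped BigOperators

/-- Sets of allowed classes. -/
abbrev Ok : Type := ∀ p : Pr, ZMod p → Prop

open Classical in
/-- The indicator of an allowed class. -/
noncomputable def oI (ok : Ok) (p : Pr) (c : ZMod p) : ℝ := if ok p c then 1 else 0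

/-- The indicator that all classes are allowed. -/
noncomputable def gI (ok : Ok) (K : Finset Pr) (b : Om) : ℝ := ∏ p ∈ K, oI ok p (b p)

/-- The probability of surviving the primes of `K`. -/
noncomputable def pv (K : Finset Pr) (t : ℕ) : ℝ := ∏ p ∈ K, (1 - gp p t)

lemma oI_mem (ok : Ok) (p : Pr) (c : ZMod p) : 0 ≤ oI ok p c ∧ oI ok p c ≤ 1 := by
  unfold oI; split_ifs <;> norm_num

lemma gI_mem (ok : Ok) (K : Finset Pr) (b : Om) : 0 ≤ gI ok K b ∧ gI ok K b ≤ 1 :=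
  ⟨prod_nonneg fun _ _ => (oI_mem _ _ _).1,
    prod_le_one (fun _ _ => (oI_mem _ _ _).1) fun _ _ => (oI_mem _ _ _).2⟩

lemma gI_and (ok ok' : Ok) (K : Finset Pr) (b : Om) :
    gI (fun p c => ok p c ∧ ok' p c) K b = gI ok K b * gI ok' K b := by
  rw [gI, gI, gI, ← prod_mul_distrib]
  refine prod_congr rfl fun p _ => ?_
  unfold oI
  by_cases h : ok p (b p) <;> by_cases h' : ok' p (b p) <;> simp [h, h']

/-- The one-step inequality, with a sign `s`. -/
def Step (s : ℝ) (ok : Ok) (S : Finset ℕ) (α : ℕ → ℝ) (p : Pr) (ρ : ℝ) : Prop :=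
  ∀ a : ℕ → ℝ, (∀ t ∈ S, 0 ≤ a t ∧ a t ≤ α t) →
    s * 𝔼 c, oI ok p c * ∏ t ∈ S, (1 + a t * kp p t c) ≤ s * (ρ * ∏ t ∈ S, (1 + a t * gp p t))

theorem pot {s : ℝ} {ok : Ok} {S : Finset ℕ} {α : ℕ → ℝ} (K : Finset Pr) {ρ : Pr → ℝ}
    (ρ0 : ∀ p ∈ K, 0 ≤ ρ p) (h : ∀ p ∈ K, Step s ok S α p (ρ p)) (y : ℕ → ℝ)
    (hy : ∀ t ∈ S, 0 ≤ y t ∧ y t < 1 ∧ y t ≤ α t * (1 - y t)) (a : Om) :
    s * Ex K (fun b => gI ok K b * ∏ t ∈ S, (1 - y t * sI K b t)) a ≤
      s * ((∏ p ∈ K, ρ p) * ∏ t ∈ S, (1 - y t * pv K t)) := by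
  have mono : ∀ t ∈ S, ∀ y y' : ℝ, 0 ≤ y → y < 1 → y ≤ α t * (1 - y) → 0 ≤ y' → y' ≤ 1 →
      0 ≤ y * y' ∧ y * y' < 1 ∧ y * y' ≤ α t * (1 - y * y') := fun t _ y y' h1 h2 h3 h4 h5 => by
    have h6 := mul_le_of_le_one_right h1 h5
    have h7 : 0 ≤ α t := nonneg_of_mul_nonneg_left (h1.trans h3) (sub_pos.mpr h2)
    exact ⟨mul_nonneg h1 h4, h6.trans_lt h2, by nlinarith⟩
  induction K using Finset.induction_on generalizing y a with
  | empty => simp [Ex_empty, sI, gI, pv]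
  | insert p K hp ih =>
    have h0 := fun t ht => mono t ht _ _ (hy t ht).1 (hy t ht).2.1 (hy t ht).2.2 (gp_prod K t).1
      (gp_prod K t).2
    have h1 := h p (mem_insert_self _ _) (fun t => y t * pv K t / (1 - y t * pv K t)) fun t ht =>
      ⟨div_nonneg (h0 t ht).1 (sub_pos.mpr (h0 t ht).2.1).le,
        (div_le_iff₀ (sub_pos.mpr (h0 t ht).2.1)).mpr (h0 t ht).2.2⟩
    have e : ∀ (z : ℕ → ℝ), ∏ t ∈ S, (1 - y t * (1 - z t) * pv K t) = (∏ t ∈ S, (1 - y t * pv K t)) *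
        ∏ t ∈ S, (1 + y t * pv K t / (1 - y t * pv K t) * z t) := fun z => by
      rw [← prod_mul_distrib]
      refine prod_congr rfl fun t ht => ?_
      have : 1 - y t * pv K t ≠ 0 := (sub_pos.mpr (h0 t ht).2.1).ne'
      field_simp
      ring
    rw [Ex_insert hp, mul_expect]
    refine (expect_le_expect fun c _ => (?_ : _ = _).trans_le (mul_le_mul_of_nonneg_left
      (ih (fun q hq => ρ0 q (mem_insert_of_mem hq)) (fun q hq => h q (mem_insert_of_mem hq))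
        (fun t => y t * (1 - kp p t c)) (fun t ht => mono t ht _ _ (hy t ht).1 (hy t ht).2.1
          (hy t ht).2.2 (sub_nonneg.mpr (kp_mem p t c).2) (sub_le_self _ (kp_mem p t c).1))
            (update a p c)) (oI_mem ok p c).1)).trans ?_
    · rw [mul_left_comm, ← Ex_mul (oI ok p c)]
      congr 1
      refine Ex_congr fun b hb => ?_
      simp only [sI_insert hp hb, mul_assoc]
      rw [gI, prod_insert hp, hb p hp, update_self, gI, mul_assoc]
    have h2 := mul_le_mul_of_nonneg_left h1 (mul_nonneg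
      (prod_nonneg fun q hq => ρ0 q (mem_insert_of_mem hq))
        (prod_nonneg fun t ht => (sub_pos.mpr (h0 t ht).2.1).le))
    simp only [pv, prod_insert hp, ← mul_assoc (y _)]
    simp only [← pv.eq_1, e] at h2 ⊢
    refine le_trans (le_of_eq ?_) (h2.trans_eq (by ring))
    rw [mul_expect, mul_expect]
    exact expect_congr rfl fun c _ => by ring

theorem pot2 {s : ℝ} {ok : Ok} {S : Finset ℕ} {α α' : ℕ → ℝ} {B C : Finset Pr} (hd : Disjoint B C)
    {ρ : Pr → ℝ} (ρ0 : ∀ p ∈ B ∪ C, 0 ≤ ρ p) (h : ∀ p ∈ B, Step s ok S α p (ρ p))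
    (h' : ∀ p ∈ C, Step s ok S α' p (ρ p)) (y : ℕ → ℝ)
    (hy : ∀ t ∈ S, 0 ≤ y t ∧ y t < 1 ∧ y t ≤ α' t * (1 - y t) ∧
      y t * pv C t ≤ α t * (1 - y t * pv C t)) (a : Om) :
    s * Ex (B ∪ C) (fun b => gI ok (B ∪ C) b * ∏ t ∈ S, (1 - y t * sI (B ∪ C) b t)) a ≤
      s * ((∏ p ∈ B ∪ C, ρ p) * ∏ t ∈ S, (1 - y t * pv (B ∪ C) t)) := by
  have h1 := mul_le_mul_of_nonneg_left (pot B (fun p hp => ρ0 p (mem_union_left _ hp)) h
    (fun t => y t * pv C t) (fun t ht => ⟨mul_nonneg (hy t ht).1 (gp_prod C t).1,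
      (mul_le_of_le_one_right (hy t ht).1 (gp_prod C t).2).trans_lt (hy t ht).2.1, (hy t ht).2.2.2⟩) a)
        (prod_nonneg fun p hp => ρ0 p (mem_union_right B hp))
  rw [Ex_union hd, ← Ex_mul]
  refine le_trans ?_ (h1.trans_eq ?_)
  · rw [← Ex_mul, ← Ex_mul]
    refine Ex_mono fun b => (?_ : _ = _).trans_le ((mul_le_mul_of_nonneg_left (pot C
      (fun p hp => ρ0 p (mem_union_right _ hp)) h' (fun t => y t * sI B b t) (fun t ht => ?_) b)
        (gI_mem ok B b).1).trans_eq ?_)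
    · rw [mul_left_comm, ← Ex_mul (gI ok B b)]
      congr 1
      refine Ex_congr fun c hc => ?_
      have e : ∀ p ∈ B, c p = b p := fun p hp => hc p (disjoint_left.mp hd hp)
      simp only [← sI_congr e]
      simp only [sI, gI, prod_union hd, mul_assoc]
      rw [prod_congr rfl fun p hp => by rw [e p hp]]
    · have h2 := mul_le_of_le_one_right (hy t ht).1 (sI_mem B b t).2
      have h3 : 0 ≤ α' t :=
        nonneg_of_mul_nonneg_left ((hy t ht).1.trans (hy t ht).2.2.1) (sub_pos.mpr (hy t ht).2.1)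
      exact ⟨mul_nonneg (hy t ht).1 (sI_mem B b t).1, h2.trans_lt (hy t ht).2.1,
        by nlinarith [(hy t ht).2.2.1]⟩
    · simp only [mul_right_comm (y _)]
      ring
  · simp only [pv, prod_union hd, mul_assoc, mul_comm (∏ p ∈ C, (1 - gp p _))]
    ring

lemma one_add_sum_le {S : Finset ℕ} {b : ℕ → ℝ} (h : ∀ t ∈ S, 0 ≤ b t) :
    1 + ∑ t ∈ S, b t ≤ ∏ t ∈ S, (1 + b t) ∧ ∏ t ∈ S, (1 + b t) ≤
      1 + ∑ t ∈ S, b t + ((∑ t ∈ S, b t) ^ 2 - ∑ t ∈ S, b t ^ 2) * ∏ t ∈ S, (1 + b t) := by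
  induction S using Finset.induction_on with
  | empty => simp
  | insert t S ht ih =>
    obtain ⟨h1, h2⟩ := ih fun t ht => h t (mem_insert_of_mem ht)
    have h3 := h t (mem_insert_self _ _)
    have h4 : 0 ≤ ∑ t ∈ S, b t := sum_nonneg fun t ht => h t (mem_insert_of_mem ht)
    simp only [sum_insert ht, prod_insert ht]
    have h5 := mul_nonneg h3 h4
    have h6 := mul_le_mul_of_nonneg_left h1 (add_nonneg zero_le_one h3)
    refine ⟨by nlinarith, ?_⟩
    nlinarith [mul_le_mul_of_nonneg_left h2 (add_nonneg zero_le_one h3),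
      mul_le_mul_of_nonneg_left (show 1 ≤ (1 + b t) * ∏ t ∈ S, (1 + b t) by nlinarith) h5]

lemma expect_lin (S : Finset ℕ) (a : ℕ → ℝ) (p : Pr) :
    𝔼 c, ∑ t ∈ S, a t * kp p t c = ∑ t ∈ S, a t * gp p t := by
  rw [expect_sum_comm]
  exact sum_congr rfl fun t _ => by rw [← mul_expect, expect_kp]

/-- The expected number of ordered pairs removed together. -/
noncomputable def col (T : Finset ℕ) (p : Pr) : ℝ :=
  𝔼 c, ((∑ t ∈ T, kp p t c) ^ 2 - ∑ t ∈ T, kp p t c)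

lemma sum_kp (T : Finset ℕ) (p : Pr) (c : ZMod p) : ∃ m : ℕ, ∑ t ∈ T, kp p t c = m ∧
    ∀ L : ℝ, ∏ t ∈ T, (1 + L * kp p t c) = (1 + L) ^ m := by
  classical
  refine ⟨#(T.filter fun t : ℕ => Th p ≤ Real.log t ∧ (t : ZMod p) = c), by simp [kp], fun L => ?_⟩
  rw [← prod_const, prod_filter]
  refine prod_congr rfl fun t _ => ?_
  rw [kp]
  split_ifs <;> simp

lemma pair_nonneg (m : ℕ) : (0 : ℝ) ≤ (m : ℝ) ^ 2 - m := by
  rw [sub_nonneg]
  exact_mod_cast Nat.le_self_pow two_ne_zero m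

lemma col_nonneg (T : Finset ℕ) (p : Pr) : 0 ≤ col T p := expect_nonneg fun c _ => by
  obtain ⟨m, h, -⟩ := sum_kp T p c
  exact h ▸ pair_nonneg m

lemma step_low {ok : Ok} {S T : Finset ℕ} {α : ℕ → ℝ} {A : ℝ} (hA : ∑ t ∈ S, α t ≤ A) (p : Pr)
    (h : ∀ c, ∑ t ∈ T, kp p t c ≤ 1 → ok p c) :
    Step (-1) ok S α p (1 - ((A * (1 / ((p : ℕ) : ℝ))) ^ 2 + (1 + A) * col T p)) := fun a ha => by
  have g0 := fun t ht => mul_nonneg (ha t ht).1 (gp_mem p t).1
  have a1 : ∑ t ∈ S, a t ≤ A := (sum_le_sum fun t ht => (ha t ht).2).trans hA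
  have a0 : 0 ≤ A := (sum_nonneg fun t ht => (ha t ht).1).trans a1
  have h1 : 1 + ∑ t ∈ S, a t * gp p t - (1 + A) * col T p ≤
      𝔼 c, oI ok p c * ∏ t ∈ S, (1 + a t * kp p t c) := by
    rw [col, mul_expect, ← expect_lin, ← Fintype.expect_const (ι := ZMod p) (1 : ℝ),
      ← expect_add_distrib, Fintype.expect_const, ← expect_sub_distrib]
    refine expect_le_expect fun c _ => ?_
    have h2 := (one_add_sum_le fun t ht => mul_nonneg (ha t ht).1 (kp_mem p t c).1).1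
    have h3 : ∑ t ∈ S, a t * kp p t c ≤ A :=
      (sum_le_sum fun t ht => mul_le_of_le_one_right (ha t ht).1 (kp_mem p t c).2).trans a1
    obtain ⟨m, hm, -⟩ := sum_kp T p c
    have h4 := h c
    rw [hm] at h4 ⊢
    rw [oI]
    split_ifs with h5
    · nlinarith [pair_nonneg m]
    · have : (2 : ℝ) ≤ m := by exact_mod_cast Nat.one_lt_cast.mp (not_le.mp (mt h4 h5))
      nlinarith [mul_le_mul_of_nonneg_left (show 1 ≤ (m : ℝ) ^ 2 - m by nlinarith) (add_nonneg zero_le_one a0)]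
  have h2 := (one_add_sum_le g0).1
  have h3 : ∏ t ∈ S, (1 + a t * gp p t) ≤ Real.exp (∑ t ∈ S, a t * gp p t) := by
    rw [Real.exp_sum]
    exact prod_le_prod (fun t ht => by linarith [g0 t ht])
      fun t _ => by linarith [Real.add_one_le_exp (a t * gp p t)]
  have h4 : ∑ t ∈ S, a t * gp p t ≤ A * (1 / ((p : ℕ) : ℝ)) := by
    refine le_trans ?_ (mul_le_mul_of_nonneg_right a1 (by positivity))
    rw [sum_mul]
    exact sum_le_sum fun t ht => mul_le_mul_of_nonneg_left (gp_mem p t).2 (ha t ht).1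
  have h5 := sum_nonneg g0
  have h6 := mul_nonneg (add_nonneg zero_le_one a0) (col_nonneg T p)
  generalize ∑ t ∈ S, a t * gp p t = σ at *
  generalize ∏ t ∈ S, (1 + a t * gp p t) = R at *
  have h7 : (1 - σ) * R ≤ 1 := by
    rcases le_total σ 1 with h8 | h8
    · have := mul_le_mul (Real.one_sub_le_exp_neg σ) h3 (by linarith) (Real.exp_pos _).le
      rwa [← Real.exp_add, neg_add_cancel, Real.exp_zero] at this
    · nlinarith
  nlinarith [mul_le_mul_of_nonneg_left h7 (add_nonneg zero_le_one h5), mul_le_mul_of_nonneg_right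
    (pow_le_pow_left₀ h5 h4 2) (show 0 ≤ R by linarith), mul_le_mul_of_nonneg_left
      (show 1 ≤ R by linarith) h6]

lemma step_up {ok : Ok} {S T : Finset ℕ} (hT : T ⊆ S) {α : ℕ → ℝ} {A L τ : ℝ} (L0 : 0 ≤ L) (τ1 : τ ≤ 1)
    (hA : ∑ t ∈ S, α t ≤ A) (hL : ∀ t ∈ T, α t ≤ L) (p : Pr)
    (hτ : ∀ c, ∑ t ∈ S \ T, α t * kp p t c ≤ τ) (h : ∀ c, ok p c → ∑ t ∈ T, kp p t c ≤ 2) :
    Step 1 ok S α p (1 + 3 * (1 + L) ^ 2 * (L ^ 2 * col T p + 2 * τ * (A * (1 / ((p : ℕ) : ℝ))))) :=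
  fun a ha => by
  have g0 := fun t ht => mul_nonneg (ha t ht).1 (gp_mem p t).1
  have a1 : ∑ t ∈ S, a t ≤ A := (sum_le_sum fun t ht => (ha t ht).2).trans hA
  have a0 : 0 ≤ A := (sum_nonneg fun t ht => (ha t ht).1).trans a1
  have τ0 : 0 ≤ τ := (sum_nonneg fun t ht => mul_nonneg ((ha t (mem_sdiff.mp ht).1).1.trans
    (ha t (mem_sdiff.mp ht).1).2) (kp_mem p t 0).1).trans (hτ 0)
  have h4 : ∑ t ∈ S, a t * gp p t ≤ A * (1 / ((p : ℕ) : ℝ)) := by
    refine le_trans ?_ (mul_le_mul_of_nonneg_right a1 (by positivity))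
    rw [sum_mul]
    exact sum_le_sum fun t ht => mul_le_mul_of_nonneg_left (gp_mem p t).2 (ha t ht).1
  have h1 : 𝔼 c, oI ok p c * ∏ t ∈ S, (1 + a t * kp p t c) ≤ 1 + ∑ t ∈ S, a t * gp p t +
      3 * (1 + L) ^ 2 * (L ^ 2 * col T p + 2 * τ * ∑ t ∈ S, a t * gp p t) := by
    rw [col, mul_expect, ← expect_lin, mul_expect, ← expect_add_distrib, mul_expect,
      ← Fintype.expect_const (ι := ZMod p) (1 : ℝ), ← expect_add_distrib, Fintype.expect_const,
      ← expect_add_distrib]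
    refine expect_le_expect fun c _ => ?_
    have k0 := fun t ht => mul_nonneg (ha t ht).1 (kp_mem p t c).1
    obtain ⟨m, hm, hm'⟩ := sum_kp T p c
    have s0 := sum_nonneg k0
    have m0 := pair_nonneg m
    rw [oI]
    split_ifs with h5
    swap
    · rw [zero_mul, hm]
      positivity
    have b0 := sum_nonneg fun t ht => k0 t (mem_sdiff.mp (show t ∈ S \ T from ht)).1
    have b1 : ∑ t ∈ S \ T, a t * kp p t c ≤ τ := (sum_le_sum fun t ht => mul_le_mul_of_nonneg_right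
      (ha t (mem_sdiff.mp ht).1).2 (kp_mem p t c).1).trans (hτ c)
    have b2 : ∏ t ∈ S, (1 + a t * kp p t c) ≤ 3 * (1 + L) ^ 2 := by
      rw [← prod_sdiff hT]
      refine mul_le_mul (le_trans ?_ ((Real.exp_le_exp.mpr (b1.trans τ1)).trans
        Real.exp_one_lt_three.le)) ((prod_le_prod (fun t ht => by linarith [k0 t (hT ht)])
          fun t ht => ?_).trans ((hm' L).trans_le (pow_le_pow_right₀ (by linarith)
            (by exact_mod_cast hm ▸ h c h5)))) (prod_nonneg fun t ht => by linarith [k0 t (hT ht)])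
              (by norm_num)
      · rw [Real.exp_sum]
        exact prod_le_prod (fun t ht => by linarith [k0 t (mem_sdiff.mp ht).1])
          fun t _ => by linarith [Real.add_one_le_exp (a t * kp p t c)]
      · linarith [mul_le_mul_of_nonneg_right ((ha t (hT ht)).2.trans (hL t ht)) (kp_mem p t c).1]
    have b3 : (∑ t ∈ T, a t * kp p t c) ^ 2 - ∑ t ∈ T, (a t * kp p t c) ^ 2 ≤
        L ^ 2 * ((∑ t ∈ T, kp p t c) ^ 2 - ∑ t ∈ T, kp p t c) := by
      rw [sq, sq (∑ t ∈ T, _), sum_mul, sum_mul, ← sum_sub_distrib, ← sum_sub_distrib, mul_sum]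
      refine sum_le_sum fun t ht => ?_
      have c1 := (ha t (hT ht)).2.trans (hL t ht)
      have c2 : ∑ t ∈ T.erase t, a t * kp p t c ≤ L * ∑ t ∈ T.erase t, kp p t c := by
        rw [mul_sum]
        exact sum_le_sum fun t ht => mul_le_mul_of_nonneg_right
          ((ha t (hT (mem_of_mem_erase ht))).2.trans (hL t (mem_of_mem_erase ht))) (kp_mem p t c).1
      have c3 := mul_le_mul c1 c2 (sum_nonneg fun t ht => k0 t (hT (mem_of_mem_erase ht))) L0
      rw [← add_sum_erase _ _ ht, ← add_sum_erase _ _ ht, kp]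
      split_ifs <;> nlinarith
    have b4 : (∑ t ∈ S, a t * kp p t c) ^ 2 - ∑ t ∈ S, (a t * kp p t c) ^ 2 ≤
        L ^ 2 * ((∑ t ∈ T, kp p t c) ^ 2 - ∑ t ∈ T, kp p t c) + 2 * τ * ∑ t ∈ S, a t * kp p t c := by
      rw [← sum_sdiff hT, ← sum_sdiff hT]
      have c1 := sum_nonneg fun t ht => k0 t (hT ht)
      have c2 : 0 ≤ ∑ t ∈ S \ T, (a t * kp p t c) ^ 2 := sum_nonneg fun _ _ => sq_nonneg _
      nlinarith [mul_le_mul_of_nonneg_right b1 b0, mul_le_mul_of_nonneg_right b1 c1]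
    have b5 := (one_add_sum_le k0).2
    have b6 := mul_le_mul b4 b2 (prod_nonneg fun t ht => by linarith [k0 t ht]) (by rw [hm]; positivity)
    linarith
  have h2 := (one_add_sum_le g0).1
  have h3 := col_nonneg T p
  have h5 := sum_nonneg g0
  have h6 : 3 * (1 + L) ^ 2 * (L ^ 2 * col T p + 2 * τ * ∑ t ∈ S, a t * gp p t) ≤
    3 * (1 + L) ^ 2 * (L ^ 2 * col T p + 2 * τ * (A * (1 / ((p : ℕ) : ℝ)))) := by gcongr
  nlinarith [mul_le_mul_of_nonneg_left (show 1 ≤ ∏ t ∈ S, (1 + a t * gp p t) by linarith)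
    (show 0 ≤ 3 * (1 + L) ^ 2 * (L ^ 2 * col T p + 2 * τ * (A * (1 / ((p : ℕ) : ℝ)))) by positivity)]

lemma col_sum {T : Finset ℕ} {r z : ℕ} (hT : ∀ t ∈ T, t ≤ 2 ^ r) (hz : 2 ≤ z) {K : Finset Pr}
    (hK : ∀ p ∈ K, z < (p : ℕ)) : ∑ p ∈ K, col T p ≤ #T ^ 2 * (r / z) := by
  have z0 : (0 : ℝ) < z := by positivity
  have h : ∀ p ∈ K, col T p ≤ ∑ t ∈ T, ∑ t' ∈ T.erase t,
      if (t : ZMod p) = t' then 1 / (z : ℝ) else 0 := fun p hp => by
    have e : ∀ c, (∑ t ∈ T, kp p t c) ^ 2 - ∑ t ∈ T, kp p t c =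
        ∑ t ∈ T, ∑ t' ∈ T.erase t, kp p t c * kp p t' c := fun c => by
      rw [sq, sum_mul, ← sum_sub_distrib]
      refine sum_congr rfl fun t ht => ?_
      rw [← add_sum_erase _ _ ht, ← mul_sum, kp]
      split_ifs <;> ring
    simp only [col, e, expect_sum_comm]
    refine sum_le_sum fun t _ => sum_le_sum fun t' _ => ?_
    split_ifs with h
    · refine (expect_le_expect fun c _ => mul_le_of_le_one_right (kp_mem p t c).1
        (kp_mem p t' c).2).trans ((expect_kp p t).trans_le ((gp_mem p t).2.trans ?_))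
      exact one_div_le_one_div_of_le z0 (by exact_mod_cast (hK p hp).le)
    · refine (expect_eq_zero fun c _ => ?_).le
      by_cases h3 : (t : ZMod p) = c
      · exact mul_eq_zero_of_right _ (if_neg fun h4 => h (h3.trans h4.2.symm))
      · exact mul_eq_zero_of_left (if_neg fun h4 => h3 h4.2) _
  refine (sum_le_sum h).trans ?_
  rw [sum_comm, sq, mul_assoc, ← nsmul_eq_mul]
  refine sum_le_card_nsmul _ _ _ fun t ht => ?_
  rw [sum_comm]
  refine (sum_le_card_nsmul _ _ (r / (z : ℝ)) fun t' ht' => ?_).trans ?_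
  · rw [← sum_filter, sum_const, nsmul_eq_mul, mul_one_div]
    gcongr
    exact few_div le_rfl (ne_of_mem_erase ht').symm (hT t ht) (hT t' (mem_of_mem_erase ht')) _
      fun p hp => ⟨hz.trans_lt (hK p (mem_filter.mp hp).1), (mem_filter.mp hp).2⟩
  · rw [nsmul_eq_mul]
    gcongr
    exact erase_subset _ _

end Pool.Agent.MP_fc7299_nt

end

-- part MP_fc7299_nt.Two
section

/-!
First and second moments of the generating functions given the classes of the small primes.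
-/

set_option autoImplicit false

namespace Pool.Agent.MP_fc7299_nt

open Finset Function Pool.Agent.MP_00acf4_nt
open scoped BigOperators

/-- Size conditions on a set of integers. -/
structure Nice (z r R N k : ℕ) (α : ℕ → ℝ) (A L τ : ℝ) (S : Finset ℕ) : Prop where
  top : ∀ t ∈ S, t ≤ 2 ^ R
  card : #S ≤ N
  tiny : #(S.filter (· ≤ 2 ^ r)) ≤ k
  sum : ∑ t ∈ S, α t ≤ A
  bd : ∀ t ∈ S, α t ≤ L
  cls : ∀ p : Pr, z < (p : ℕ) → ∀ c, ∑ t ∈ S.filter (¬ · ≤ 2 ^ r), α t * kp p t c ≤ τ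

/-- The classes that contain at most one of the watched elements. -/
def okS (w r : ℕ) (S : Finset ℕ) : Ok := fun p c =>
  ∑ t ∈ S.filter (fun t => (p : ℕ) ≤ w → t ≤ 2 ^ r), kp p t c ≤ 1

lemma sum_union_le {S S' : Finset ℕ} {f : ℕ → ℝ} (h : ∀ t, 0 ≤ f t) :
    ∑ t ∈ S ∪ S', f t ≤ ∑ t ∈ S, f t + ∑ t ∈ S', f t := by
  linarith [sum_union_inter (s₁ := S) (s₂ := S') (f := f), sum_nonneg fun t (_ : t ∈ S ∩ S') => h t]

variable {z r R N k w : ℕ} {α y : ℕ → ℝ} {A L L' τ ε : ℝ} {S S' : Finset ℕ} {B C : Finset Pr}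

lemma Nice.union (α0 : ∀ t, 0 ≤ α t) (h : Nice z r R N k α A L τ S) (h' : Nice z r R N k α A L τ S') :
    Nice z r R (2 * N) (2 * k) α (2 * A) L (2 * τ) (S ∪ S') where
  top := forall_mem_union.mpr ⟨h.top, h'.top⟩
  card := (card_union_le _ _).trans (by linarith [h.card, h'.card])
  tiny := by rw [filter_union]; exact (card_union_le _ _).trans (by linarith [h.tiny, h'.tiny])
  sum := (sum_union_le α0).trans (by linarith [h.sum, h'.sum])
  bd := forall_mem_union.mpr ⟨h.bd, h'.bd⟩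
  cls p hp c := by
    rw [filter_union]
    exact (sum_union_le fun t => mul_nonneg (α0 t) (kp_mem _ _ _).1).trans
      (by linarith [h.cls p hp c, h'.cls p hp c])

lemma inv_sum {K : Finset Pr} (h : ∀ p ∈ K, (p : ℕ) ≤ w) :
    ∑ p ∈ K, 1 / ((p : ℕ) : ℝ) ≤ 1 + Real.log w :=
  (sum_le_sum_of_subset_of_nonneg (fun p hp => mem_PQ.mpr (h p hp)) fun _ _ _ => by positivity).trans
    (sum_inv_le w)

lemma Nice.colB (h : Nice z r R N k α A L τ S) (hz : 2 ≤ z) (hB : ∀ p ∈ B, z < (p : ℕ)) :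
    ∑ p ∈ B, col (S.filter (· ≤ 2 ^ r)) p ≤ (k : ℝ) ^ 2 * (r / z) :=
  (col_sum (fun _ ht => (mem_filter.mp ht).2) hz hB).trans (by have := h.tiny; gcongr)

lemma Nice.colC (h : Nice z r R N k α A L τ S) (hw : 2 ≤ w) (hC : ∀ p ∈ C, w < (p : ℕ)) :
    ∑ p ∈ C, col S p ≤ (N : ℝ) ^ 2 * (R / w) :=
  (col_sum h.top hw hC).trans (by have := h.card; gcongr)

theorem upper {ok : Ok} (h : Nice z r R N k α A L' τ S) (hz : 2 ≤ z) (hw : 2 ≤ w) (L0 : 0 ≤ L)
    (L1 : 0 ≤ L') (A0 : 0 ≤ A) (τ0 : 0 ≤ τ) (τ1 : τ ≤ 1) (hB : ∀ p ∈ B, z < (p : ℕ) ∧ (p : ℕ) ≤ w)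
    (hC : ∀ p ∈ C, w < (p : ℕ))
    (hok : ∀ p c, ok p c → ∑ t ∈ S.filter (fun t => (p : ℕ) ≤ w → t ≤ 2 ^ r), kp p t c ≤ 2)
    (hy : ∀ t ∈ S, 0 ≤ y t ∧ y t < 1 ∧ y t ≤ L * (1 - y t) ∧ y t * pv C t ≤ α t * (1 - y t * pv C t))
    (hε : 3 * (1 + L') ^ 2 * (L' ^ 2 * (k ^ 2 * (r / z)) + 2 * τ * (A * (1 + Real.log w))) +
      3 * (1 + L) ^ 2 * (L ^ 2 * (N ^ 2 * (R / w))) ≤ ε) (a : Om) :
    Ex (B ∪ C) (fun b => gI ok (B ∪ C) b * ∏ t ∈ S, (1 - y t * sI (B ∪ C) b t)) a ≤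
      Real.exp ε * ∏ t ∈ S, (1 - y t * pv (B ∪ C) t) := by
  have hd : Disjoint B C := disjoint_left.mpr fun p h1 h2 => (hC p h2).not_ge (hB p h1).2
  obtain ⟨e, he⟩ : ∃ e : Pr → ℝ, e = fun p : Pr => if (p : ℕ) ≤ w then 3 * (1 + L') ^ 2 * (L' ^ 2 *
    col (S.filter (· ≤ 2 ^ r)) p + 2 * τ * (A * (1 / ((p : ℕ) : ℝ)))) else 3 * (1 + L) ^ 2 *
      (L ^ 2 * col S p + 2 * 0 * ((∑ t ∈ S, L) * (1 / ((p : ℕ) : ℝ)))) := ⟨_, rfl⟩
  have e0 : ∀ p, 0 ≤ e p := fun p => by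
    have := col_nonneg S p
    have := col_nonneg (S.filter (· ≤ 2 ^ r)) p
    rw [he]
    dsimp only
    split_ifs <;> positivity
  have h1 := pot2 (s := 1) (ok := ok) (α := α) (α' := fun _ => L) hd (ρ := fun p => 1 + e p)
    (fun p _ => by linarith [e0 p]) (fun p hp => by
      simp only [he, if_pos (hB p hp).2]
      refine step_up (filter_subset _ _) L1 τ1 h.sum (fun t ht => h.bd t (mem_filter.mp ht).1) p
        (fun c => ?_) fun c hc => by simpa [(hB p hp).2] using hok p c hc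
      rw [← filter_not]
      exact h.cls p (hB p hp).1 c) (fun p hp => by
      simp only [he, if_neg (hC p hp).not_ge]
      exact step_up Subset.rfl L0 zero_le_one le_rfl (fun _ _ => le_rfl) p (fun c => by simp)
        fun c hc => by simpa [(hC p hp).not_ge] using hok p c hc) y hy a
  rw [one_mul, one_mul] at h1
  refine h1.trans (mul_le_mul_of_nonneg_right ((Real.prod_one_add_le_exp_sum _ e0).trans
    (Real.exp_le_exp.mpr (le_trans ?_ hε))) (prod_nonneg fun t ht => sub_nonneg.mpr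
      (mul_le_one₀ (hy t ht).2.1.le (gp_prod _ _).1 (gp_prod _ _).2)))
  rw [sum_union hd, he, sum_congr rfl fun p hp => if_pos (hB p hp).2,
    sum_congr rfl fun p hp => if_neg (hC p hp).not_ge]
  simp only [mul_zero, zero_mul, add_zero, ← mul_sum, sum_add_distrib]
  have := h.colB hz fun p hp => (hB p hp).1
  have := h.colC hw hC
  have := inv_sum fun p hp => (hB p hp).2
  gcongr

theorem lower (h : Nice z r R N k α A L' τ S) (hz : 2 ≤ z) (hw : 2 ≤ w) (L0 : 0 ≤ L) (A0 : 0 ≤ A)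
    (hB : ∀ p ∈ B, z < (p : ℕ) ∧ (p : ℕ) ≤ w) (hC : ∀ p ∈ C, w < (p : ℕ) ∧ (p : ℕ) ≤ 2 ^ R)
    (hy : ∀ t ∈ S, 0 ≤ y t ∧ y t < 1 ∧ y t ≤ L * (1 - y t) ∧ y t * pv C t ≤ α t * (1 - y t * pv C t))
    (hε : A ^ 2 / z * (1 + Real.log w) + (1 + A) * (k ^ 2 * (r / z)) +
      ((L * N) ^ 2 / w * (1 + R) + (1 + L * N) * (N ^ 2 * (R / w))) ≤ ε) (ε1 : ε ≤ 1) (a : Om) :
    (1 - ε) * ∏ t ∈ S, (1 - y t * pv (B ∪ C) t) ≤
      Ex (B ∪ C) (fun b => gI (okS w r S) (B ∪ C) b * ∏ t ∈ S, (1 - y t * sI (B ∪ C) b t)) a := by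
  have hd : Disjoint B C := disjoint_left.mpr fun p h1 h2 => (hC p h2).1.not_ge (hB p h1).2
  obtain ⟨e, he⟩ : ∃ e : Pr → ℝ, e = fun p : Pr => if (p : ℕ) ≤ w then (A * (1 / ((p : ℕ) : ℝ))) ^ 2 +
    (1 + A) * col (S.filter (· ≤ 2 ^ r)) p else (L * N * (1 / ((p : ℕ) : ℝ))) ^ 2 +
      (1 + L * N) * col S p := ⟨_, rfl⟩
  have e0 : ∀ p, 0 ≤ e p := fun p => by
    have := col_nonneg S p
    have := col_nonneg (S.filter (· ≤ 2 ^ r)) p
    rw [he]
    dsimp only
    split_ifs <;> positivity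
  have sq : ∀ (K : Finset Pr) (x : ℝ) (u v : ℕ), 0 < u → (∀ p ∈ K, u < (p : ℕ) ∧ (p : ℕ) ≤ v) →
      ∑ p ∈ K, (x * (1 / ((p : ℕ) : ℝ))) ^ 2 ≤ x ^ 2 / u * (1 + Real.log v) := fun K x u v u0 hK => by
    refine le_trans ?_ (mul_le_mul_of_nonneg_left (inv_sum fun p hp => (hK p hp).2) (by positivity))
    rw [mul_sum]
    refine sum_le_sum fun p hp => ?_
    rw [mul_pow, pow_two (1 / ((p : ℕ) : ℝ)), ← mul_assoc]
    refine mul_le_mul_of_nonneg_right ?_ (by positivity)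
    rw [mul_one_div]
    gcongr
    exact (hK p hp).1.le
  have e1 : ∑ p ∈ B ∪ C, e p ≤ ε := by
    rw [sum_union hd, he, sum_congr rfl fun p hp => if_pos (hB p hp).2,
      sum_congr rfl fun p hp => if_neg (hC p hp).1.not_ge]
    simp only [← mul_sum, sum_add_distrib]
    have := h.colB hz fun p hp => (hB p hp).1
    have := h.colC hw fun p hp => (hC p hp).1
    have h1 : Real.log (2 ^ R : ℕ) ≤ R := by
      rw [Nat.cast_pow, Real.log_pow, Nat.cast_ofNat]
      exact mul_le_of_le_one_right (by positivity) (by linarith [Real.log_two_lt_d9])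
    refine le_trans (add_le_add (add_le_add (sq _ _ _ _ (by omega) hB) ?_)
      (add_le_add ((sq _ _ _ _ (by omega) hC).trans ?_) ?_)) hε <;> gcongr
  have e2 : ∀ p ∈ B ∪ C, e p ≤ 1 := fun p hp =>
    (single_le_sum (fun p _ => e0 p) hp).trans (e1.trans ε1)
  have h1 := pot2 (s := -1) (ok := okS w r S) (α := α) (α' := fun _ => L) hd (ρ := fun p => 1 - e p)
    (fun p hp => sub_nonneg.mpr (e2 p hp)) (fun p hp => by
      simp only [he, if_pos (hB p hp).2]
      exact step_low h.sum p fun c hc => by simpa [okS, (hB p hp).2] using hc) (fun p hp => by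
      simp only [he, if_neg (hC p hp).1.not_ge]
      refine step_low ?_ p fun c hc => by simpa [okS, (hC p hp).1.not_ge] using hc
      rw [sum_const, nsmul_eq_mul, mul_comm]
      have := h.card
      gcongr) y hy a
  rw [neg_one_mul, neg_one_mul, neg_le_neg_iff] at h1
  exact (mul_le_mul_of_nonneg_right ((sub_le_sub_left e1 1).trans (one_sub_sum_le_prod _ _
    fun p hp => ⟨e0 p, e2 p hp⟩)) (prod_nonneg fun t ht => sub_nonneg.mpr
      (mul_le_one₀ (hy t ht).2.1.le (gp_prod _ _).1 (gp_prod _ _).2))).trans h1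

end Pool.Agent.MP_fc7299_nt

end

-- part MP_fc7299_nt.Sec
section

/-!
The truncated second moment argument.
-/

set_option autoImplicit false

namespace Pool.Agent.MP_fc7299_nt

open Finset Function Pool.Agent.MP_00acf4_nt
open scoped BigOperators

lemma second {K : Finset Pr} {F : Finset ℕ} {X : ℕ → Om → ℝ} {μ : ℕ → ℝ} {ε : ℝ} {a : Om}
    (m0 : 0 < ∑ n ∈ F, μ n) (h1 : ∀ n ∈ F, (1 - ε) * μ n ≤ Ex K (X n) a) (h2 : ∀ n ∈ F,
      ∑ n' ∈ F, Ex K (fun b => X n b * X n' b) a ≤ μ n * ((1 + ε) * ∑ n ∈ F, μ n)) :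
    Ex K (fun b => (1 - (∑ n ∈ F, μ n)⁻¹ * ∑ n ∈ F, X n b) ^ 2) a ≤ 3 * ε := by
  have h3 := sum_le_sum h1
  have h4 := sum_le_sum h2
  rw [← mul_sum] at h3
  rw [← sum_mul] at h4
  generalize ∑ n ∈ F, μ n = m at *
  have e : ∀ b, (1 - m⁻¹ * ∑ n ∈ F, X n b) ^ 2 = 1 - 2 * m⁻¹ * ∑ n ∈ F, X n b +
      m⁻¹ ^ 2 * ∑ n ∈ F, ∑ n' ∈ F, X n b * X n' b := fun b => by rw [← sum_mul_sum]; ring
  simp only [e, Ex_add, Ex_sub, Ex_mul, Ex_const, Ex_sum]
  have h5 := mul_le_mul_of_nonneg_left h3 (inv_pos.mpr m0).le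
  have h6 := mul_le_mul_of_nonneg_left h4 (sq_nonneg m⁻¹)
  rw [show m⁻¹ * ((1 - ε) * m) = 1 - ε by field_simp] at h5
  rw [show m⁻¹ ^ 2 * (m * ((1 + ε) * m)) = 1 + ε by field_simp] at h6
  linarith

lemma sur_pow (K : Finset Pr) (b : Om) (S : Finset ℕ) (y : ℝ) :
    ∏ t ∈ S, (1 - y * sI K b t) = (1 - y) ^ #(sur K b S) := by
  classical
  rw [sur, ← prod_const, prod_filter]
  refine prod_congr rfl fun t _ => ?_
  split_ifs with h
  · rw [sI, prod_eq_one fun p hp => by rw [kp, if_neg fun h1 => h p hp h1.1 h1.2, sub_zero], mul_one]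
  · simp only [Surv, not_forall, not_not, exists_prop] at h
    obtain ⟨p, hp, h1⟩ := h
    rw [sI, prod_eq_zero hp (by rw [kp, if_pos h1, sub_self]), mul_zero, sub_zero]

lemma ratio {S : Finset ℕ} {s : ℕ → ℝ} {η y y' : ℝ} (η1 : η ≤ 1 / 2) (hs : ∀ t ∈ S, 0 ≤ s t ∧ s t ≤ η)
    (h0 : 0 ≤ y') (h1 : y' ≤ y) (h2 : y ≤ 1) :
    ∏ t ∈ S, (1 - y' * s t) ≤ (∏ t ∈ S, (1 - y * s t)) * Real.exp ((1 + 2 * η) * (y - y') * ∑ t ∈ S, s t) ∧
    ∏ t ∈ S, (1 - y * s t) ≤ (∏ t ∈ S, (1 - y' * s t)) * Real.exp (-((y - y') * ∑ t ∈ S, s t)) := by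
  simp only [mul_sum, ← sum_neg_distrib, Real.exp_sum, ← prod_mul_distrib]
  have h3 : ∀ t ∈ S, ∀ x, 0 ≤ x → x ≤ 1 → x * s t ≤ η := fun t ht x x0 x1 =>
    (mul_le_of_le_one_left (hs t ht).1 x1).trans (hs t ht).2
  refine ⟨prod_le_prod (fun t ht => by linarith [h3 t ht y' h0 (h1.trans h2)]) fun t ht => ?_,
    prod_le_prod (fun t ht => by linarith [h3 t ht y (h0.trans h1) h2]) fun t ht => ?_⟩
  · have a1 := h3 t ht y (h0.trans h1) h2
    have a2 := mul_nonneg (sub_nonneg.mpr h1) (hs t ht).1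
    have a3 := (hs t ht).1.trans (hs t ht).2
    refine le_trans ?_ (mul_le_mul_of_nonneg_left (Real.add_one_le_exp _) (by linarith))
    nlinarith [mul_le_mul_of_nonneg_left (show 1 ≤ (1 - y * s t) * (1 + 2 * η) by nlinarith) a2]
  · refine le_trans ?_ (mul_le_mul_of_nonneg_left (Real.add_one_le_exp _)
      (by linarith [h3 t ht y' h0 (h1.trans h2)]))
    nlinarith [mul_nonneg (mul_nonneg (sub_nonneg.mpr h1) (hs t ht).1) (mul_nonneg h0 (hs t ht).1)]

theorem cond {z r R N k w D b0 b1 : ℕ} {α : ℕ → ℝ} {A L L' τ ε η y y' y'' q1 q2 Λ1 Λ2 : ℝ}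
    {F : Finset ℕ} {S : ℕ → Finset ℕ} {Q B C : Finset Pr} {a : Om} (hd : Disjoint Q (B ∪ C))
    (hF : F.Nonempty) (h : ∀ n ∈ F, Nice z r R N k α A L' τ (S n)) (α0 : ∀ t, 0 ≤ α t) (hz : 2 ≤ z)
    (hw : 2 ≤ w) (L0 : 0 ≤ L) (L1 : 0 ≤ L') (A0 : 0 ≤ A) (τ0 : 0 ≤ τ) (τ1 : 2 * τ ≤ 1)
    (hB : ∀ p ∈ B, z < (p : ℕ) ∧ (p : ℕ) ≤ w) (hC : ∀ p ∈ C, w < (p : ℕ) ∧ (p : ℕ) ≤ 2 ^ R)
    (hπ : ∀ n ∈ F, ∀ t ∈ S n, L * pv C t ≤ α t ∧ pv (B ∪ C) t ≤ η) (η0 : 0 ≤ η) (η1 : η ≤ 1 / 2)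
    (y0 : 0 ≤ y') (y1 : y' ≤ y) (y2 : y ≤ y'') (y3 : y'' < 1) (y4 : y'' ≤ L * (1 - y''))
    (e1 : 3 * (1 + L') ^ 2 * (L' ^ 2 * ((2 * k : ℕ) ^ 2 * (r / z)) + 2 * (2 * τ) * (2 * A *
      (1 + Real.log w))) + 3 * (1 + L) ^ 2 * (L ^ 2 * ((2 * N : ℕ) ^ 2 * (R / w))) ≤ ε)
    (e2 : A ^ 2 / z * (1 + Real.log w) + (1 + A) * (k ^ 2 * (r / z)) +
      ((L * N) ^ 2 / w * (1 + R) + (1 + L * N) * (N ^ 2 * (R / w))) ≤ ε) (ε1 : ε ≤ 1)
    (hD : ∀ n ∈ F, #(F.filter fun n' => ¬ Disjoint (S n) (S n')) ≤ D)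
    (hΛ : ∀ n ∈ F, Λ1 ≤ ∑ t ∈ S n, sI Q a t * pv (B ∪ C) t ∧ ∑ t ∈ S n, sI Q a t * pv (B ∪ C) t ≤ Λ2)
    (q0 : 0 ≤ q1) (q0' : 0 ≤ q2) (t1 : ∀ m, b1 ≤ m → (1 - y) ^ m ≤ q1 * (1 - y') ^ m)
    (t2 : ∀ m < b0, (1 - y) ^ m ≤ q2 * (1 - y'') ^ m)
    (t3 : q1 * Real.exp ((1 + 2 * η) * (y - y') * Λ2) ≤ ε) (t4 : q2 * Real.exp (-((y'' - y) * Λ1)) ≤ ε)
    (t5 : D * (1 - y) ^ b0 ≤ ε * (#F * Real.exp (-((1 + 2 * η) * y * Λ2)))) {f : Om → ℝ}
    (hf : ∀ b, f b = 0 ∨ f b = 1 ∧ ∀ n ∈ F, b1 ≤ #(sur (Q ∪ (B ∪ C)) b (S n))) :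
    Ex (B ∪ C) f a ≤ 21 * ε := by
  have ε0 : 0 ≤ ε := le_trans (by positivity) t3
  have y5 := y0.trans y1
  have y6 := y2.trans_lt y3
  have s0 : ∀ n ∈ F, ∀ t ∈ S n, 0 ≤ sI Q a t * pv (B ∪ C) t ∧ sI Q a t * pv (B ∪ C) t ≤ η :=
    fun n hn t ht => ⟨mul_nonneg (sI_mem _ _ _).1 (gp_prod _ _).1,
      (mul_le_of_le_one_left (gp_prod _ _).1 (sI_mem _ _ _).2).trans (hπ n hn t ht).2⟩
  have hy : ∀ x, 0 ≤ x → x ≤ y'' → ∀ n ∈ F, ∀ t ∈ S n, 0 ≤ x * sI Q a t ∧ x * sI Q a t < 1 ∧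
      x * sI Q a t ≤ L * (1 - x * sI Q a t) ∧
        x * sI Q a t * pv C t ≤ α t * (1 - x * sI Q a t * pv C t) := fun x x0 x1 n hn t ht => by
    have a1 := mul_nonneg x0 (sI_mem Q a t).1
    have a2 := (mul_le_of_le_one_right x0 (sI_mem Q a t).2).trans x1
    have a3 : 0 ≤ pv C t ∧ pv C t ≤ 1 := gp_prod C t
    generalize x * sI Q a t = u at a1 a2
    have a4 : u ≤ L * (1 - u) := by nlinarith
    have a5 := mul_le_of_le_one_right a1 a3.2
    refine ⟨a1, a2.trans_lt y3, a4, le_trans ?_ (mul_le_mul_of_nonneg_right (hπ n hn t ht).1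
      (by linarith))⟩
    nlinarith [mul_le_mul_of_nonneg_right a4 a3.1, mul_nonneg (mul_nonneg L0 a3.1) (sub_nonneg.mpr a5)]
  have cv : ∀ (x : ℝ) (T : Finset ℕ) (g : Om → ℝ), Ex (B ∪ C) (fun b => g b * (1 - x) ^
      #(sur (Q ∪ (B ∪ C)) b T)) a = Ex (B ∪ C) (fun b => g b *
        ∏ t ∈ T, (1 - x * sI Q a t * sI (B ∪ C) b t)) a := fun x T g => Ex_congr fun b hb => by
    rw [← sur_pow]
    simp only [← sI_congr fun p hp => hb p (disjoint_left.mp hd hp)]
    simp only [sI, prod_union hd, mul_assoc]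
  obtain ⟨μ, hμ⟩ : ∃ μ : ℝ → ℕ → ℝ, ∀ x n,
    μ x n = ∏ t ∈ S n, (1 - x * (sI Q a t * pv (B ∪ C) t)) := ⟨_, fun _ _ => rfl⟩
  obtain ⟨W, hW⟩ : ∃ W : ℝ → ℕ → Om → ℝ, ∀ x n b, W x n b =
    gI (okS w r (S n)) (B ∪ C) b * (1 - x) ^ #(sur (Q ∪ (B ∪ C)) b (S n)) := ⟨_, fun _ _ _ => rfl⟩
  have W0 : ∀ x < 1, ∀ n b, 0 ≤ W x n b := fun x x1 n b =>
    hW x n b ▸ mul_nonneg (gI_mem _ _ _).1 (pow_nonneg (by linarith) _)
  have ee : Real.exp ε ≤ 1 + 2 * ε := by
    have := Real.abs_exp_sub_one_le (x := ε) (by rwa [abs_of_nonneg ε0])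
    rw [abs_of_nonneg ε0] at this
    linarith [le_abs_self (Real.exp ε - 1)]
  have m1 : ∀ n ∈ F, Real.exp (-((1 + 2 * η) * y * Λ2)) ≤ μ y n := fun n hn => by
    have := (ratio η1 (s0 n hn) le_rfl y5 y6.le).1
    simp only [zero_mul, sub_zero, prod_const_one, ← hμ] at this
    rw [Real.exp_neg, inv_le_iff_one_le_mul₀ (Real.exp_pos _)]
    refine this.trans (mul_le_mul_of_nonneg_left ?_ (nonneg_of_mul_nonneg_left (zero_le_one.trans this)
      (Real.exp_pos _)))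
    gcongr
    exact (hΛ n hn).2
  have m0 := fun n hn => (Real.exp_pos _).trans_le (m1 n hn)
  have U1 : ∀ x, 0 ≤ x → x ≤ y'' → ∀ n ∈ F, Ex (B ∪ C) (W x n) a ≤ 3 * μ x n := fun x x0 x1 n hn => by
    have := upper (ok := okS w r (S n)) (union_self (S n) ▸ (h n hn).union α0 (h n hn)) hz hw L0 L1
      (by positivity) (by positivity) τ1 hB (fun p hp => (hC p hp).1) (fun p c h => h.trans one_le_two)
        (hy x x0 x1 n hn) e1 a
    rw [funext (hW x n), cv, hμ]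
    simp only [← mul_assoc]
    exact this.trans (mul_le_mul_of_nonneg_right (by linarith) (prod_nonneg fun t ht => sub_nonneg.mpr
      (mul_le_one₀ (hy x x0 x1 n hn t ht).2.1.le (gp_prod _ _).1 (gp_prod _ _).2)))
  have U2 : ∀ n ∈ F, ∀ n' ∈ F, Disjoint (S n) (S n') →
      Ex (B ∪ C) (fun b => W y n b * W y n' b) a ≤ μ y n * ((1 + 2 * ε) * μ y n') :=
    fun n hn n' hn' hh => by
      have := upper (ok := fun p c => okS w r (S n) p c ∧ okS w r (S n') p c)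
        ((h n hn).union α0 (h n' hn')) hz hw L0 L1 (by positivity) (by positivity) τ1 hB
          (fun p hp => (hC p hp).1) (fun p c h => by
            rw [filter_union]
            exact (sum_union_le fun t => (kp_mem _ _ _).1).trans ((add_le_add h.1 h.2).trans_eq
              one_add_one_eq_two)) (forall_mem_union.mpr ⟨hy y y5 y2 n hn, hy y y5 y2 n' hn'⟩) e1 a
      rw [← cv] at this
      simp only [gI_and, ← sur_pow, prod_union hh, mul_assoc y, ← hμ] at this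
      simp only [hW, ← sur_pow, mul_mul_mul_comm (gI _ _ _)]
      refine this.trans ?_
      rw [mul_left_comm]
      have := m0 n hn
      have := m0 n' hn'
      gcongr
  have M0 := sum_pos m0 hF
  obtain ⟨X, hX⟩ : ∃ X : ℕ → Om → ℝ, ∀ n b, X n b = if b0 ≤ #(sur (Q ∪ (B ∪ C)) b (S n)) ∧
    #(sur (Q ∪ (B ∪ C)) b (S n)) < b1 then W y n b else 0 := ⟨_, fun _ _ => rfl⟩
  have X0 : ∀ n b, 0 ≤ X n b ∧ X n b ≤ W y n b ∧ X n b ≤ (1 - y) ^ b0 := fun n b => by
    rw [hX]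
    split_ifs with h1
    · refine ⟨W0 y y6 n b, le_rfl, ?_⟩
      rw [hW]
      exact (mul_le_of_le_one_left (pow_nonneg (by linarith) _) (gI_mem _ _ _).2).trans
        (pow_le_pow_of_le_one (by linarith) (by linarith) h1.1)
    · exact ⟨le_rfl, W0 y y6 n b, pow_nonneg (by linarith) _⟩
  refine (Ex_mono fun b => ?_).trans ((second (X := X) (ε := 7 * ε) M0 (fun n hn => ?_)
    fun n hn => ?_).trans_eq (by ring))
  · rcases hf b with h1 | h1
    · exact h1.trans_le (sq_nonneg _)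
    · rw [sum_eq_zero fun n hn => (hX n b).trans (if_neg fun h2 => (h1.2 n hn).not_gt h2.2), h1.1]
      simp
  · have a1 := lower (h n hn) hz hw L0 A0 hB hC (hy y y5 y2 n hn) e2 ε1 a
    rw [← cv] at a1
    simp only [← hW, mul_assoc y, ← hμ] at a1
    have a2 : Ex (B ∪ C) (fun b => W y n b - q1 * W y' n b - q2 * W y'' n b) a ≤
        Ex (B ∪ C) (X n) a := Ex_mono fun b => by
      have c1 := mul_nonneg q0 (W0 y' (y1.trans_lt y6) n b)
      have c2 := mul_nonneg q0' (W0 y'' y3 n b)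
      rw [hX]
      split_ifs with h1
      · linarith
      simp only [hW] at c1 c2 ⊢
      rcases not_and_or.mp h1 with h2 | h2
      · linarith [mul_le_mul_of_nonneg_left (t2 _ (not_le.mp h2)) (gI_mem (okS w r (S n)) (B ∪ C) b).1]
      · linarith [mul_le_mul_of_nonneg_left (t1 _ (not_lt.mp h2)) (gI_mem (okS w r (S n)) (B ∪ C) b).1]
    rw [Ex_sub, Ex_sub, Ex_mul, Ex_mul] at a2
    have a3 := (ratio η1 (s0 n hn) y0 y1 y6.le).1
    have a4 := (ratio η1 (s0 n hn) y5 y2 y3.le).2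
    simp only [← hμ] at a3 a4
    have a5 := (m0 n hn).le
    have a6 : q1 * μ y' n ≤ μ y n * ε := by
      refine (mul_le_mul_of_nonneg_left a3 q0).trans ?_
      rw [mul_left_comm]
      refine mul_le_mul_of_nonneg_left (le_trans ?_ t3) a5
      have := sub_nonneg.mpr y1
      gcongr
      exact (hΛ n hn).2
    have a7 : q2 * μ y'' n ≤ μ y n * ε := by
      refine (mul_le_mul_of_nonneg_left a4 q0').trans ?_
      rw [mul_left_comm]
      refine mul_le_mul_of_nonneg_left (le_trans ?_ t4) a5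
      have := sub_nonneg.mpr y2
      gcongr
      exact (hΛ n hn).1
    linarith [mul_le_mul_of_nonneg_left (U1 y' y0 (y1.trans y2) n hn) q0,
      mul_le_mul_of_nonneg_left (U1 y'' (y5.trans y2) le_rfl n hn) q0']
  have a5 := (m0 n hn).le
  have a1 : ∀ n' ∈ F, Ex (B ∪ C) (fun b => X n b * X n' b) a ≤ μ y n * ((1 + 2 * ε) * μ y n') +
      if ¬ Disjoint (S n) (S n') then (1 - y) ^ b0 * (3 * μ y n) else 0 := fun n' hn' => by
    have := (m0 n' hn').le
    split_ifs with h1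
    · rw [add_zero]
      exact (Ex_mono fun b => mul_le_mul (X0 n b).2.1 (X0 n' b).2.1 (X0 n' b).1 (W0 y y6 n b)).trans
        (U2 n hn n' hn' h1)
    · refine le_add_of_nonneg_of_le (by positivity) ((Ex_mono fun b => (mul_le_mul (X0 n b).2.1
        (X0 n' b).2.2 (X0 n' b).1 (W0 y y6 n b)).trans_eq (mul_comm _ _)).trans ?_)
      rw [Ex_mul]
      exact mul_le_mul_of_nonneg_left (U1 y y5 y2 n hn) (pow_nonneg (by linarith) _)
  refine (sum_le_sum a1).trans ?_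
  rw [sum_add_distrib, ← mul_sum, ← mul_sum, ← sum_filter, sum_const, nsmul_eq_mul]
  have a2 := mul_le_mul_of_nonneg_right ((Nat.cast_le (α := ℝ)).mpr (hD n hn))
    (pow_nonneg (sub_nonneg.mpr y6.le) b0)
  have a3 := card_nsmul_le_sum F _ _ m1
  rw [nsmul_eq_mul] at a3
  have a4 := mul_le_mul_of_nonneg_left ((a2.trans t5).trans (mul_le_mul_of_nonneg_left a3 ε0)) a5
  nlinarith [mul_nonneg a5 (mul_nonneg ε0 M0.le)]

end Pool.Agent.MP_fc7299_nt

end

-- part MP_fc7299_nt.Lam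
section

/-!
The sets of the numbers `2 ^ x + (n - x)` satisfy the size conditions.
-/

set_option autoImplicit false

namespace Pool.Agent.MP_fc7299_nt

open Finset Function Pool.Agent.MP_00acf4_nt
open scoped BigOperators

lemma vv_mono (n k : ℕ) : StrictMono (vv n k) := strictMono_nat_of_lt_succ fun i => by
  have := Nat.pow_le_pow_right two_pos (show 1 ≤ k + i + 1 by omega)
  rw [vv, vv, ← add_assoc, pow_succ _ (k + i + 1)]
  omega

lemma vv_shift (n k i : ℕ) : vv n 0 (k + i) = vv n k i := by rw [vv, vv, zero_add]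

lemma le_vv (n k i : ℕ) : 2 ^ (k + i + 1) ≤ vv n k i ∧ n ≤ vv n k i := by
  have := Nat.lt_two_pow_self (n := k + i + 1)
  rw [vv]
  omega

lemma vv_le {n k i : ℕ} (h : k + i + 1 < n) : vv n k i ≤ 2 ^ n := by
  obtain ⟨m, rfl⟩ : ∃ m, n = m + 1 := ⟨n - 1, by omega⟩
  have := Nat.lt_two_pow_self (n := m)
  have := Nat.pow_le_pow_right two_pos (show k + i + 1 ≤ m by omega)
  rw [vv, pow_succ _ m]
  omega

lemma log_vv (n k i : ℕ) : (k + i + 1 : ℕ) * Real.log 2 ≤ Real.log (vv n k i) := by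
  have := Real.log_le_log (by positivity) ((Nat.cast_le (α := ℝ)).mpr (le_vv n k i).1)
  rwa [Nat.cast_pow, Real.log_pow, Nat.cast_ofNat] at this

lemma div_log_vv {c : ℝ} (hc : 0 ≤ c) (n k i : ℕ) :
    c / Real.log (vv n k i) ≤ 2 * c * ((k + i + 1 : ℕ) : ℝ)⁻¹ := by
  have := Real.log_two_gt_d9
  refine (div_le_div_of_nonneg_left hc (by positivity) (log_vv n k i)).trans ?_
  rw [← div_eq_mul_inv, div_le_div_iff₀ (by positivity) (by positivity)]
  nlinarith [mul_nonneg hc (Nat.cast_nonneg (α := ℝ) (k + i + 1))]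

/-- The numbers `2 ^ x + (n - x)` for `0 < x < M`. -/
def SS (n M : ℕ) : Finset ℕ := (range (M - 1)).image (vv n 0)

lemma sum_SS (n M : ℕ) (f : ℕ → ℝ) : ∑ t ∈ SS n M, f t = ∑ i ∈ range (M - 1), f (vv n 0 i) :=
  sum_image (vv_mono n 0).injective.injOn

lemma mem_SS {n M t : ℕ} (hM : M ≤ n) (h : t ∈ SS n M) : n ≤ t ∧ t ≤ 2 ^ n := by
  obtain ⟨i, hi, rfl⟩ := mem_image.mp h
  exact ⟨(le_vv _ _ _).2, vv_le (by have := mem_range.mp hi; omega)⟩

lemma harm_le' {a b : ℕ} (k : ℕ) (h : a ≤ b) :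
    ∑ i ∈ range a, ((k + i + 1 : ℕ) : ℝ)⁻¹ ≤ 1 + Real.log b :=
  ((sum_le_sum fun i _ => by gcongr; omega).trans (sum_le_sum_of_subset_of_nonneg
    (range_subset_range.mpr h) fun _ _ _ => by positivity)).trans (harm_le b)

theorem nice {n M R k j z : ℕ} {c : ℝ} (hc : 0 ≤ c) (n3 : 3 ≤ n) (hM : M ≤ n) (hR : n ≤ R)
    (hk : n ≤ 2 ^ k) (j0 : 0 < j) (hj : j ^ 2 ≤ z) :
    Nice z (k + 1) R R (k + 1) (fun t => c / Real.log t) (2 * c * (1 + Real.log R)) c
      (2 / j * (2 * c * (1 + Real.log R)) + 2 * j * (2 * c * ((k + 0 + 1 : ℕ) : ℝ)⁻¹)) (SS n M) where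
  top t ht := (mem_SS hM ht).2.trans (Nat.pow_le_pow_right two_pos hR)
  card := card_image_le.trans (by rw [card_range]; omega)
  tiny := by
    refine (card_le_card (t := (range (k + 1)).image (vv n 0)) fun t ht => ?_).trans
      (card_image_le.trans (card_range _).le)
    obtain ⟨i, -, rfl⟩ := mem_image.mp (mem_filter.mp ht).1
    have := (Nat.pow_le_pow_iff_right one_lt_two).mp ((le_vv n 0 i).1.trans (mem_filter.mp ht).2)
    exact mem_image_of_mem _ (mem_range.mpr (by omega))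
  sum := by
    rw [sum_SS]
    refine (sum_le_sum fun i _ => div_log_vv hc n 0 i).trans ?_
    rw [← mul_sum]
    exact mul_le_mul_of_nonneg_left (harm_le' 0 (by omega)) (by positivity)
  bd t ht := div_le_self hc (one_le_log (n3.trans (mem_SS hM ht).1))
  cls p hp d := by
    have h0 : ∀ t : ℕ, 0 ≤ c / Real.log t * kp p t d := fun t =>
      mul_nonneg (div_nonneg hc (Real.log_natCast_nonneg t)) (kp_mem _ _ _).1
    rw [sum_filter, sum_SS]
    refine (sum_le_sum_of_subset_of_nonneg (range_subset_range.mpr (show M - 1 ≤ k + (n - k) by omega))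
      fun i _ _ => by split_ifs; exacts [le_rfl, h0 _]).trans ?_
    rw [sum_range_add, sum_eq_zero fun i hi => if_neg (not_not.mpr ?_), zero_add]
    · refine (sum_le_sum fun i hi => ?_).trans ((class_wt (2 ^ k) p (d - n + k + 1) j0 (hj.trans hp.le)
        (u := fun i => 2 * c * ((k + i + 1 : ℕ) : ℝ)⁻¹) (fun _ => by positivity)
          (fun a b h => by dsimp only; gcongr) (n - k)).trans ?_)
      · rw [vv_shift]
        split_ifs
        · exact mul_nonneg (by positivity) (ph_mem _ _ _ _).1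
        refine mul_le_mul (div_log_vv hc n k i) ?_ (kp_mem _ _ _).1 (by positivity)
        rw [kp_eq (mem_range.mp hi)]
        split_ifs
        exacts [le_rfl, (ph_mem _ _ _ _).1]
      · rw [← mul_sum]
        have := harm_le' (a := n - k) (b := R) k (by omega)
        gcongr
    · have := Nat.pow_le_pow_right two_pos (show 0 + i + 1 ≤ k by have := mem_range.mp hi; omega)
      rw [vv, pow_succ _ k]
      omega

lemma pv_le {t N w : ℕ} (h3 : 3 ≤ t) (ht : t ≤ N) (hw : w ≤ N) : pv (PQ N \ PQ w) t ≤ Th w * V t := by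
  have h1 : V t = ∏ p ∈ PQ N, (1 - gp p t) := (V_eq ht).trans (prod_congr rfl fun p _ => by
    rw [gp]; simp only [act_iff h3]; split_ifs <;> simp)
  rw [h1, ← prod_sdiff fun p hp => mem_PQ.mpr ((mem_PQ.mp hp).trans hw), mul_left_comm]
  refine le_mul_of_one_le_right (gp_prod _ _).1 ((Th_inv w).ge.trans (mul_le_mul_of_nonneg_left
    (prod_le_prod (fun p _ => by linarith [inv_le_half p]) fun p _ => ?_) (Th_pos w).le))
  linarith [(gp_mem p t).2]

lemma V_le' {t z : ℕ} (h3 : 3 ≤ t) (z0 : 0 < z) (h : Th z ≤ Real.log t) :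
    V t ≤ (1 + 1 / z) / Real.log t := by
  have h1 := not_le.mp fun h => Nat.not_succ_le_self _ ((act_iff (p := zz t + 1) h3).mp h)
  have h2 := one_le_log h3
  have h4 := Th_pos (zz t)
  have h5 : (z : ℝ) ≤ zz t := by exact_mod_cast (act_iff h3).mp h
  rw [V, inv_eq_one_div, div_le_div_iff₀ h4 (by linarith), one_mul]
  refine h1.le.trans ?_
  rw [Th_eq (zz t + 1), Nat.primesLE_succ]
  split_ifs with h6
  · rw [prod_insert (Nat.notMem_primesLE _), ← Th_eq]
    push_cast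
    rw [add_sub_cancel_right]
    gcongr
  · rw [← Th_eq]
    exact le_mul_of_one_le_left h4.le (le_add_of_nonneg_right (by positivity))

lemma bad_pairs {P n : ℕ} (M : ℕ → ℕ) (hM : ∀ n ∈ Ico (2 ^ P) (2 * 2 ^ P), M n ≤ n)
    (hn : n ∈ Ico (2 ^ P) (2 * 2 ^ P)) :
    #((Ico (2 ^ P) (2 * 2 ^ P)).filter fun n' => ¬ Disjoint (SS n (M n)) (SS n' (M n'))) ≤
      (P + 2) * (P + 2) := by
  have key : ∀ a b i j : ℕ, j < i → b < a + 2 ^ P → 2 ^ (i + 1) + a + j = 2 ^ (j + 1) + b + i →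
      i < P + 2 := fun a b i j h1 h2 h3 => by
    by_contra! h4
    obtain ⟨m, rfl⟩ : ∃ m, i = m + 1 := ⟨i - 1, by omega⟩
    have := Nat.lt_two_pow_self (n := m)
    have := Nat.pow_le_pow_right two_pos (show P ≤ m by omega)
    have := Nat.pow_le_pow_right two_pos (show j + 1 ≤ m + 1 by omega)
    simp only [pow_succ _ (m + 1), pow_succ _ m] at *
    omega
  refine (card_le_card (t := (range (P + 2) ×ˢ range (P + 2)).image fun x =>
    2 ^ (x.1 + 1) + n + x.2 - (2 ^ (x.2 + 1) + x.1)) fun n' h => ?_).trans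
      (card_image_le.trans (by simp))
  obtain ⟨h1, h2⟩ := mem_filter.mp h
  obtain ⟨t, h3, h4⟩ := not_disjoint_iff.mp h2
  obtain ⟨i, hi, rfl⟩ := mem_image.mp h3
  obtain ⟨j, hj, h5⟩ := mem_image.mp h4
  have := hM n hn
  have := hM n' h1
  simp only [mem_range, mem_Ico, vv, zero_add] at hi hj h5 hn h1
  rcases lt_trichotomy i j with h6 | rfl | h6
  · have := key n' n j i h6 (by omega) (by omega)
    exact mem_image.mpr ⟨(i, j), by simp; omega, by simp only; omega⟩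
  · exact mem_image.mpr ⟨(0, 0), by simp, by simp only; omega⟩
  · have := key n n' i j h6 (by omega) (by omega)
    exact mem_image.mpr ⟨(i, j), by simp; omega, by simp only; omega⟩

theorem brun2 {n k z m B : ℕ} {δ : ℝ} (k0 : 0 < k) (z0 : 0 < z) (hB : B ≤ n - k)
    (act : Th z ≤ Real.log n) (n0 : 0 < n) (h3 : (1 / 2) ^ m * Th z ^ 3 ≤ δ)
    (h4 : 4 * Th z * ((z : ℝ) ^ (3 * m) * Th z ^ 2) ≤ k) {u : ℕ → ℝ} (u0 : ∀ x, 0 ≤ u x)
    (hu : Antitone u) (u1 : u 0 ≤ 4 / k) (b : Om) : -(δ * ∑ i ∈ range B, u i) - 1 ≤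
      (-1) ^ m * (∑ i ∈ range B, Th z * u i * sI (PQ z) b (vv n k i) - ∑ i ∈ range B, u i) := by
  have T0 := Th_pos z
  have h1 := (bonf (PQ z) (fun p => 1 / ((p : ℕ) : ℝ)) (fun p _ =>
    ⟨by positivity, (inv_le_half p).trans (by norm_num)⟩) m).2
  have h2 := fun i => mul_nonneg (mul_nonneg T0.le (u0 i))
    (bonf (PQ z) (fun p => kp p (vv n k i) (b p)) (fun p _ => kp_mem _ _ _) m).1
  have h5 := sum_nonneg fun i (_ : i ∈ range B) => h2 i
  have U0 : 0 ≤ ∑ i ∈ range B, u i := sum_nonneg fun i _ => u0 i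
  have h6 := mul_le_mul_of_nonneg_left ((mul_le_mul_of_nonneg_left (h1.trans (mul_le_mul_of_nonneg_left
    (Lam_le z) (by positivity))) T0.le).trans ((by ring : _ = _).trans_le h3)) U0
  have h7 : -(u 0 * ∑ S ∈ (PQ z).powerset, if #S < m then (TT S : ℝ) else 0) ≤ (-1) ^ m *
      (∑ i ∈ range B, u i * Tr m (PQ z) (fun p => kp p (vv n k i) (b p)) -
        (∑ i ∈ range B, u i) * Tr m (PQ z) fun p => 1 / ((p : ℕ) : ℝ)) := by
    simp only [Tr, mul_sum]
    rw [sum_comm, ← sum_sub_distrib, mul_sum, ← sum_neg_distrib]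
    refine sum_le_sum fun S hS => ?_
    split_ifs
    swap
    · simp
    have a1 : ∀ l ≤ B, ∑ i ∈ range l, -((-1) ^ (m + #S) * (∏ p ∈ S, kp p (vv n k i) (b p) -
        ∏ p ∈ S, 1 / ((p : ℕ) : ℝ))) ≤ TT S := fun l hl => by
      rw [sum_neg_distrib, ← mul_sum]
      refine (neg_le_abs _).trans ?_
      rw [abs_mul, abs_neg_one_pow, one_mul, sum_congr rfl fun i hi => by
        rw [prod_congr rfl fun p hp => by rw [kp_eq (by have := mem_range.mp hi; omega), if_pos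
          (((Th_mono (mem_PQ.mp (mem_powerset.mp hS hp))).trans act).trans
            (Real.log_le_log (by positivity) (by exact_mod_cast (le_vv n k i).2)))]]]
      exact disc (2 ^ k) S (fun p => b p - n + k + 1) l
    have a2 := abel' (u := u) B (fun i _ => hu i.le_succ) a1
    have a3 := mul_le_mul_of_nonneg_right (a1 B le_rfl) (u0 B)
    refine le_trans (by linarith) (neg_le_neg (a2.trans (add_le_add_right a3 _))) |>.trans_eq ?_
    rw [sum_mul, ← sum_sub_distrib, mul_sum, ← sum_neg_distrib]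
    exact sum_congr rfl fun i _ => by ring
  have h8 : Th z * (u 0 * ∑ S ∈ (PQ z).powerset, if #S < m then (TT S : ℝ) else 0) ≤ 1 :=
    (mul_le_mul_of_nonneg_left (mul_le_mul u1 (TT_sum z m z0) (sum_nonneg fun _ _ => by
      split_ifs <;> positivity) (by positivity)) T0.le).trans (by
        rw [div_mul_eq_mul_div, ← mul_div_assoc, div_le_one (by positivity)]; linarith)
  have h9 := mul_le_mul_of_nonneg_left h7 T0.le
  simp only [mul_sub, sum_sub_distrib, mul_left_comm _ ((-1 : ℝ) ^ m), ← mul_sum, mul_assoc,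
    ← sI.eq_1] at h5 h6 h9 ⊢
  rw [Th_inv] at h6
  linarith

theorem lam {n M R k z m : ℕ} {δ : ℝ} (δ1 : δ ≤ 1) (n3 : 3 ≤ n) (k0 : 0 < k) (z0 : 0 < z) (hk : k < M)
    (hM : M ≤ n) (hR : n ≤ R) (h2k : n ≤ 2 ^ k) (hz : z ≤ 2 ^ R) (act : Th z ≤ Real.log n) (hm : Even m)
    (h3 : (1 / 2) ^ m * Th z ^ 3 ≤ δ) (h4 : 4 * Th z * ((z : ℝ) ^ (3 * (m + 1)) * Th z ^ 2) ≤ k) (a : Om) :
    (1 - δ) * ((Real.log M - Real.log (k + 2 : ℕ)) / Real.log 2) - 1 ≤
      ∑ t ∈ SS n M, sI (PQ z) a t * pv (PQ (2 ^ R) \ PQ z) t ∧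
    ∑ t ∈ SS n M, sI (PQ z) a t * pv (PQ (2 ^ R) \ PQ z) t ≤ 4 * Th z * (1 + Real.log k) +
      ((1 + δ) * ((1 + 1 / z) * (1 + Real.log M) / Real.log 2) + 1) := by
  have l2 := Real.log_two_gt_d9
  have T0 := Th_pos z
  have z1 : (1 : ℝ) ≤ z := by exact_mod_cast z0
  have δ0 : 0 ≤ δ := le_trans (by positivity) h3
  have top : ∀ k i, k + i + 1 < n → vv n k i ≤ 2 ^ R := fun k i h =>
    (vv_le h).trans (Nat.pow_le_pow_right two_pos hR)
  have ac : ∀ i, Th z ≤ Real.log (vv n k i) := fun i =>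
    act.trans (Real.log_le_log (by positivity) (by exact_mod_cast (le_vv n k i).2))
  have hu : ∀ (c : ℝ) (e : ℕ), 0 ≤ c → c ≤ 2 → Antitone (fun i => c / Real.log 2 * ((k + i + e : ℕ) : ℝ)⁻¹) ∧
      c / Real.log 2 * ((k + 0 + e : ℕ) : ℝ)⁻¹ ≤ 4 / k := fun c e c0 c2 =>
    ⟨fun a b h => by dsimp only; gcongr, by
      rw [div_eq_mul_inv 4]
      gcongr
      · rw [div_le_iff₀ (by linarith)]; linarith
      · omega⟩
  have b1 := brun2 (B := M - (k + 1)) k0 z0 (by omega) act (by omega) h3 (le_trans (by gcongr; omega) h4)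
    (fun _ => by positivity) (hu 1 2 zero_le_one one_le_two).1 (hu 1 2 zero_le_one one_le_two).2 a
  have c2 : 1 + 1 / (z : ℝ) ≤ 2 := by linarith [(div_le_one (zero_lt_one.trans_le z1)).mpr z1]
  have b2 := brun2 (m := m + 1) (B := M - (k + 1)) k0 z0 (by omega) act (by omega) (le_trans (mul_le_mul_of_nonneg_right
    (pow_le_pow_of_le_one (by norm_num) (by norm_num) m.le_succ) (by positivity)) h3) h4
      (fun _ => by positivity) (hu _ 1 (by positivity) c2).1 (hu _ 1 (by positivity) c2).2 a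
  rw [hm.neg_one_pow, ← mul_sum] at b1
  rw [hm.add_one.neg_one_pow, ← mul_sum] at b2
  have s0 := fun t => mul_nonneg (sI_mem (PQ z) a t).1 (gp_prod (PQ (2 ^ R) \ PQ z) t).1
  rw [sum_SS, show M - 1 = k + (M - (k + 1)) by omega, sum_range_add]
  simp only [vv_shift]
  refine ⟨le_add_of_nonneg_of_le (sum_nonneg fun _ _ => s0 _) (le_trans ?_ (sum_le_sum (f := fun i =>
    Th z * (1 / Real.log 2 * ((k + i + 2 : ℕ) : ℝ)⁻¹) * sI (PQ z) a (vv n k i)) fun i hi => ?_)),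
      add_le_add ((sum_le_sum (g := fun i => 4 * Th z * ((0 + i + 1 : ℕ) : ℝ)⁻¹) fun i hi => ?_).trans ?_)
        ((sum_le_sum (g := fun i => Th z * ((1 + 1 / z) / Real.log 2 * ((k + i + 1 : ℕ) : ℝ)⁻¹) *
          sI (PQ z) a (vv n k i)) fun i hi => ?_).trans ?_)⟩
  · have := log_le_sum (a := k + 2) (b := M + 1) (by omega) (by omega)
    rw [sum_Ico_eq_sum_range, show M + 1 - (k + 2) = M - (k + 1) by omega] at this
    simp only [add_right_comm k 2] at this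
    have h1 : Real.log M ≤ Real.log (M + 1 : ℕ) :=
      Real.log_le_log (by exact_mod_cast k0.trans hk) (by exact_mod_cast M.le_succ)
    have h2 := mul_le_mul_of_nonneg_left ((sub_le_sub_right h1 _).trans this)
      (show 0 ≤ (1 - δ) * (1 / Real.log 2) from mul_nonneg (by linarith) (by positivity))
    rw [div_eq_mul_one_div]
    linarith
  · have i1 := mem_range.mp hi
    rw [mul_comm (sI _ _ _)]
    refine mul_le_mul_of_nonneg_right (le_trans ?_ (good_ge (n3.trans (le_vv n k i).2)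
      (top k i (by omega)) hz (ac i) Subset.rfl)) (sI_mem _ _ _).1
    have := Real.log_le_log (by exact_mod_cast (Nat.two_pow_pos _).trans_le (le_vv n k i).1)
      ((Nat.cast_le (α := ℝ)).mpr (vv_bd h2k i).2.le)
    rw [Nat.cast_pow, Real.log_pow, Nat.cast_ofNat] at this
    refine le_trans (le_of_eq ?_) (div_le_div_of_nonneg_left T0.le (T0.trans_le (ac i)) this)
    field_simp
  · have i1 := mem_range.mp hi
    have h3 := n3.trans (le_vv n 0 i).2
    refine (mul_le_of_le_one_left (gp_prod _ _).1 (sI_mem _ _ _).2).trans ((pv_le h3 (top 0 i (by omega))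
      hz).trans ((mul_le_mul_of_nonneg_left ((V_le h3).trans (div_log_vv zero_le_two n 0 i))
        T0.le).trans_eq (by ring)))
  · rw [← mul_sum]
    exact mul_le_mul_of_nonneg_left (harm_le' 0 le_rfl) (by positivity)
  · have i1 := mem_range.mp hi
    have h3 := n3.trans (le_vv n k i).2
    rw [mul_comm (sI _ _ _)]
    refine mul_le_mul_of_nonneg_right ((pv_le h3 (top k i (by omega)) hz).trans
      (mul_le_mul_of_nonneg_left ((V_le' h3 z0 (ac i)).trans ((div_le_div_of_nonneg_left (by positivity)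
        (by positivity) (log_vv n k i)).trans_eq ?_)) T0.le)) (sI_mem _ _ _).1
    field_simp
  · have h2 := mul_le_mul_of_nonneg_left (harm_le' (a := M - (k + 1)) (b := M) k (by omega))
      (show 0 ≤ (1 + δ) * ((1 + 1 / z) / Real.log 2) by positivity)
    rw [mul_div_right_comm]
    linarith

end Pool.Agent.MP_fc7299_nt

end
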